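import Pool.Agent.TH19.Tors

set_option autoImplicit false
set_option linter.unusedSectionVars false

/-!
# The weight of the torsion does not depend on choices
-/

namespace Pool.Agent.TH19.Tors

open Pool.Agent.TH19.Det Matrix

variable {D : Type} [DivisionRing D] {w : D → ℤ}

theorem blk_tv {n k : ℕ} (i j : Fin n) (c : D) :
    (fromBlocks (tv i j c) 0 0 1 : Matrix (Fin n ⊕ Fin k) (Fin n ⊕ Fin k) D) =
      tv (Sum.inl i) (Sum.inl j) c := by
  unfold tv
  ext a b
  rcases a with a | a <;> rcases b with b | b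
  · rw [Matrix.fromBlocks_apply₁₁, Matrix.add_apply, Matrix.add_apply, Matrix.one_apply,
      Matrix.one_apply, Matrix.single_apply, Matrix.single_apply]
    simp only [Sum.inl.injEq]
  · rw [Matrix.fromBlocks_apply₁₂, Matrix.add_apply, Matrix.one_apply, Matrix.single_apply]
    simp
  · rw [Matrix.fromBlocks_apply₂₁, Matrix.add_apply, Matrix.one_apply, Matrix.single_apply]
    simp
  · rw [Matrix.fromBlocks_apply₂₂, Matrix.add_apply, Matrix.one_apply, Matrix.one_apply,
      Matrix.single_apply]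
    simp

theorem blk_dg {n k : ℕ} (i : Fin n) (c : D) :
    (fromBlocks (dg i c) 0 0 1 : Matrix (Fin n ⊕ Fin k) (Fin n ⊕ Fin k) D) =
      dg (Sum.inl i) c := by
  unfold dg
  ext a b
  rcases a with a | a <;> rcases b with b | b
  · rw [Matrix.fromBlocks_apply₁₁, Matrix.diagonal_apply, Matrix.diagonal_apply,
      Function.update_apply, Function.update_apply]
    simp only [Sum.inl.injEq]
  · rw [Matrix.fromBlocks_apply₁₂, Matrix.diagonal_apply]
    simp
  · rw [Matrix.fromBlocks_apply₂₁, Matrix.diagonal_apply]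
    simp
  · rw [Matrix.fromBlocks_apply₂₂, Matrix.diagonal_apply, Matrix.one_apply, Function.update_apply]
    simp

theorem sub_tv {κ : Type} [Fintype κ] [DecidableEq κ] {m : ℕ} (e : κ ≃ Fin m) (i j : κ) (c : D) :
    (tv i j c).submatrix e.symm e.symm = tv (e i) (e j) c := by
  unfold tv
  ext a b
  rw [Matrix.submatrix_apply, Matrix.add_apply, Matrix.add_apply, Matrix.one_apply,
    Matrix.one_apply, Matrix.single_apply, Matrix.single_apply]
  simp only [Equiv.eq_symm_apply, Equiv.apply_symm_apply]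

theorem sub_dg {κ : Type} [Fintype κ] [DecidableEq κ] {m : ℕ} (e : κ ≃ Fin m) (i : κ) (c : D) :
    (dg i c).submatrix e.symm e.symm = dg (e i) c := by
  unfold dg
  ext a b
  rw [Matrix.submatrix_apply, Matrix.diagonal_apply, Matrix.diagonal_apply,
    Function.update_apply, Function.update_apply]
  simp only [EmbeddingLike.apply_eq_iff_eq, Equiv.symm_apply_eq]

/-- Stabilization with the same numbering of rows and columns. -/
theorem wt_stab0 (hw : IsW w) {n k m : ℕ} (e : Fin n ⊕ Fin k ≃ Fin m)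
    {A : Matrix (Fin n) (Fin n) D} (hA : IsUnit A) :
    IsUnit ((fromBlocks A 0 0 1 : Matrix (Fin n ⊕ Fin k) (Fin n ⊕ Fin k) D).submatrix
      e.symm e.symm) ∧
    wt w m ((fromBlocks A 0 0 1 : Matrix (Fin n ⊕ Fin k) (Fin n ⊕ Fin k) D).submatrix
      e.symm e.symm) = wt w n A := by
  have hmul : ∀ A B : Matrix (Fin n) (Fin n) D,
      (fromBlocks (A * B) 0 0 1 : Matrix (Fin n ⊕ Fin k) (Fin n ⊕ Fin k) D).submatrix
        e.symm e.symm =
      (fromBlocks A 0 0 1 : Matrix (Fin n ⊕ Fin k) (Fin n ⊕ Fin k) D).submatrix e.symm e.symm *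
      (fromBlocks B 0 0 1 : Matrix (Fin n ⊕ Fin k) (Fin n ⊕ Fin k) D).submatrix e.symm e.symm := by
    intro A B
    rw [Matrix.submatrix_mul_equiv, Matrix.fromBlocks_multiply]
    simp only [Matrix.mul_zero, add_zero, Matrix.zero_mul, zero_add, Matrix.mul_one]
  have hone : (fromBlocks (1 : Matrix (Fin n) (Fin n) D) 0 0 1 :
      Matrix (Fin n ⊕ Fin k) (Fin n ⊕ Fin k) D).submatrix e.symm e.symm = 1 := by
    rw [Matrix.fromBlocks_one, Matrix.submatrix_one_equiv]
  have hunit : ∀ A : Matrix (Fin n) (Fin n) D, IsUnit A →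
      IsUnit ((fromBlocks A 0 0 1 : Matrix (Fin n ⊕ Fin k) (Fin n ⊕ Fin k) D).submatrix
        e.symm e.symm) := by
    intro A hA
    obtain ⟨B, hAB, hBA⟩ := isUnit_iff_exists.1 hA
    refine isUnit_iff_exists.2 ⟨(fromBlocks B 0 0 1 :
      Matrix (Fin n ⊕ Fin k) (Fin n ⊕ Fin k) D).submatrix e.symm e.symm, ?_, ?_⟩
    · rw [← hmul, hAB, hone]
    · rw [← hmul, hBA, hone]
  refine ⟨hunit A hA, ?_⟩
  have hG := good_wt hw m
  have h : Good w (fun A : Matrix (Fin n) (Fin n) D =>
      wt w m ((fromBlocks A 0 0 1 : Matrix (Fin n ⊕ Fin k) (Fin n ⊕ Fin k) D).submatrix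
        e.symm e.symm)) := by
    refine ⟨?_, ?_, ?_⟩
    · intro A hA i j c hij
      show wt w m _ = _
      rw [hmul, blk_tv, sub_tv]
      refine hG.htv _ (hunit A hA) _ _ c ?_
      intro h
      exact hij (Sum.inl_injective (e.injective h))
    · intro A hA i c hc
      show wt w m _ = _
      rw [hmul, blk_dg, sub_dg]
      exact hG.hdg _ (hunit A hA) _ c hc
    · show wt w m _ = _
      rw [hone]
      exact hG.hone
  exact good_unique h (good_wt hw n) hA

theorem wt_perm' (hw : IsW w) {m : ℕ} (σ : Equiv.Perm (Fin m)) {A : Matrix (Fin m) (Fin m) D}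
    (hA : IsUnit A) : IsUnit (A.submatrix id σ) ∧ wt w m (A.submatrix id σ) = wt w m A := by
  have h1 : A.submatrix id σ = A * (1 : Matrix (Fin m) (Fin m) D).submatrix id σ := by
    ext i j
    rw [Matrix.mul_apply, Finset.sum_eq_single (σ j)]
    · rw [Matrix.submatrix_apply, Matrix.submatrix_apply, id, id, Matrix.one_apply_eq, mul_one]
    · intro b _ hb
      rw [Matrix.submatrix_apply, id, Matrix.one_apply_ne hb, mul_zero]
    · intro h
      exact absurd (Finset.mem_univ _) h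
  have h2 : (1 : Matrix (Fin m) (Fin m) D).submatrix id σ =
      (1 : Matrix (Fin m) (Fin m) D).submatrix (σ⁻¹ : Equiv.Perm (Fin m)) id := by
    ext i j
    rw [Matrix.submatrix_apply, Matrix.submatrix_apply, id, id, Matrix.one_apply,
      Matrix.one_apply]
    simp only [Equiv.Perm.inv_eq_iff_eq]
  have hG := good_wt hw m
  have h3 := hG.perm hw (σ⁻¹) (A := 1) isUnit_one
  rw [h1, h2]
  refine ⟨hA.mul h3.2, ?_⟩
  rw [wt_mul hw hA h3.2, h3.1, hG.hone, add_zero]

/-- Stabilization with arbitrary numberings of rows and columns. -/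
theorem wt_stab (hw : IsW w) {n k m : ℕ} (e₁ e₂ : Fin n ⊕ Fin k ≃ Fin m)
    {A : Matrix (Fin n) (Fin n) D} (hA : IsUnit A) :
    wt w m ((fromBlocks A 0 0 1 : Matrix (Fin n ⊕ Fin k) (Fin n ⊕ Fin k) D).submatrix
      e₁.symm e₂.symm) = wt w n A := by
  obtain ⟨h1, h2⟩ := wt_stab0 hw e₁ hA
  have h3 : (fromBlocks A 0 0 1 : Matrix (Fin n ⊕ Fin k) (Fin n ⊕ Fin k) D).submatrix
      e₁.symm e₂.symm = ((fromBlocks A 0 0 1 :
        Matrix (Fin n ⊕ Fin k) (Fin n ⊕ Fin k) D).submatrix e₁.symm e₁.symm).submatrix id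
          (e₂.symm.trans e₁ : Equiv.Perm (Fin m)) := by
    ext i j
    simp [Matrix.submatrix_apply]
  rw [h3, (wt_perm' hw _ h1).2, h2]

variable {r : ℕ → ℕ} {M : ℕ}

/-- The weight of the torsion is independent of the contraction and of the representative. -/
theorem rep_indep (hw : IsW w) (hr : ∀ n, M ≤ n → r n = 0)
    {X : ∀ n, Matrix (Fin (r (n + 1))) (Fin (r n)) D} (hX : ∀ n, X (n + 1) * X n = 0)
    {Y Y' : ∀ n, Matrix (Fin (r n)) (Fin (r (n + 1))) D} (hY : Contr X Y) (hY' : Contr X Y')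
    {x x' : D} (hx : x ≠ 0) (hx' : x' ≠ 0) (hrep : K1Rep (Tm M 1 0 X Y) x)
    (hrep' : K1Rep (Tm M 1 0 X Y') x') : w x = w x' := by
  obtain ⟨k, n, e₁, e₂, hU, h1⟩ := rep_wt hw hr hX hY hY hx hrep
  obtain ⟨k', n', e₁', e₂', hU', h1'⟩ := rep_wt hw hr hX hY' hY hx' hrep'
  -- numberings of the unstabilized bases
  have hc : Fintype.card (Pt r M 1) = Fintype.card (Pt r M 0) := by
    have h2 := Fintype.card_congr (e₁.trans e₂.symm)
    rw [Fintype.card_sum, Fintype.card_sum] at h2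
    omega
  let E₁ : Pt r M 1 ≃ Fin (Fintype.card (Pt r M 0)) := Fintype.equivFinOfCardEq hc
  let E₂ : Pt r M 0 ≃ Fin (Fintype.card (Pt r M 0)) := Fintype.equivFin _
  let B := (Tm M 0 1 X Y).submatrix E₂.symm E₁.symm
  have key : ∀ (k n : ℕ) (e₁ : Pt r M 1 ⊕ Fin k ≃ Fin (n + 1))
      (e₂ : Pt r M 0 ⊕ Fin k ≃ Fin (n + 1)),
      (fromBlocks (Tm M 0 1 X Y) 0 0 1 :
        Matrix (Pt r M 0 ⊕ Fin k) (Pt r M 1 ⊕ Fin k) D).submatrix e₂.symm e₁.symm =
      (fromBlocks B 0 0 1 : Matrix (Fin (Fintype.card (Pt r M 0)) ⊕ Fin k)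
        (Fin (Fintype.card (Pt r M 0)) ⊕ Fin k) D).submatrix
        ((Equiv.sumCongr E₂.symm (Equiv.refl _)).trans e₂).symm
        ((Equiv.sumCongr E₁.symm (Equiv.refl _)).trans e₁).symm := by
    intro k n e₁ e₂
    ext i j
    rw [Matrix.submatrix_apply, Matrix.submatrix_apply]
    simp only [Equiv.symm_trans_apply, Equiv.sumCongr_symm, Equiv.symm_symm, Equiv.refl_symm]
    rcases e₂.symm i with a | a <;> rcases e₁.symm j with b | b
    · simp [B]
    · simp
    · simp
    · simp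
  have hB : IsUnit B := by
    rw [key] at hU
    -- a block diagonal matrix is invertible only if its blocks are
    apply isUnit_of_inj
    intro v hv
    let ε₁ := (Equiv.sumCongr E₁.symm (Equiv.refl (Fin k))).trans e₁
    let ε₂ := (Equiv.sumCongr E₂.symm (Equiv.refl (Fin k))).trans e₂
    have h3 : Matrix.vecMul (fun i => Sum.elim v (0 : Fin k → D) (ε₂.symm i))
        ((fromBlocks B 0 0 1 : Matrix (Fin (Fintype.card (Pt r M 0)) ⊕ Fin k)
          (Fin (Fintype.card (Pt r M 0)) ⊕ Fin k) D).submatrix ε₂.symm ε₁.symm) = 0 := by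
      funext j
      show ∑ i, Sum.elim v (0 : Fin k → D) (ε₂.symm i) *
        (fromBlocks B 0 0 1 : Matrix (Fin (Fintype.card (Pt r M 0)) ⊕ Fin k)
          (Fin (Fintype.card (Pt r M 0)) ⊕ Fin k) D) (ε₂.symm i) (ε₁.symm j) = 0
      rw [Equiv.sum_comp ε₂.symm (fun i => Sum.elim v (0 : Fin k → D) i *
        (fromBlocks B 0 0 1 : Matrix (Fin (Fintype.card (Pt r M 0)) ⊕ Fin k)
          (Fin (Fintype.card (Pt r M 0)) ⊕ Fin k) D) i (ε₁.symm j)), Fintype.sum_sum_type]
      simp only [Sum.elim_inl, Sum.elim_inr, Pi.zero_apply, zero_mul, Finset.sum_const_zero,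
        add_zero]
      rcases ε₁.symm j with b | b
      · exact congrFun hv b
      · simp
    have h4 := vecMul_inj hU h3
    funext i
    have h5 := congrFun h4 (ε₂ (Sum.inl i))
    simpa using h5
  rw [key, wt_stab hw _ _ hB] at h1
  rw [key, wt_stab hw _ _ hB] at h1'
  omega

end Pool.Agent.TH19.Tors
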