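import Pool.Agent.Helper970.TN.P_linF_tmul
import Pool.Agent.Helper970.TN.P_eval_surj

set_option autoImplicit false
set_option linter.unusedSectionVars false

/-!
# Convex hulls of finite sets in the first homology and integral functionals
-/

namespace Pool.Agent.TH19.Hull

open TN970

variable {Γ : Type} [Group Γ]

/-- The class of `g` in the first homology with real coefficients. -/
noncomputable def cls (g : Γ) : H1R Γ :=
  TensorProduct.tmul ℤ (1 : ℝ) (Additive.ofMul (Abelianization.of g))

theorem linF_cls (φ : Γ →* Multiplicative ℤ) (g : Γ) :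
    linF φ (cls g) = ((Multiplicative.toAdd (φ g) : ℤ) : ℝ) := by
  unfold cls
  rw [linF_tmul, one_mul]

theorem cls_mul (g h : Γ) : cls (g * h) = cls g + cls h := by
  unfold cls
  rw [map_mul, ofMul_mul, TensorProduct.tmul_add]

theorem cls_one : cls (1 : Γ) = 0 := by
  unfold cls
  rw [map_one, ofMul_one, TensorProduct.tmul_zero]

/-- torsion elements vanish in the real homology -/
theorem tmul_torsion {m : Additive (Abelianization Γ)}
    (hm : m ∈ Submodule.torsion ℤ (Additive (Abelianization Γ))) :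
    TensorProduct.tmul ℤ (1 : ℝ) m = 0 := by
  rw [Submodule.mem_torsion_iff] at hm
  obtain ⟨a, ha⟩ := hm
  have ha0 : ((a : ℤ) : ℝ) ≠ 0 := by
    have := nonZeroDivisors.coe_ne_zero a
    exact_mod_cast this
  have h1 : (1 : ℝ) = (a : ℤ) • ((a : ℤ) : ℝ)⁻¹ := by
    rw [zsmul_eq_mul, mul_inv_cancel₀ ha0]
  rw [h1, TensorProduct.smul_tmul]
  have h2 : (a : ℤ) • m = 0 := ha
  rw [h2, TensorProduct.tmul_zero]

/-- Integral coordinates of the first homology. -/
theorem exists_coord [Group.FG Γ] : ∃ (n : ℕ) (φ : Fin n → (Γ →* Multiplicative ℤ))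
    (γ : Fin n → Γ), ∀ x : H1R Γ, x = ∑ i, linF (φ i) x • cls (γ i) := by
  have := eval_surj_fg Γ
  let b := Module.finBasis ℤ ((Additive (Abelianization Γ)) ⧸
      Submodule.torsion ℤ (Additive (Abelianization Γ)))
  let q := (Submodule.torsion ℤ (Additive (Abelianization Γ))).mkQ
  have h1 : ∀ i, ∃ g : Γ, q (Additive.ofMul (Abelianization.of g)) = b i := by
    intro i
    obtain ⟨m, hm⟩ := Submodule.Quotient.mk_surjective _ (b i)
    obtain ⟨g, hg⟩ := QuotientGroup.mk_surjective (Additive.toMul m)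
    refine ⟨g, ?_⟩
    rw [← hm]
    have h3 : m = Additive.ofMul (Abelianization.of g) := by
      rw [← ofMul_toMul m]
      exact congrArg Additive.ofMul hg.symm
    rw [h3]
    rfl
  choose γ hγ using h1
  let φ : Fin (Module.finrank ℤ ((Additive (Abelianization Γ)) ⧸
      Submodule.torsion ℤ (Additive (Abelianization Γ)))) → (Γ →* Multiplicative ℤ) := fun i =>
    (AddMonoidHom.toMultiplicativeRight (((b.coord i).comp q).toAddMonoidHom)).comp Abelianization.of
  have hφ : ∀ i g, Multiplicative.toAdd (φ i g) =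
      b.repr (q (Additive.ofMul (Abelianization.of g))) i := fun i g => rfl
  refine ⟨_, φ, γ, ?_⟩
  intro x
  induction x using TensorProduct.induction_on with
  | zero => simp
  | add x y hx hy =>
    simp only [map_add, add_smul, Finset.sum_add_distrib]
    rw [← hx, ← hy]
  | tmul r m =>
    obtain ⟨g, hg⟩ := QuotientGroup.mk_surjective (Additive.toMul m)
    have h3 : m = Additive.ofMul (Abelianization.of g) := by
      rw [← ofMul_toMul m]
      exact congrArg Additive.ofMul hg.symm
    subst h3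
    simp only [linF_tmul]
    have h4 : (Additive.ofMul (Abelianization.of g) -
        ∑ i, (Multiplicative.toAdd (φ i g)) • Additive.ofMul (Abelianization.of (γ i)) :
          Additive (Abelianization Γ)) ∈ Submodule.torsion ℤ (Additive (Abelianization Γ)) := by
      rw [← Submodule.Quotient.mk_eq_zero]
      show q _ = 0
      rw [map_sub, map_sum, sub_eq_zero]
      conv_lhs => rw [← b.sum_repr (q (Additive.ofMul (Abelianization.of g)))]
      refine Finset.sum_congr rfl fun i _ => ?_
      rw [map_smul, hγ, hφ]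
    have h5 := tmul_torsion h4
    rw [TensorProduct.tmul_sub, sub_eq_zero, TensorProduct.tmul_sum] at h5
    have h6 : TensorProduct.tmul ℤ r (Additive.ofMul (Abelianization.of g)) =
        r • TensorProduct.tmul ℤ (1 : ℝ) (Additive.ofMul (Abelianization.of g)) := by
      rw [TensorProduct.smul_tmul', smul_eq_mul, mul_one]
    rw [h6, h5, Finset.smul_sum]
    refine Finset.sum_congr rfl fun i _ => ?_
    rw [TensorProduct.tmul_smul]
    unfold cls
    rw [mul_smul, ← Int.cast_smul_eq_zsmul ℝ]

theorem linF_prod {n : ℕ} (φ : Fin n → (Γ →* Multiplicative ℤ)) (k : Fin n → ℤ) (x : H1R Γ) :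
    linF (∏ i, φ i ^ k i) x = ∑ i, (k i : ℝ) * linF (φ i) x := by
  induction x using TensorProduct.induction_on with
  | zero => simp
  | add x y hx hy =>
    rw [map_add, hx, hy, ← Finset.sum_add_distrib]
    refine Finset.sum_congr rfl fun i _ => ?_
    rw [map_add, mul_add]
  | tmul r m =>
    obtain ⟨g, hg⟩ := QuotientGroup.mk_surjective (Additive.toMul m)
    have h3 : m = Additive.ofMul (Abelianization.of g) := by
      rw [← ofMul_toMul m]
      exact congrArg Additive.ofMul hg.symm
    subst h3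
    simp only [linF_tmul]
    have h1 : Multiplicative.toAdd ((∏ i, φ i ^ k i) g) =
        ∑ i, k i * Multiplicative.toAdd (φ i g) := by
      rw [MonoidHom.finsetProd_apply, toAdd_prod]
      refine Finset.sum_congr rfl fun i _ => ?_
      have : (φ i ^ k i) g = (φ i g) ^ k i := rfl
      rw [this, toAdd_zpow, smul_eq_mul]
    rw [h1]
    push_cast
    rw [Finset.mul_sum]
    refine Finset.sum_congr rfl fun i _ => ?_
    ring

/-- A point lies in the convex hull of a finite set if this can not be disproved by integral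
functionals. -/
theorem mem_hull [Group.FG Γ] (Q : Finset (H1R Γ)) (p : H1R Γ)
    (h : ∀ φ : Γ →* Multiplicative ℤ, ∃ q ∈ Q, linF φ p ≤ linF φ q) :
    p ∈ convexHull ℝ (Q : Set (H1R Γ)) := by
  classical
  by_contra hp
  obtain ⟨n, φ, γ, hc⟩ := exists_coord (Γ := Γ)
  let κ : H1R Γ →ₗ[ℝ] (Fin n → ℝ) := LinearMap.pi fun i => linF (φ i)
  have hκ : Function.Injective κ := by
    intro x y hxy
    rw [hc x, hc y]
    refine Finset.sum_congr rfl fun i _ => ?_
    have : linF (φ i) x = linF (φ i) y := congrFun hxy i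
    rw [this]
  have h1 : κ p ∉ convexHull ℝ (κ '' (Q : Set (H1R Γ))) := by
    rw [← LinearMap.image_convexHull]
    rintro ⟨y, hy, he⟩
    exact hp (hκ he ▸ hy)
  obtain ⟨f, c0, hf1, hf2⟩ := geometric_hahn_banach_closed_point (convex_convexHull ℝ _)
    ((Q.finite_toSet.image κ).isCompact_convexHull ℝ).isClosed h1
  have hf : ∀ y : Fin n → ℝ, f y = ∑ i, f (Pi.single i 1) * y i := by
    intro y
    have h3 : y = ∑ i, y i • (Pi.single i 1 : Fin n → ℝ) := by
      funext j
      rw [Finset.sum_apply]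
      simp [Pi.single_apply]
    conv_lhs => rw [h3]
    rw [map_sum]
    refine Finset.sum_congr rfl fun i _ => ?_
    rw [map_smul, smul_eq_mul, mul_comm]
  have hlt : ∀ q ∈ Q, ∑ i, f (Pi.single i 1) * κ q i < ∑ i, f (Pi.single i 1) * κ p i := by
    intro q hq
    rw [← hf, ← hf]
    exact (hf1 _ (subset_convexHull ℝ _ ⟨q, hq, rfl⟩)).trans hf2
  -- rational approximation
  have hopen : IsOpen {c : Fin n → ℝ | ∀ q ∈ Q, ∑ i, c i * κ q i < ∑ i, c i * κ p i} := by
    have : {c : Fin n → ℝ | ∀ q ∈ Q, ∑ i, c i * κ q i < ∑ i, c i * κ p i} =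
        ⋂ q ∈ Q, {c : Fin n → ℝ | ∑ i, c i * κ q i < ∑ i, c i * κ p i} := by
      ext c
      simp
    rw [this]
    refine isOpen_biInter_finset fun q _ => ?_
    refine isOpen_lt ?_ ?_ <;> fun_prop
  have hdense : DenseRange (Pi.map (fun _ : Fin n => ((↑) : ℚ → ℝ))) :=
    DenseRange.piMap fun _ => Rat.denseRange_cast
  obtain ⟨c, hcm⟩ := hdense.exists_mem_open hopen ⟨fun i => f (Pi.single i 1), hlt⟩
  -- integral multiples
  let N : ℕ := ∏ i, (c i).den
  have hN : 0 < N := Finset.prod_pos fun i _ => (c i).den_pos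
  have hint : ∀ i, ∃ k : ℤ, (k : ℝ) = (N : ℝ) * (c i : ℝ) := by
    intro i
    obtain ⟨m, hm⟩ : (c i).den ∣ N := Finset.dvd_prod_of_mem (fun i => (c i).den) (Finset.mem_univ i)
    refine ⟨m * (c i).num, ?_⟩
    have h3 : ((c i : ℚ) : ℝ) * (c i).den = (c i).num := by
      exact_mod_cast Rat.mul_den_eq_num (c i)
    rw [hm]
    push_cast
    rw [← h3]
    ring
  choose k hk using hint
  obtain ⟨q, hq, hle⟩ := h (∏ i, φ i ^ k i)
  rw [linF_prod, linF_prod] at hle
  have h5 := hcm q hq
  have h6 : ∀ x, ∑ i, (k i : ℝ) * linF (φ i) x = (N : ℝ) * ∑ i, (c i : ℝ) * κ x i := by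
    intro x
    rw [Finset.mul_sum]
    refine Finset.sum_congr rfl fun i _ => ?_
    rw [hk i, mul_assoc]
    rfl
  rw [h6, h6] at hle
  have hN' : (0 : ℝ) < N := by exact_mod_cast hN
  have h7 := le_of_mul_le_mul_left hle hN'
  exact absurd h5 (not_lt.2 h7)

open scoped Pointwise

/-- Equality of polytopes can be checked by integral functionals. -/
theorem hull_add [Group.FG Γ] (A B R : Finset Γ) (hA : A.Nonempty) (hB : B.Nonempty)
    (hR : R.Nonempty)
    (h : ∀ φ : Γ →* Multiplicative ℤ, B.sup' hB (fun g => Multiplicative.toAdd (φ g)) =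
      A.sup' hA (fun g => Multiplicative.toAdd (φ g)) +
        R.sup' hR (fun g => Multiplicative.toAdd (φ g))) :
    convexHull ℝ (cls '' (B : Set Γ)) =
      convexHull ℝ (cls '' (A : Set Γ)) + convexHull ℝ (cls '' (R : Set Γ)) := by
  classical
  rw [← convexHull_add]
  have e1 : cls '' (A : Set Γ) + cls '' (R : Set Γ) =
      (((A ×ˢ R).image fun p => cls p.1 + cls p.2 : Finset (H1R Γ)) : Set (H1R Γ)) := by
    ext x
    simp only [Set.mem_add, Set.mem_image, Finset.coe_image, Finset.coe_product, Set.mem_prod,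
      Finset.mem_coe, Prod.exists]
    constructor
    · rintro ⟨_, ⟨a, ha, rfl⟩, _, ⟨r, hr, rfl⟩, rfl⟩
      exact ⟨a, r, ⟨ha, hr⟩, rfl⟩
    · rintro ⟨a, r, ⟨ha, hr⟩, rfl⟩
      exact ⟨_, ⟨a, ha, rfl⟩, _, ⟨r, hr, rfl⟩, rfl⟩
  have e2 : cls '' (B : Set Γ) = ((B.image cls : Finset (H1R Γ)) : Set (H1R Γ)) := by
    rw [Finset.coe_image]
  rw [e1, e2]
  apply Set.Subset.antisymm
  · refine convexHull_min ?_ (convex_convexHull ℝ _)
    intro x hx
    rw [Finset.mem_coe, Finset.mem_image] at hx
    obtain ⟨b, hb, rfl⟩ := hx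
    refine mem_hull _ _ fun φ => ?_
    obtain ⟨a, ha, hae⟩ := Finset.exists_mem_eq_sup' hA (fun g => Multiplicative.toAdd (φ g))
    obtain ⟨r, hr, hre⟩ := Finset.exists_mem_eq_sup' hR (fun g => Multiplicative.toAdd (φ g))
    refine ⟨cls a + cls r, Finset.mem_image.2 ⟨(a, r), Finset.mem_product.2 ⟨ha, hr⟩, rfl⟩, ?_⟩
    rw [map_add, linF_cls, linF_cls, linF_cls]
    have h1 := Finset.le_sup' (fun g => Multiplicative.toAdd (φ g)) hb
    rw [h φ, hae, hre] at h1
    exact_mod_cast h1
  · refine convexHull_min ?_ (convex_convexHull ℝ _)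
    intro x hx
    rw [Finset.mem_coe, Finset.mem_image] at hx
    obtain ⟨⟨a, r⟩, har, rfl⟩ := hx
    rw [Finset.mem_product] at har
    refine mem_hull _ _ fun φ => ?_
    obtain ⟨b, hb, hbe⟩ := Finset.exists_mem_eq_sup' hB (fun g => Multiplicative.toAdd (φ g))
    refine ⟨cls b, Finset.mem_image_of_mem _ hb, ?_⟩
    rw [map_add, linF_cls, linF_cls, linF_cls]
    have h1 := Finset.le_sup' (fun g => Multiplicative.toAdd (φ g)) har.1
    have h2 := Finset.le_sup' (fun g => Multiplicative.toAdd (φ g)) har.2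
    have h3 := h φ
    rw [hbe] at h3
    have h4 : Multiplicative.toAdd (φ a) + Multiplicative.toAdd (φ r) ≤
        Multiplicative.toAdd (φ b) := by
      rw [h3]
      exact add_le_add h1 h2
    exact_mod_cast h4

end Pool.Agent.TH19.Hull
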