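import Pool.Agent.TH19.Thur
import Pool.Agent.TH19.Hull

set_option autoImplicit false
set_option linter.unusedSectionVars false

/-!
# Normal forms in the crossed product, and the polytope of an element
-/

namespace Pool.Agent.TH19.NF

open TN970 Pool.Agent.TH19.Val Pool.Agent.TH19.Det Pool.Agent.TH19.Ser Pool.Agent.TH19.Comb
  Pool.Agent.TH19.Supp Pool.Agent.TH19.Hull Pool.Agent.TH19.Thur

variable {Γ : Type} [Group Γ] {D : Type} [DivisionRing D] {u : Γ →* Dˣ}

theorem exists_CP {N : Subgroup Γ} [hN : N.Normal] {x : D} (hx : x ∈ RN u N ⊤) (hx0 : x ≠ 0) :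
    ∃ (s : Finset Γ) (a : Γ → D), s.Nonempty ∧ CP u N x s a := by
  classical
  have hmem : ∀ g : Γ, g * (Quotient.out (QuotientGroup.mk g : Γ ⧸ N))⁻¹ ∈ N := by
    intro g
    have h1 : (QuotientGroup.mk (Quotient.out (QuotientGroup.mk g : Γ ⧸ N)) : Γ ⧸ N) =
        QuotientGroup.mk g := Quotient.out_eq _
    rw [QuotientGroup.eq] at h1
    exact hN.mem_comm h1
  have hle : RN u N ⊤ ≤ Submodule.span (Dc u N)
      (Set.range fun q : Γ ⧸ N => ((u (Quotient.out q) : Dˣ) : D)) := by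
    unfold RN
    rw [Submodule.span_le]
    rintro y ⟨g, -, rfl⟩
    have h2 : ((u g : Dˣ) : D) =
        ((u (g * (Quotient.out (QuotientGroup.mk g : Γ ⧸ N))⁻¹) : Dˣ) : D) *
        ((u (Quotient.out (QuotientGroup.mk g : Γ ⧸ N)) : Dˣ) : D) := by
      rw [← Units.val_mul, ← map_mul, inv_mul_cancel_right]
    rw [h2]
    exact Submodule.smul_mem _ (⟨_, Subfield.subset_closure ⟨_, hmem g, rfl⟩⟩ : Dc u N)
      (Submodule.subset_span ⟨_, rfl⟩)
  have h1 := hle hx
  rw [Finsupp.mem_span_range_iff_exists_finsupp] at h1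
  obtain ⟨c, hc⟩ := h1
  have hout : Function.Injective (Quotient.out : Γ ⧸ N → Γ) := Quotient.out_injective
  have hmk : ∀ q : Γ ⧸ N, (QuotientGroup.mk (Quotient.out q) : Γ ⧸ N) = q := fun q =>
    Quotient.out_eq _
  have hsum : x = ∑ g ∈ c.support.image Quotient.out,
      ((c (QuotientGroup.mk g) : Dc u N) : D) * ((u g : Dˣ) : D) := by
    rw [Finset.sum_image (fun a _ b _ h => hout h), ← hc, Finsupp.sum]
    refine Finset.sum_congr rfl fun q _ => ?_
    rw [hmk]
    rfl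
  have hne : c.support.Nonempty := by
    rw [Finsupp.support_nonempty_iff]
    rintro rfl
    rw [Finsupp.sum_zero_index] at hc
    exact hx0 hc.symm
  refine ⟨c.support.image Quotient.out, fun g => ((c (QuotientGroup.mk g) : Dc u N) : D),
    hne.image _, ?_, ?_, ?_, hsum⟩
  · intro g _
    exact (c (QuotientGroup.mk g)).2
  · intro g hg h0
    obtain ⟨q, hq, rfl⟩ := Finset.mem_image.1 hg
    rw [hmk] at h0
    exact (Finsupp.mem_support_iff.1 hq) (Subtype.ext h0)
  · intro g hg h hh hgh hmem'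
    obtain ⟨q, hq, rfl⟩ := Finset.mem_image.1 hg
    obtain ⟨q', hq', rfl⟩ := Finset.mem_image.1 hh
    apply hgh
    have h3 : (QuotientGroup.mk (Quotient.out q') : Γ ⧸ N) =
        QuotientGroup.mk (Quotient.out q) := by
      rw [QuotientGroup.eq]
      exact hN.mem_comm hmem'
    rw [hmk, hmk] at h3
    rw [h3]

/-- The homomorphism to the first homology with real coefficients. -/
noncomputable def clsHom (Γ : Type) [Group Γ] : Γ →* Multiplicative (H1R Γ) where
  toFun g := Multiplicative.ofAdd (cls g)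
  map_one' := by rw [cls_one]; rfl
  map_mul' g h := by rw [cls_mul]; rfl

/-- The kernel `K` of the homomorphism to the first homology modulo torsion. -/
noncomputable def Kab (Γ : Type) [Group Γ] : Subgroup Γ := (clsHom Γ).ker

instance : (Kab Γ).Normal := inferInstanceAs (clsHom Γ).ker.Normal

theorem mem_Kab {g : Γ} : g ∈ Kab Γ ↔ cls g = 0 := by
  unfold Kab
  rw [MonoidHom.mem_ker]
  exact Iff.rfl

theorem Kab_le (χ : Γ →* Multiplicative ℤ) : Kab Γ ≤ χ.ker := by
  intro g hg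
  rw [mem_Kab] at hg
  have h1 := linF_cls χ g
  rw [hg, map_zero] at h1
  rw [mem_ker]
  exact_mod_cast h1.symm

theorem comm_Kab (x y : Γ) : x * y * x⁻¹ * y⁻¹ ∈ Kab Γ := by
  unfold Kab
  rw [MonoidHom.mem_ker]
  simp only [map_mul, map_inv]
  rw [mul_comm (clsHom Γ x)]
  simp

theorem exists_frac (hu : Linnell u) (hgen : ∀ x : D, x ∈ Dc u ⊤) {x : D} (hx : x ≠ 0) :
    ∃ (f g : D) (A B : Finset Γ) (a b : Γ → D), A.Nonempty ∧ B.Nonempty ∧
      CP u (Kab Γ) f A a ∧ CP u (Kab Γ) g B b ∧ g * x = f := by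
  obtain ⟨g, hg, hg0, hgx⟩ := frac_Dc u hu (Kab Γ) ⊤ inferInstance le_top
    (fun x _ y _ => comm_Kab x y) x (hgen x)
  obtain ⟨B, b, hB, hgB⟩ := exists_CP hg hg0
  obtain ⟨A, a, hA, hfA⟩ := exists_CP hgx (mul_ne_zero hg0 hx)
  exact ⟨g * x, g, A, B, a, b, hA, hB, hfA, hgB, rfl⟩

/-- If all weights of `x` are nonpositive then `-P(x)` is a polytope `R`. -/
theorem exists_poly [Group.FG Γ] (hu : Linnell u) (hgen : ∀ x : D, x ∈ Dc u ⊤) {x : D}
    (hx : x ≠ 0) (hw : ∀ φ ψ : Γ →* Multiplicative ℤ, wd u φ ψ x ≤ 0) :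
    ∃ (R : Finset Γ) (hR : R.Nonempty), ∀ φ : Γ →* Multiplicative ℤ,
      vl u φ x = ((-(R.sup' hR (th φ)) : ℤ) : WithBot ℤ) := by
  obtain ⟨f, g, A, B, a, b, hA, hB, hf, hg, hfg⟩ := exists_frac hu hgen hx
  obtain ⟨R, hR, h⟩ := exists_R A B hA hB
    (subadd hu hgen inferInstance Kab_le hf hg hA hB hx (Or.inr hfg) hw)
  refine ⟨R, hR, fun φ => ?_⟩
  have h1 := vl_mul (θ := φ) hu hgen g x
  rw [hfg, vl_supp hu inferInstance hf hA (Kab_le φ), vl_supp hu inferInstance hg hB (Kab_le φ)]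
    at h1
  obtain ⟨l, hl⟩ := exists_hasV (θ := φ) hu hgen hx
  rw [vl_eq hu hl] at h1 ⊢
  rw [← WithBot.coe_add, WithBot.coe_inj] at h1
  rw [WithBot.coe_inj]
  have h2 := h φ
  omega

open scoped Pointwise

/-- The polytopes of the numerator and the denominator. -/
theorem poly_eq [Group.FG Γ] (hu : Linnell u) (hgen : ∀ x : D, x ∈ Dc u ⊤) {x : D}
    (hx : x ≠ 0) {R : Finset Γ} (hR : R.Nonempty)
    (h : ∀ φ : Γ →* Multiplicative ℤ, vl u φ x = ((-(R.sup' hR (th φ)) : ℤ) : WithBot ℤ))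
    {f g : D} {A B : Finset Γ} {a b : Γ → D} (hf : CP u (Kab Γ) f A a) (hg : CP u (Kab Γ) g B b)
    (hA : A.Nonempty) (hB : B.Nonempty) (hfg : x * g = f ∨ g * x = f) :
    convexHull ℝ (cls '' (B : Set Γ)) =
      convexHull ℝ (cls '' (A : Set Γ)) + convexHull ℝ (cls '' (R : Set Γ)) := by
  refine hull_add A B R hA hB hR fun φ => ?_
  have h0 : vl u φ f = vl u φ x + vl u φ g := by
    rcases hfg with h1 | h1
    · rw [← vl_mul hu hgen, h1]
    · rw [add_comm, ← vl_mul hu hgen, h1]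
  rw [vl_supp hu inferInstance hf hA (Kab_le φ), vl_supp hu inferInstance hg hB (Kab_le φ), h φ,
    ← WithBot.coe_add, WithBot.coe_inj] at h0
  have h2 : B.sup' hB (th φ) = A.sup' hA (th φ) + R.sup' hR (th φ) := by omega
  exact h2

end Pool.Agent.TH19.NF
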