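import Pool.Agent.TH19.Main1
import Pool.Agent.Helper970.V7.P_v7_succ
import Pool.Agent.Helper970.V7.P_proj_res

attribute [local instance] VN831.bcFunctor_additive VN831.viaAdd VN831.viaMod V7N.bcF_additive
  V7N.rmAdd V7N.rmMod

set_option autoImplicit false

/-!
# Resolutions of groups of cohomological dimension at most two
-/

namespace Pool.Agent.TH19.Cd

open CategoryTheory V7N Pool.Agent.TH19.Main1

variable {Γ : Type} [Group Γ]

theorem inc_id (c : MonoidAlgebra ℤ Γ) : inc (MonoidHom.id Γ) c = c := by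
  unfold inc
  induction c using MonoidAlgebra.induction_on with
  | of g => simp [MonoidAlgebra.mapDomainRingHom]
  | add a b ha hb => rw [map_add, ha, hb]
  | smul r x hx => rw [map_zsmul, hx]

/-- the matrix of a homomorphism of free modules -/
noncomputable def matF {a b : ℕ}
    (f : RM (MonoidHom.id Γ) a →ₗ[MonoidAlgebra ℤ Γ] RM (MonoidHom.id Γ) b) :
    Matrix (Fin a) (Fin b) (MonoidAlgebra ℤ Γ) := fun i j =>
  (show Fin b → MonoidAlgebra ℤ Γ from
    f (show RM (MonoidHom.id Γ) a from (Pi.single i 1 : Fin a → MonoidAlgebra ℤ Γ))) j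

theorem matF_spec {a b : ℕ}
    (f : RM (MonoidHom.id Γ) a →ₗ[MonoidAlgebra ℤ Γ] RM (MonoidHom.id Γ) b)
    (v : Fin a → MonoidAlgebra ℤ Γ) :
    (show Fin b → MonoidAlgebra ℤ Γ from f (show RM (MonoidHom.id Γ) a from v)) =
      Matrix.vecMul v (matF f) := by
  classical
  have h1 : (show RM (MonoidHom.id Γ) a from v) =
      ∑ i, v i • (show RM (MonoidHom.id Γ) a from
        (Pi.single i 1 : Fin a → MonoidAlgebra ℤ Γ)) := by
    have h2 : ∀ i, (v i • (show RM (MonoidHom.id Γ) a from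
        (Pi.single i 1 : Fin a → MonoidAlgebra ℤ Γ)) : RM (MonoidHom.id Γ) a) =
        (show RM (MonoidHom.id Γ) a from (Pi.single i (v i) : Fin a → MonoidAlgebra ℤ Γ)) := by
      intro i
      show (fun l => inc (MonoidHom.id Γ) (v i) *
        (Pi.single i 1 : Fin a → MonoidAlgebra ℤ Γ) l) = _
      rw [inc_id]
      funext l
      by_cases hl : l = i
      · subst hl
        show v l * (Pi.single l 1 : Fin a → MonoidAlgebra ℤ Γ) l =
          (Pi.single l (v l) : Fin a → MonoidAlgebra ℤ Γ) l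
        rw [Pi.single_eq_same, Pi.single_eq_same, mul_one]
      · show v i * (Pi.single i 1 : Fin a → MonoidAlgebra ℤ Γ) l =
          (Pi.single i (v i) : Fin a → MonoidAlgebra ℤ Γ) l
        rw [Pi.single_eq_of_ne hl, Pi.single_eq_of_ne hl, mul_zero]
    simp only [h2]
    show v = ∑ i, (Pi.single i (v i) : Fin a → MonoidAlgebra ℤ Γ)
    exact (Finset.univ_sum_single v).symm
  have e : f (show RM (MonoidHom.id Γ) a from v) =
      ∑ i, v i • f (show RM (MonoidHom.id Γ) a from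
        (Pi.single i 1 : Fin a → MonoidAlgebra ℤ Γ)) := by
    conv_lhs => rw [h1]
    rw [map_sum]
    refine Finset.sum_congr rfl fun i _ => ?_
    rw [map_smul]
  funext j
  have e2 := congrArg (fun z : RM (MonoidHom.id Γ) b =>
    (show Fin b → MonoidAlgebra ℤ Γ from z) j) e
  refine e2.trans ?_
  refine (Finset.sum_apply j Finset.univ (fun i => (show Fin b → MonoidAlgebra ℤ Γ from
    (v i • f (show RM (MonoidHom.id Γ) a from
        (Pi.single i 1 : Fin a → MonoidAlgebra ℤ Γ)) : RM (MonoidHom.id Γ) b)))).trans ?_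
  show _ = ∑ i, v i * matF f i j
  refine Finset.sum_congr rfl fun i _ => ?_
  show inc (MonoidHom.id Γ) (v i) * _ = _
  rw [inc_id]
  rfl

theorem small_aux (C : FreeRes Γ) (K : ChainComplex (ModuleCat.{0} (MonoidAlgebra ℤ Γ)) ℕ)
    (hK : K = resC C (MonoidHom.id Γ)) (H : ∀ n, K.X n ⟶ K.X (n + 1))
    (hH : ∀ n, 2 ≤ n → K.d (n + 1) n ≫ H n + H (n + 1) ≫ K.d (n + 2) (n + 1) = 𝟙 _) :
    Small C := by
  classical
  subst hK
  let Hl : ∀ n, RM (MonoidHom.id Γ) (C.r n) →ₗ[MonoidAlgebra ℤ Γ]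
      RM (MonoidHom.id Γ) (C.r (n + 1)) := fun n => (H n).hom
  refine ⟨fun n => matF (Hl n), fun n hn => ?_⟩
  have h1 := hH n hn
  rw [ts_resC_d, ts_resC_d] at h1
  refine Matrix.ext fun i j => ?_
  have h2 := congrArg (fun F : (resC C (MonoidHom.id Γ)).X (n + 1) ⟶
      (resC C (MonoidHom.id Γ)).X (n + 1) =>
      F.hom (show RM (MonoidHom.id Γ) (C.r (n + 1)) from
        (Pi.single i 1 : Fin (C.r (n + 1)) → MonoidAlgebra ℤ Γ))) h1
  have h3 : (show Fin (C.r (n + 1)) → MonoidAlgebra ℤ Γ from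
      (Hl n) (dm (MonoidHom.id Γ) (C.d n) (show RM (MonoidHom.id Γ) (C.r (n + 1)) from
        (Pi.single i 1 : Fin (C.r (n + 1)) → MonoidAlgebra ℤ Γ)))) +
      (show Fin (C.r (n + 1)) → MonoidAlgebra ℤ Γ from
        (dm (MonoidHom.id Γ) (C.d (n + 1))) ((Hl (n + 1)) (show RM (MonoidHom.id Γ) (C.r (n + 1)) from
        (Pi.single i 1 : Fin (C.r (n + 1)) → MonoidAlgebra ℤ Γ)))) =
      (Pi.single i 1 : Fin (C.r (n + 1)) → MonoidAlgebra ℤ Γ) := h2
  have h4 : (show Fin (C.r (n + 1)) → MonoidAlgebra ℤ Γ from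
      (Hl n) (dm (MonoidHom.id Γ) (C.d n) (show RM (MonoidHom.id Γ) (C.r (n + 1)) from
        (Pi.single i 1 : Fin (C.r (n + 1)) → MonoidAlgebra ℤ Γ)))) =
      Matrix.vecMul (Matrix.vecMul (Pi.single i 1) (C.d n)) (matF (Hl n)) :=
    matF_spec (Hl n) _
  have h5 : (show Fin (C.r (n + 1)) → MonoidAlgebra ℤ Γ from
        (dm (MonoidHom.id Γ) (C.d (n + 1))) ((Hl (n + 1)) (show RM (MonoidHom.id Γ) (C.r (n + 1)) from
        (Pi.single i 1 : Fin (C.r (n + 1)) → MonoidAlgebra ℤ Γ)))) =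
      Matrix.vecMul (Matrix.vecMul (Pi.single i 1) (matF (Hl (n + 1)))) (C.d (n + 1)) := by
    show Matrix.vecMul (show Fin (C.r (n + 2)) → MonoidAlgebra ℤ Γ from
      (Hl (n + 1)) (show RM (MonoidHom.id Γ) (C.r (n + 1)) from
        (Pi.single i 1 : Fin (C.r (n + 1)) → MonoidAlgebra ℤ Γ))) (C.d (n + 1)) = _
    rw [matF_spec (Hl (n + 1))]
  rw [h4, h5, Matrix.vecMul_vecMul, Matrix.vecMul_vecMul] at h3
  have h6 := congrFun h3 j
  rw [Pi.add_apply, Matrix.single_one_vecMul, Matrix.single_one_vecMul] at h6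
  rw [Matrix.add_apply, Matrix.one_apply]
  refine h6.trans ?_
  by_cases hij : i = j
  · subst hij
    rw [if_pos rfl, Pi.single_eq_same]
  · rw [if_neg hij, Pi.single_eq_of_ne (Ne.symm hij)]

/-- cohomological dimension at most two -/
theorem small_of_cd (C : FreeRes Γ) (P : ProjectiveResolution (trivG Γ))
    (hP : ∀ n, 3 ≤ n → Limits.IsZero (P.complex.X n)) : Small C := by
  obtain ⟨Q, hQ⟩ := proj_res C (MonoidHom.id Γ) Function.injective_id
  let E := ProjectiveResolution.homotopyEquiv P Q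
  let h := E.homotopyInvHomId
  refine small_aux C Q.complex hQ (fun n => - h.hom n (n + 1)) ?_
  intro n hn
  have h1 := h.comm (n + 1)
  rw [Homotopy.dNext_succ_chainComplex, Homotopy.prevD_chainComplex] at h1
  have h2 : (E.inv ≫ E.hom).f (n + 1) = 0 := by
    rw [HomologicalComplex.comp_f]
    exact ((hP (n + 1) (by omega)).eq_of_tgt (E.inv.f (n + 1)) 0 ▸ Limits.zero_comp)
  rw [h2, HomologicalComplex.id_f] at h1
  rw [Preadditive.comp_neg, Preadditive.neg_comp, ← neg_add]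
  have h3 : Q.complex.d (n + 1) n ≫ h.hom n (n + 1) +
      h.hom (n + 1) (n + 1 + 1) ≫ Q.complex.d (n + 2) (n + 1) = - 𝟙 _ :=
    eq_neg_of_add_eq_zero_left h1.symm
  rw [h3, neg_neg]

end Pool.Agent.TH19.Cd
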