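import Mathlib

set_option autoImplicit false

/-!
# Comparison of the support functions of two finite sets
-/

namespace Pool.Agent.TH19.Comb

open Filter Topology

/-- A continuous function on the unit interval which is locally midpoint convex satisfies the
midpoint inequality. -/
theorem mid_of_local (G : ℝ → ℝ) (hG : Continuous G)
    (h : ∀ t : ℝ, 0 < t → t < 1 → ∀ᶠ s in 𝓝[>] (0 : ℝ), 2 * G t ≤ G (t + s) + G (t - s)) :
    2 * G (1 / 2) ≤ G 0 + G 1 := by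
  by_contra hc
  push Not at hc
  set H : ℝ → ℝ := fun t => G t - ((1 - t) * G 0 + t * G 1) with hH
  have hHc : Continuous H := by
    rw [hH]
    fun_prop
  have h0 : H 0 = 0 := by simp [hH]
  have h1 : H 1 = 0 := by simp [hH]
  have hhalf : 0 < H (1 / 2) := by
    simp only [hH]
    linarith
  have hloc : ∀ t : ℝ, 0 < t → t < 1 → ∀ᶠ s in 𝓝[>] (0 : ℝ), 2 * H t ≤ H (t + s) + H (t - s) := by
    intro t ht0 ht1
    filter_upwards [h t ht0 ht1] with s hs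
    simp only [hH]
    linarith
  obtain ⟨t1, ht1, hmax⟩ := isCompact_Icc.exists_isMaxOn (s := Set.Icc (0 : ℝ) 1)
    ⟨0, by simp⟩ hHc.continuousOn
  have hmpos : 0 < H t1 := lt_of_lt_of_le hhalf (hmax (by norm_num : (1 / 2 : ℝ) ∈ Set.Icc (0 : ℝ) 1))
  have hZ : IsCompact (Set.Icc (0 : ℝ) 1 ∩ {t | H t = H t1}) :=
    isCompact_Icc.inter_right (isClosed_eq hHc continuous_const)
  obtain ⟨t0, ht0, hleast⟩ := hZ.exists_isLeast ⟨t1, ht1, rfl⟩
  have ht0' : H t0 = H t1 := ht0.2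
  have hpos : 0 < t0 := by
    rcases lt_or_eq_of_le ht0.1.1 with h2 | h2
    · exact h2
    · rw [← h2, h0] at ht0'
      exact absurd ht0' hmpos.ne
  have hlt : t0 < 1 := by
    rcases lt_or_eq_of_le ht0.1.2 with h2 | h2
    · exact h2
    · rw [h2, h1] at ht0'
      exact absurd ht0' hmpos.ne
  have hev := hloc t0 hpos hlt
  have hsmall : ∀ᶠ s in 𝓝[>] (0 : ℝ), s < min t0 (1 - t0) :=
    nhdsWithin_le_nhds (Iio_mem_nhds (lt_min hpos (by linarith)))
  have hpos' : ∀ᶠ s in 𝓝[>] (0 : ℝ), 0 < s := self_mem_nhdsWithin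
  obtain ⟨s, hs1, hs2, hs3⟩ := (hev.and (hsmall.and hpos')).exists
  have h2 : s < t0 := lt_of_lt_of_le hs2 (min_le_left _ _)
  have h3 : s < 1 - t0 := lt_of_lt_of_le hs2 (min_le_right _ _)
  have m1 : H (t0 + s) ≤ H t1 := hmax ⟨by linarith, by linarith⟩
  have m2 : H (t0 - s) ≤ H t1 := hmax ⟨by linarith, by linarith⟩
  have m3 : H (t0 - s) = H t1 := by
    rw [ht0'] at hs1
    linarith
  have m4 := hleast ⟨⟨by linarith, by linarith⟩, m3⟩
  linarith

variable {ι : Type}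

/-- the interpolation between two functions -/
noncomputable def ip (φ ψ : ι → ℤ) (t : ℝ) (g : ι) : ℝ := (1 - t) * φ g + t * ψ g

theorem ip_add (φ ψ : ι → ℤ) (t s : ℝ) (g : ι) :
    ip φ ψ (t + s) g = ip φ ψ t g + s * ((ψ g : ℝ) - φ g) := by
  unfold ip
  ring

theorem ip_sub (φ ψ : ι → ℤ) (t s : ℝ) (g : ι) :
    ip φ ψ (t - s) g = ip φ ψ t g - s * ((ψ g : ℝ) - φ g) := by
  unfold ip
  ring

/-- The local inequality. -/
theorem local_ineq (A B : Finset ι) (hA : A.Nonempty) (hB : B.Nonempty) (φ ψ : ι → ℤ) (t : ℝ)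
    (H : ∀ g₁ ∈ A, ∀ g₂ ∈ A, (∀ g ∈ A, ip φ ψ t g ≤ ip φ ψ t g₁) →
      (∀ g ∈ A, ip φ ψ t g ≤ ip φ ψ t g₂) → ∃ h₁ ∈ B, ∃ h₂ ∈ B,
      (∀ h ∈ B, ip φ ψ t h ≤ ip φ ψ t h₁) ∧ (∀ h ∈ B, ip φ ψ t h ≤ ip φ ψ t h₂) ∧
      (ψ g₁ - φ g₁) - (ψ g₂ - φ g₂) ≤ (ψ h₁ - φ h₁) - (ψ h₂ - φ h₂)) :
    ∀ᶠ s in 𝓝[>] (0 : ℝ),
      2 * (B.sup' hB (ip φ ψ t) - A.sup' hA (ip φ ψ t)) ≤
        (B.sup' hB (ip φ ψ (t + s)) - A.sup' hA (ip φ ψ (t + s))) +
        (B.sup' hB (ip φ ψ (t - s)) - A.sup' hA (ip φ ψ (t - s))) := by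
  classical
  -- the face of `A`
  obtain ⟨g0, hg0, hg0m⟩ := A.exists_max_image (ip φ ψ t) hA
  set F := A.filter fun g => ip φ ψ t g = ip φ ψ t g0 with hF
  have hFne : F.Nonempty := ⟨g0, by rw [hF, Finset.mem_filter]; exact ⟨hg0, rfl⟩⟩
  obtain ⟨g₁, hg₁, hg₁m⟩ := F.exists_max_image (fun g => ψ g - φ g) hFne
  obtain ⟨g₂, hg₂, hg₂m⟩ := F.exists_min_image (fun g => ψ g - φ g) hFne
  rw [hF, Finset.mem_filter] at hg₁ hg₂
  obtain ⟨h₁, hh₁, h₂, hh₂, m1, m2, hle⟩ := H g₁ hg₁.1 g₂ hg₂.1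
    (fun g hg => by rw [hg₁.2]; exact hg0m g hg) (fun g hg => by rw [hg₂.2]; exact hg0m g hg)
  have hAt : A.sup' hA (ip φ ψ t) = ip φ ψ t g0 :=
    le_antisymm (Finset.sup'_le _ _ hg0m) (Finset.le_sup' (ip φ ψ t) hg0)
  have hBt1 : B.sup' hB (ip φ ψ t) = ip φ ψ t h₁ :=
    le_antisymm (Finset.sup'_le _ _ m1) (Finset.le_sup' (ip φ ψ t) hh₁)
  have hBt2 : B.sup' hB (ip φ ψ t) = ip φ ψ t h₂ :=
    le_antisymm (Finset.sup'_le _ _ m2) (Finset.le_sup' (ip φ ψ t) hh₂)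
  -- upper bounds for `A`
  have up1 : ∀ᶠ s in 𝓝[>] (0 : ℝ), ∀ g ∈ A, ip φ ψ (t + s) g ≤
      ip φ ψ t g0 + s * ((ψ g₁ : ℝ) - φ g₁) := by
    rw [Filter.eventually_all_finset]
    intro g hg
    rcases eq_or_lt_of_le (hg0m g hg) with he | hlt
    · have hpos' : ∀ᶠ s in 𝓝[>] (0 : ℝ), 0 < s := self_mem_nhdsWithin
      filter_upwards [hpos'] with s hs
      rw [ip_add, he]
      have h3 := hg₁m g (by rw [hF, Finset.mem_filter]; exact ⟨hg, he⟩)
      have h4 : ((ψ g : ℝ) - φ g) ≤ (ψ g₁ : ℝ) - φ g₁ := by exact_mod_cast h3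
      have := mul_le_mul_of_nonneg_left h4 hs.le
      linarith
    · refine nhdsWithin_le_nhds ?_
      have hc1 : Continuous fun s : ℝ => ip φ ψ (t + s) g := by
        unfold ip
        fun_prop
      have hc2 : Continuous fun s : ℝ => ip φ ψ t g0 + s * ((ψ g₁ : ℝ) - φ g₁) := by fun_prop
      have := hc1.continuousAt.eventually_lt (x₀ := (0 : ℝ)) hc2.continuousAt (by simpa using hlt)
      filter_upwards [this] with s hs
      exact hs.le
  have up2 : ∀ᶠ s in 𝓝[>] (0 : ℝ), ∀ g ∈ A, ip φ ψ (t - s) g ≤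
      ip φ ψ t g0 - s * ((ψ g₂ : ℝ) - φ g₂) := by
    rw [Filter.eventually_all_finset]
    intro g hg
    rcases eq_or_lt_of_le (hg0m g hg) with he | hlt
    · have hpos' : ∀ᶠ s in 𝓝[>] (0 : ℝ), 0 < s := self_mem_nhdsWithin
      filter_upwards [hpos'] with s hs
      rw [ip_sub, he]
      have h3 := hg₂m g (by rw [hF, Finset.mem_filter]; exact ⟨hg, he⟩)
      have h4 : ((ψ g₂ : ℝ) - φ g₂) ≤ (ψ g : ℝ) - φ g := by exact_mod_cast h3
      have := mul_le_mul_of_nonneg_left h4 hs.le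
      linarith
    · refine nhdsWithin_le_nhds ?_
      have hc1 : Continuous fun s : ℝ => ip φ ψ (t - s) g := by
        unfold ip
        fun_prop
      have hc2 : Continuous fun s : ℝ => ip φ ψ t g0 - s * ((ψ g₂ : ℝ) - φ g₂) := by fun_prop
      have := hc1.continuousAt.eventually_lt (x₀ := (0 : ℝ)) hc2.continuousAt (by simpa using hlt)
      filter_upwards [this] with s hs
      exact hs.le
  have hpos' : ∀ᶠ s in 𝓝[>] (0 : ℝ), 0 < s := self_mem_nhdsWithin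
  filter_upwards [up1, up2, hpos'] with s hs1 hs2 hs
  have a1 : A.sup' hA (ip φ ψ (t + s)) ≤ ip φ ψ t g0 + s * ((ψ g₁ : ℝ) - φ g₁) :=
    Finset.sup'_le _ _ hs1
  have a2 : A.sup' hA (ip φ ψ (t - s)) ≤ ip φ ψ t g0 - s * ((ψ g₂ : ℝ) - φ g₂) :=
    Finset.sup'_le _ _ hs2
  have b1 : ip φ ψ (t + s) h₁ ≤ B.sup' hB (ip φ ψ (t + s)) := Finset.le_sup' _ hh₁
  have b2 : ip φ ψ (t - s) h₂ ≤ B.sup' hB (ip φ ψ (t - s)) := Finset.le_sup' _ hh₂
  rw [ip_add, ← hBt1] at b1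
  rw [ip_sub, ← hBt2] at b2
  rw [hAt]
  have h5 : ((ψ g₁ : ℝ) - φ g₁) - (ψ g₂ - φ g₂) ≤ (ψ h₁ - φ h₁) - (ψ h₂ - φ h₂) := by
    exact_mod_cast hle
  have := mul_le_mul_of_nonneg_left h5 hs.le
  nlinarith

theorem cast_sup' (A : Finset ι) (hA : A.Nonempty) (f : ι → ℤ) :
    ((A.sup' hA f : ℤ) : ℝ) = A.sup' hA (fun g => (f g : ℝ)) := by
  apply le_antisymm
  · obtain ⟨g, hg, he⟩ := Finset.exists_mem_eq_sup' hA f
    rw [he]
    exact Finset.le_sup' (fun g => (f g : ℝ)) hg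
  · refine Finset.sup'_le _ _ fun g hg => ?_
    have := Finset.le_sup' f hg
    exact_mod_cast this

/-- Subadditivity of the difference of the support functions. -/
theorem comb (A B : Finset ι) (hA : A.Nonempty) (hB : B.Nonempty) (φ ψ : ι → ℤ)
    (H : ∀ a b : ℕ, 0 < a → 0 < b → ∀ g₁ ∈ A, ∀ g₂ ∈ A,
      (∀ g ∈ A, a * φ g + b * ψ g ≤ a * φ g₁ + b * ψ g₁) →
      (∀ g ∈ A, a * φ g + b * ψ g ≤ a * φ g₂ + b * ψ g₂) → ∃ h₁ ∈ B, ∃ h₂ ∈ B,
      (∀ h ∈ B, a * φ h + b * ψ h ≤ a * φ h₁ + b * ψ h₁) ∧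
      (∀ h ∈ B, a * φ h + b * ψ h ≤ a * φ h₂ + b * ψ h₂) ∧
      (ψ g₁ - φ g₁) - (ψ g₂ - φ g₂) ≤ (ψ h₁ - φ h₁) - (ψ h₂ - φ h₂)) :
    B.sup' hB (fun g => φ g + ψ g) - A.sup' hA (fun g => φ g + ψ g) ≤
      (B.sup' hB φ - A.sup' hA φ) + (B.sup' hB ψ - A.sup' hA ψ) := by
  have hcont : ∀ (A : Finset ι) (hA : A.Nonempty), Continuous fun t : ℝ => A.sup' hA (ip φ ψ t) := by
    intro A hA
    refine Continuous.finset_sup'_apply hA fun g _ => ?_
    unfold ip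
    fun_prop
  have key := mid_of_local (fun t => B.sup' hB (ip φ ψ t) - A.sup' hA (ip φ ψ t))
    ((hcont B hB).sub (hcont A hA)) (by
      intro t ht0 ht1
      refine local_ineq A B hA hB φ ψ t ?_
      intro g₁ hg₁ g₂ hg₂ m1 m2
      by_cases hq : ∃ q : ℚ, (q : ℝ) = t
      · obtain ⟨q, rfl⟩ := hq
        have hq0 : 0 < q := by exact_mod_cast ht0
        have hq1 : q < 1 := by exact_mod_cast ht1
        have hnum : 0 < q.num := Rat.num_pos.2 hq0
        have hden : (0 : ℤ) < q.den := by exact_mod_cast q.den_pos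
        have hlt : q.num < q.den := by
          have h3 : (q : ℚ) * q.den = q.num := Rat.mul_den_eq_num q
          have h4 : (0 : ℚ) < q.den := by exact_mod_cast q.den_pos
          have h5 : (q.num : ℚ) < q.den := by
            rw [← h3]
            nlinarith
          exact_mod_cast h5
        have hip : ∀ g, ip φ ψ (q : ℝ) g * q.den =
            ((((q.den : ℤ) - q.num).toNat * φ g + q.num.toNat * ψ g : ℤ) : ℝ) := by
          intro g
          have e1 : ((((q.den : ℤ) - q.num).toNat : ℤ) : ℝ) = (q.den : ℝ) - q.num := by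
            rw [Int.toNat_of_nonneg (by omega)]
            push_cast
            rfl
          have e2 : (((q.num.toNat : ℕ) : ℤ) : ℝ) = q.num := by
            rw [Int.toNat_of_nonneg (by omega)]
          have e3 : (q : ℝ) * q.den = q.num := by
            exact_mod_cast Rat.mul_den_eq_num q
          rw [Int.cast_add, Int.cast_mul, Int.cast_mul, e1, e2]
          unfold ip
          rw [← e3]
          ring
        have hdenR : (0 : ℝ) < q.den := by exact_mod_cast hden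
        have hiff : ∀ g h, ip φ ψ (q : ℝ) g ≤ ip φ ψ (q : ℝ) h ↔
            (((q.den : ℤ) - q.num).toNat * φ g + q.num.toNat * ψ g : ℤ) ≤
            ((q.den : ℤ) - q.num).toNat * φ h + q.num.toNat * ψ h := by
          intro g h
          rw [← mul_le_mul_iff_left₀ hdenR, hip, hip, Int.cast_le]
        simp only [hiff] at m1 m2 ⊢
        exact H _ _ (by omega) (by omega) g₁ hg₁ g₂ hg₂ m1 m2
      · obtain ⟨h0, hh0, hh0m⟩ := B.exists_max_image (ip φ ψ t) hB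
        refine ⟨h0, hh0, h0, hh0, hh0m, hh0m, ?_⟩
        rw [sub_self]
        by_contra hc
        push Not at hc
        have he : ip φ ψ t g₁ = ip φ ψ t g₂ := le_antisymm (m2 g₁ hg₁) (m1 g₂ hg₂)
        have hne : (((ψ g₁ - φ g₁) - (ψ g₂ - φ g₂) : ℤ) : ℝ) ≠ 0 := by
          exact_mod_cast hc.ne'
        apply hq
        refine ⟨((φ g₂ - φ g₁ : ℤ) : ℚ) / (((ψ g₁ - φ g₁) - (ψ g₂ - φ g₂) : ℤ) : ℚ), ?_⟩
        rw [Rat.cast_div, Rat.cast_intCast, Rat.cast_intCast, div_eq_iff hne]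
        unfold ip at he
        push_cast
        linarith)
  have e1 : ∀ (A : Finset ι) (hA : A.Nonempty), A.sup' hA (ip φ ψ 0) = ((A.sup' hA φ : ℤ) : ℝ) := by
    intro A hA
    rw [cast_sup']
    refine Finset.sup'_congr hA rfl fun g _ => ?_
    unfold ip
    ring
  have e2 : ∀ (A : Finset ι) (hA : A.Nonempty), A.sup' hA (ip φ ψ 1) = ((A.sup' hA ψ : ℤ) : ℝ) := by
    intro A hA
    rw [cast_sup']
    refine Finset.sup'_congr hA rfl fun g _ => ?_
    unfold ip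
    ring
  have e3 : ∀ (A : Finset ι) (hA : A.Nonempty), 2 * A.sup' hA (ip φ ψ (1 / 2)) =
      ((A.sup' hA (fun g => φ g + ψ g) : ℤ) : ℝ) := by
    intro A hA
    rw [cast_sup', Finset.mul₀_sup' (by norm_num : (0 : ℝ) ≤ 2)]
    refine Finset.sup'_congr hA rfl fun g _ => ?_
    unfold ip
    push_cast
    ring
  simp only [e1, e2] at key
  rw [mul_sub, e3, e3] at key
  have key' : ((B.sup' hB (fun g => φ g + ψ g) - A.sup' hA (fun g => φ g + ψ g) : ℤ) : ℝ) ≤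
      ((B.sup' hB φ - A.sup' hA φ) + (B.sup' hB ψ - A.sup' hA ψ) : ℤ) := by
    push_cast
    linarith
  exact_mod_cast key'

end Pool.Agent.TH19.Comb
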