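import Mathlib

set_option autoImplicit false

/-!
# The weight of an invertible matrix over a division ring

For a homomorphism `w` from the multiplicative group of a division ring `D` to `ℤ` we construct the
composition of `w` with the Dieudonne determinant.
-/

namespace Pool.Agent.TH19.Det

open Matrix

section elem

variable {D : Type} [DivisionRing D] {n : ℕ}

/-- elementary matrix -/
def tv {ι : Type} [DecidableEq ι] (i j : ι) (c : D) : Matrix ι ι D := 1 + Matrix.single i j c

/-- diagonal matrix with one entry changed -/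
def dg {ι : Type} [DecidableEq ι] (i : ι) (c : D) : Matrix ι ι D :=
  Matrix.diagonal (Function.update (fun _ => (1 : D)) i c)

theorem tv_mul_apply {ι : Type} [DecidableEq ι] [Fintype ι] {κ : Type} (i j : ι) (c : D)
    (A : Matrix ι κ D) (k : ι) (l : κ) :
    (tv i j c * A) k l = A k l + (if k = i then c * A j l else 0) := by
  unfold tv
  rw [Matrix.add_mul, Matrix.one_mul, Matrix.add_apply, Matrix.mul_apply]
  congr 1
  by_cases hk : k = i
  · subst hk
    rw [if_pos rfl, Finset.sum_eq_single j]
    · rw [Matrix.single_apply_same]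
    · intro b _ hb
      rw [Matrix.single_apply_of_ne, zero_mul]
      exact fun h => hb h.2.symm
    · intro h
      exact absurd (Finset.mem_univ _) h
  · rw [if_neg hk]
    refine Finset.sum_eq_zero fun b _ => ?_
    rw [Matrix.single_apply_of_ne, zero_mul]
    exact fun h => hk h.1.symm

theorem dg_mul_apply {ι : Type} [DecidableEq ι] [Fintype ι] {κ : Type} (i : ι) (c : D)
    (A : Matrix ι κ D) (k : ι) (l : κ) :
    (dg i c * A) k l = (if k = i then c * A k l else A k l) := by
  unfold dg
  rw [Matrix.diagonal_mul]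
  by_cases hk : k = i
  · subst hk
    rw [Function.update_self, if_pos rfl]
  · rw [Function.update_of_ne hk, if_neg hk, one_mul]

theorem vecMul_tv {ι : Type} [DecidableEq ι] [Fintype ι] (i j : ι) (c : D) (v : ι → D) (k : ι) :
    Matrix.vecMul v (tv i j c) k = v k + (if k = j then v i * c else 0) := by
  unfold tv
  rw [Matrix.vecMul_add, Matrix.vecMul_one, Pi.add_apply]
  congr 1
  simp only [Matrix.vecMul, dotProduct]
  by_cases hk : k = j
  · subst hk
    rw [if_pos rfl, Finset.sum_eq_single i]
    · rw [Matrix.single_apply_same]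
    · intro b _ hb
      rw [Matrix.single_apply_of_ne, mul_zero]
      exact fun h => hb h.1.symm
    · intro h
      exact absurd (Finset.mem_univ _) h
  · rw [if_neg hk]
    refine Finset.sum_eq_zero fun b _ => ?_
    rw [Matrix.single_apply_of_ne, mul_zero]
    exact fun h => hk h.2.symm

theorem vecMul_dg {ι : Type} [DecidableEq ι] [Fintype ι] (i : ι) (c : D) (v : ι → D) (k : ι) :
    Matrix.vecMul v (dg i c) k = if k = i then v k * c else v k := by
  unfold dg
  rw [Matrix.vecMul_diagonal]
  by_cases hk : k = i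
  · subst hk
    rw [Function.update_self, if_pos rfl]
  · rw [Function.update_of_ne hk, if_neg hk, mul_one]

theorem tv_mul_tv {ι : Type} [DecidableEq ι] [Fintype ι] {i j : ι} (hij : i ≠ j) (c d : D) :
    tv i j c * tv i j d = tv i j (c + d) := by
  ext k l
  rw [tv_mul_apply]
  unfold tv
  rw [Matrix.add_apply, Matrix.add_apply, Matrix.add_apply, Matrix.single_apply_of_ne (i := i) (j := j)
    (i' := j) (j' := l) (h := fun h => hij h.1), add_zero, Matrix.single_add, Matrix.add_apply]
  by_cases hk : k = i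
  · subst hk
    rw [if_pos rfl]
    by_cases hl : l = j
    · subst hl
      rw [Matrix.single_apply_same, Matrix.single_apply_same, Matrix.one_apply_eq,
        Matrix.one_apply_ne hij]
      simp only [mul_one, zero_add]
      exact add_comm _ _
    · rw [Matrix.single_apply_of_ne (h := fun h => hl h.2.symm),
        Matrix.single_apply_of_ne (h := fun h => hl h.2.symm), Matrix.one_apply_ne (Ne.symm hl)]
      simp
  · rw [if_neg hk, Matrix.single_apply_of_ne (h := fun h => hk h.1.symm),
      Matrix.single_apply_of_ne (h := fun h => hk h.1.symm)]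
    simp

theorem tv_zero {ι : Type} [DecidableEq ι] (i j : ι) : tv i j (0 : D) = 1 := by
  unfold tv
  simp

theorem isUnit_tv {ι : Type} [DecidableEq ι] [Fintype ι] {i j : ι} (hij : i ≠ j) (c : D) :
    IsUnit (tv i j c) :=
  ⟨⟨tv i j c, tv i j (-c), by rw [tv_mul_tv hij, add_neg_cancel, tv_zero],
    by rw [tv_mul_tv hij, neg_add_cancel, tv_zero]⟩, rfl⟩

theorem dg_mul_dg {ι : Type} [DecidableEq ι] [Fintype ι] (i : ι) (c d : D) :
    dg i c * dg i d = dg i (c * d) := by
  unfold dg
  rw [Matrix.diagonal_mul_diagonal]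
  congr 1
  funext k
  by_cases hk : k = i
  · subst hk
    simp only [Function.update_self]
  · simp only [Function.update_of_ne hk, mul_one]

theorem dg_one {ι : Type} [DecidableEq ι] (i : ι) : dg i (1 : D) = 1 := by
  unfold dg
  rw [Function.update_eq_self_iff.2 rfl]
  exact Matrix.diagonal_one

theorem isUnit_dg {ι : Type} [DecidableEq ι] [Fintype ι] (i : ι) {c : D} (hc : c ≠ 0) :
    IsUnit (dg i c) :=
  ⟨⟨dg i c, dg i c⁻¹, by rw [dg_mul_dg, mul_inv_cancel₀ hc, dg_one],
    by rw [dg_mul_dg, inv_mul_cancel₀ hc, dg_one]⟩, rfl⟩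

theorem vecMul_inj {ι : Type} [Fintype ι] [DecidableEq ι] {A : Matrix ι ι D} (hA : IsUnit A)
    {v : ι → D} (h : Matrix.vecMul v A = 0) : v = 0 := by
  obtain ⟨⟨A, B, hAB, hBA⟩, rfl⟩ := hA
  have h1 : Matrix.vecMul (Matrix.vecMul v A) B = v := by
    rw [Matrix.vecMul_vecMul, hAB, Matrix.vecMul_one]
  rw [← h1]
  show Matrix.vecMul (Matrix.vecMul v A) B = 0
  have h2 : Matrix.vecMul v A = 0 := h
  rw [h2, Matrix.zero_vecMul]

theorem mulVec_inj {ι : Type} [Fintype ι] [DecidableEq ι] {A : Matrix ι ι D} (hA : IsUnit A)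
    {v : ι → D} (h : Matrix.mulVec A v = 0) : v = 0 := by
  obtain ⟨⟨A, B, hAB, hBA⟩, rfl⟩ := hA
  have h1 : Matrix.mulVec B (Matrix.mulVec A v) = v := by
    rw [Matrix.mulVec_mulVec, hBA, Matrix.one_mulVec]
  rw [← h1]
  have h2 : Matrix.mulVec A v = 0 := h
  rw [h2, Matrix.mulVec_zero]

theorem isUnit_of_inj {ι : Type} [Fintype ι] [DecidableEq ι] {A : Matrix ι ι D}
    (h : ∀ v, Matrix.vecMul v A = 0 → v = 0) : IsUnit A := by
  let f : (ι → D) →ₗ[D] (ι → D) :=
    { toFun := fun v => Matrix.vecMul v A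
      map_add' := fun v w => Matrix.add_vecMul A v w
      map_smul' := fun c v => Matrix.smul_vecMul c v A }
  have hf : Function.Injective f := (injective_iff_map_eq_zero f).2 fun v hv => h v hv
  have hs : Function.Surjective f := LinearMap.injective_iff_surjective.1 hf
  choose B hB using fun i : ι => hs (Pi.single i 1)
  have h1 : (Matrix.of B) * A = 1 := by
    refine Matrix.ext fun i j => ?_
    have h2 := congrFun (hB i) j
    have h3 : ((Matrix.of B) * A) i j = Matrix.vecMul (B i) A j := rfl
    rw [h3]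
    refine h2.trans ?_
    rw [Matrix.one_apply, Pi.single_apply]
    by_cases hij : i = j
    · subst hij; simp
    · rw [if_neg hij, if_neg (Ne.symm hij)]
  refine ⟨⟨A, Matrix.of B, ?_, h1⟩, rfl⟩
  refine Matrix.ext fun i j => ?_
  have h2 : Matrix.vecMul ((A * Matrix.of B - 1) i) A = 0 := by
    have h3 : (A * Matrix.of B - 1) * A = 0 := by
      rw [Matrix.sub_mul, Matrix.mul_assoc, h1, Matrix.mul_one, Matrix.one_mul, sub_self]
    exact congrFun h3 i
  have h3 := congrFun (h _ h2) j
  rw [Matrix.sub_apply, Pi.zero_apply, sub_eq_zero] at h3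
  exact h3

/-- the matrix with row `i` and column `0` removed -/
def mn (A : Matrix (Fin (n + 1)) (Fin (n + 1)) D) (i : Fin (n + 1)) : Matrix (Fin n) (Fin n) D :=
  A.submatrix i.succAbove Fin.succ

/-- the first unit row vector -/
def e0 : Fin (n + 1) → D := Pi.single 0 1

theorem e0_zero : (e0 : Fin (n + 1) → D) 0 = 1 := Pi.single_eq_same _ _

theorem e0_succ (k : Fin n) : (e0 : Fin (n + 1) → D) k.succ = 0 :=
  Pi.single_eq_of_ne (Fin.succ_ne_zero k) _

theorem isUnit_mn {A : Matrix (Fin (n + 1)) (Fin (n + 1)) D} (hA : IsUnit A)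
    {l : Fin (n + 1) → D} (hl : Matrix.vecMul l A = e0) {i : Fin (n + 1)} (hi : l i ≠ 0) :
    IsUnit (mn A i) := by
  apply isUnit_of_inj
  intro μ hμ
  let μ' : Fin (n + 1) → D := i.insertNth 0 μ
  have hμi : μ' i = 0 := Fin.insertNth_apply_same _ _ _
  have hμs : ∀ k, μ' (i.succAbove k) = μ k := fun k => Fin.insertNth_apply_succAbove _ _ _ _
  let c : D := Matrix.vecMul μ' A 0
  have h1 : Matrix.vecMul μ' A = c • (e0 : Fin (n + 1) → D) := by
    funext k
    refine Fin.cases ?_ (fun k => ?_) k
    · show c = c * e0 0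
      rw [e0_zero, mul_one]
    · show Matrix.vecMul μ' A k.succ = c * e0 k.succ
      rw [e0_succ, mul_zero]
      have h2 := congrFun hμ k
      simp only [Matrix.vecMul, dotProduct, mn, Matrix.submatrix_apply, Pi.zero_apply] at h2
      simp only [Matrix.vecMul, dotProduct]
      rw [Fin.sum_univ_succAbove _ i, hμi, zero_mul, zero_add, ← h2]
      exact Finset.sum_congr rfl fun j _ => by rw [hμs]
  have h2 : Matrix.vecMul (μ' - c • l) A = 0 := by
    rw [Matrix.sub_vecMul, Matrix.smul_vecMul, hl, h1, sub_self]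
  have h3 := vecMul_inj hA h2
  have h4 := congrFun h3 i
  have h5 : c = 0 := by
    have h4' : μ' i - c * l i = 0 := h4
    rw [hμi, zero_sub, neg_eq_zero] at h4'
    exact (mul_eq_zero.1 h4').resolve_right hi
  funext k
  have h6 := congrFun h3 (i.succAbove k)
  have h7 : μ' (i.succAbove k) - c * l (i.succAbove k) = 0 := h6
  rw [h5, zero_mul, sub_zero, hμs] at h7
  exact h7

theorem exists_row {A : Matrix (Fin (n + 1)) (Fin (n + 1)) D} (hA : IsUnit A) :
    ∃ l : Fin (n + 1) → D, Matrix.vecMul l A = e0 ∧ ∃ i, l i ≠ 0 := by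
  obtain ⟨⟨A, B, hAB, hBA⟩, rfl⟩ := hA
  refine ⟨Matrix.vecMul e0 B, ?_, ?_⟩
  · show Matrix.vecMul (Matrix.vecMul e0 B) A = e0
    rw [Matrix.vecMul_vecMul, hBA, Matrix.vecMul_one]
  · by_contra hc
    push Not at hc
    have h1 : Matrix.vecMul (e0 : Fin (n + 1) → D) B = 0 := funext hc
    have h2 : Matrix.vecMul (Matrix.vecMul e0 B) A = (e0 : Fin (n + 1) → D) := by
      rw [Matrix.vecMul_vecMul, hBA, Matrix.vecMul_one]
    rw [h1, Matrix.zero_vecMul] at h2
    have h3 := congrFun h2 0
    rw [e0_zero] at h3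
    exact zero_ne_one h3

theorem row_unique {A : Matrix (Fin (n + 1)) (Fin (n + 1)) D} (hA : IsUnit A)
    {l l' : Fin (n + 1) → D} (hl : Matrix.vecMul l A = e0) (hl' : Matrix.vecMul l' A = e0) :
    l = l' := by
  have h : Matrix.vecMul (l - l') A = 0 := by
    rw [Matrix.sub_vecMul, hl, hl', sub_self]
  exact sub_eq_zero.1 (vecMul_inj hA h)

end elem


section weight

variable {D : Type} [DivisionRing D]

/-- `w` is multiplicative on nonzero elements -/
def IsW (w : D → ℤ) : Prop := ∀ x y, x ≠ 0 → y ≠ 0 → w (x * y) = w x + w y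

variable {w : D → ℤ}

theorem IsW.one (hw : IsW w) : w 1 = 0 := by
  have h := hw 1 1 one_ne_zero one_ne_zero
  rw [mul_one] at h
  omega

theorem IsW.neg_one (hw : IsW w) : w (-1) = 0 := by
  have h := hw (-1) (-1) (neg_ne_zero.2 one_ne_zero) (neg_ne_zero.2 one_ne_zero)
  rw [neg_mul_neg, mul_one, hw.one] at h
  omega

theorem IsW.neg (hw : IsW w) {x : D} (hx : x ≠ 0) : w (-x) = w x := by
  have h := hw (-1) x (neg_ne_zero.2 one_ne_zero) hx
  rw [neg_one_mul, hw.neg_one, zero_add] at h
  exact h

theorem IsW.inv (hw : IsW w) {x : D} (hx : x ≠ 0) : w x⁻¹ = - w x := by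
  have h := hw x x⁻¹ hx (inv_ne_zero hx)
  rw [mul_inv_cancel₀ hx, hw.one] at h
  omega

open scoped Classical in
/-- The weight of a square matrix. -/
noncomputable def wt (w : D → ℤ) : ∀ n : ℕ, Matrix (Fin n) (Fin n) D → ℤ
  | 0, _ => 0
  | n + 1, A =>
    if h : ∃ p : (Fin (n + 1) → D) × Fin (n + 1), Matrix.vecMul p.1 A = e0 ∧ p.1 p.2 ≠ 0 then
      - w (h.choose.1 h.choose.2) + wt w n (mn A h.choose.2) else 0

/-- The basic rules. -/
structure Good (w : D → ℤ) {n : ℕ} (δ : Matrix (Fin n) (Fin n) D → ℤ) : Prop where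
  htv : ∀ (A : Matrix (Fin n) (Fin n) D), IsUnit A → ∀ (i j : Fin n) (c : D), i ≠ j →
    δ (tv i j c * A) = δ A
  hdg : ∀ (A : Matrix (Fin n) (Fin n) D), IsUnit A → ∀ (i : Fin n) (c : D), c ≠ 0 →
    δ (dg i c * A) = w c + δ A
  hone : δ 1 = 0

theorem swap_rows {n : ℕ} (A : Matrix (Fin n) (Fin n) D) {i j : Fin n} (hij : i ≠ j) :
    A.submatrix (Equiv.swap i j) id =
      dg j (-1) * (tv i j 1 * (tv j i (-1) * (tv i j 1 * A))) := by
  refine Matrix.ext fun k l => ?_
  rw [Matrix.submatrix_apply, dg_mul_apply]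
  simp only [tv_mul_apply, id]
  have hji : j ≠ i := Ne.symm hij
  by_cases hk : k = j
  · subst hk
    simp [hji]
  · by_cases hk2 : k = i
    · subst hk2
      simp [hij, hji]
    · rw [Equiv.swap_apply_of_ne_of_ne hk2 hk]
      simp [hk, hk2]

theorem Good.swap (hw : IsW w) {n : ℕ} {δ : Matrix (Fin n) (Fin n) D → ℤ} (h : Good w δ)
    {A : Matrix (Fin n) (Fin n) D} (hA : IsUnit A) {i j : Fin n} (hij : i ≠ j) :
    δ (A.submatrix (Equiv.swap i j) id) = δ A ∧ IsUnit (A.submatrix (Equiv.swap i j) id) := by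
  have hji : j ≠ i := Ne.symm hij
  have u1 := (isUnit_tv hij (1 : D)).mul hA
  have u2 := (isUnit_tv hji (-1 : D)).mul u1
  have u3 := (isUnit_tv hij (1 : D)).mul u2
  have hne : (-1 : D) ≠ 0 := neg_ne_zero.2 one_ne_zero
  rw [swap_rows A hij]
  refine ⟨?_, (isUnit_dg j hne).mul u3⟩
  rw [h.hdg _ u3 _ _ hne, h.htv _ u2 _ _ _ hij, h.htv _ u1 _ _ _ hji, h.htv _ hA _ _ _ hij,
    hw.neg_one, zero_add]

theorem Good.perm (hw : IsW w) {n : ℕ} {δ : Matrix (Fin n) (Fin n) D → ℤ} (h : Good w δ)
    (σ : Equiv.Perm (Fin n)) {A : Matrix (Fin n) (Fin n) D} (hA : IsUnit A) :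
    δ (A.submatrix σ id) = δ A ∧ IsUnit (A.submatrix σ id) := by
  induction σ using Equiv.Perm.swap_induction_on generalizing A with
  | one => exact ⟨rfl, hA⟩
  | swap_mul σ i j hij ih =>
    obtain ⟨h1, h2⟩ := h.swap hw hA hij
    obtain ⟨h3, h4⟩ := ih h2
    exact ⟨h3.trans h1, h4⟩

/-- adding a combination of other rows to a rescaled row -/
theorem Good.combo {n : ℕ} {δ : Matrix (Fin n) (Fin n) D → ℤ} (h : Good w δ)
    {A : Matrix (Fin n) (Fin n) D} (hA : IsUnit A) (p : Fin n) {c : D} (hc : c ≠ 0)
    (s : Finset (Fin n)) (hs : p ∉ s) (d : Fin n → D) :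
    δ (A.updateRow p (c • A p + ∑ q ∈ s, d q • A q)) = w c + δ A ∧
      IsUnit (A.updateRow p (c • A p + ∑ q ∈ s, d q • A q)) := by
  classical
  induction s using Finset.induction_on with
  | empty =>
    have h1 : A.updateRow p (c • A p + ∑ q ∈ (∅ : Finset (Fin n)), d q • A q) = dg p c * A := by
      refine Matrix.ext fun k l => ?_
      rw [dg_mul_apply, Matrix.updateRow_apply]
      by_cases hk : k = p
      · subst hk; simp
      · simp [hk]
    rw [h1]
    exact ⟨h.hdg _ hA _ _ hc, (isUnit_dg p hc).mul hA⟩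
  | insert q s hq ih =>
    have hp : p ≠ q := fun h1 => hs (h1 ▸ Finset.mem_insert_self _ _)
    obtain ⟨h1, h2⟩ := ih fun h1 => hs (Finset.mem_insert_of_mem h1)
    have h3 : A.updateRow p (c • A p + ∑ q ∈ insert q s, d q • A q) =
        tv p q (d q) * A.updateRow p (c • A p + ∑ q ∈ s, d q • A q) := by
      refine Matrix.ext fun k l => ?_
      rw [tv_mul_apply, Matrix.updateRow_apply, Matrix.updateRow_apply, Matrix.updateRow_apply,
        Finset.sum_insert hq, if_neg (Ne.symm hp)]
      by_cases hk : k = p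
      · subst hk
        simp only [if_true, Pi.add_apply, Pi.smul_apply, smul_eq_mul]
        abel
      · simp [hk]
    rw [h3]
    exact ⟨(h.htv _ h2 _ _ _ hp).trans h1, (isUnit_tv hp _).mul h2⟩

theorem mn_eq (hw : IsW w) {n : ℕ} {δ : Matrix (Fin n) (Fin n) D → ℤ} (h : Good w δ)
    {A : Matrix (Fin (n + 1)) (Fin (n + 1)) D} (hA : IsUnit A)
    {l : Fin (n + 1) → D} (hl : Matrix.vecMul l A = e0) {i j : Fin (n + 1)} (hi : l i ≠ 0)
    (hj : l j ≠ 0) : - w (l i) + δ (mn A i) = - w (l j) + δ (mn A j) := by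
  classical
  by_cases hij : i = j
  · subst hij; rfl
  have hMi := isUnit_mn hA hl hi
  have hMj := isUnit_mn hA hl hj
  obtain ⟨p, hp⟩ := Fin.exists_succAbove_eq (Ne.symm hij)
  -- the permutation
  have hex : ∀ k : Fin n, ∃ q, j.succAbove q = Equiv.swap i j (i.succAbove k) := by
    intro k
    apply Fin.exists_succAbove_eq
    intro h1
    have h2 : i.succAbove k = i := by
      have h3 : Equiv.swap i j (i.succAbove k) = Equiv.swap i j i := by
        rw [Equiv.swap_apply_left]; exact h1
      exact (Equiv.swap i j).injective h3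
    exact Fin.succAbove_ne i k h2
  choose σ hσ using hex
  have hinj : Function.Injective σ := by
    intro a b hab
    have h1 := hσ a
    rw [hab, hσ b] at h1
    exact (Fin.succAbove_right_injective ((Equiv.swap i j).injective h1)).symm
  let τ : Equiv.Perm (Fin n) := Equiv.ofBijective σ (Finite.injective_iff_bijective.1 hinj)
  have h1 : (mn A j).submatrix τ id = (mn A i).updateRow p (mn A j (σ p)) := by
    refine Matrix.ext fun k m => ?_
    rw [Matrix.submatrix_apply, Matrix.updateRow_apply]
    show mn A j (σ k) m = _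
    by_cases hk : k = p
    · subst hk; rw [if_pos rfl]
    · rw [if_neg hk]
      show A (j.succAbove (σ k)) m.succ = A (i.succAbove k) m.succ
      rw [hσ, Equiv.swap_apply_of_ne_of_ne (Fin.succAbove_ne i k)]
      intro h2
      rw [← hp] at h2
      exact hk (Fin.succAbove_right_injective h2)
  have h2 : mn A j (σ p) = (-((l i)⁻¹ * l j)) • mn A i p +
      ∑ q ∈ Finset.univ.erase p, (-((l i)⁻¹ * l (i.succAbove q))) • mn A i q := by
    funext m
    have h3 := congrFun hl m.succ
    rw [e0_succ] at h3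
    simp only [Matrix.vecMul, dotProduct] at h3
    rw [Fin.sum_univ_succAbove _ i, ← Finset.add_sum_erase _ _ (Finset.mem_univ p), hp] at h3
    have h4 : mn A j (σ p) m = A i m.succ := by
      show A (j.succAbove (σ p)) m.succ = _
      rw [hσ, hp, Equiv.swap_apply_right]
    rw [h4]
    simp only [Pi.add_apply, Finset.sum_apply, Pi.smul_apply, smul_eq_mul, mn,
      Matrix.submatrix_apply, hp, neg_mul, Finset.sum_neg_distrib, mul_assoc, ← Finset.mul_sum]
    have h5 : (l i)⁻¹ * (l i * A i m.succ + (l j * A j m.succ +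
        ∑ x ∈ Finset.univ.erase p, l (i.succAbove x) * A (i.succAbove x) m.succ)) = 0 := by
      rw [h3, mul_zero]
    rw [mul_add, mul_add, ← mul_assoc, inv_mul_cancel₀ hi, one_mul] at h5
    rw [eq_neg_of_add_eq_zero_left h5, neg_add]
  have h3 := h.perm hw τ hMj
  have hne : -((l i)⁻¹ * l j) ≠ 0 := neg_ne_zero.2 (mul_ne_zero (inv_ne_zero hi) hj)
  have h4 := (h.combo hMi p hne (Finset.univ.erase p) (Finset.notMem_erase _ _)
    (fun q => -((l i)⁻¹ * l (i.succAbove q)))).1
  rw [← h2, ← h1, h3.1, hw.neg (mul_ne_zero (inv_ne_zero hi) hj), hw _ _ (inv_ne_zero hi) hj,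
    hw.inv hi] at h4
  omega

theorem wt_spec_of (hw : IsW w) {n : ℕ} (h : Good w (wt w n))
    {A : Matrix (Fin (n + 1)) (Fin (n + 1)) D} (hA : IsUnit A)
    {l : Fin (n + 1) → D} (hl : Matrix.vecMul l A = e0) {i : Fin (n + 1)} (hi : l i ≠ 0) :
    wt w (n + 1) A = - w (l i) + wt w n (mn A i) := by
  have hex : ∃ p : (Fin (n + 1) → D) × Fin (n + 1), Matrix.vecMul p.1 A = e0 ∧ p.1 p.2 ≠ 0 :=
    ⟨(l, i), hl, hi⟩
  rw [wt, dif_pos hex]
  have h1 := hex.choose_spec
  have h2 : hex.choose.1 = l := row_unique hA h1.1 hl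
  have h3 : l hex.choose.2 ≠ 0 := by
    have := h1.2
    rwa [h2] at this
  rw [h2]
  exact mn_eq hw h hA hl h3 hi

theorem good_wt (hw : IsW w) (n : ℕ) : Good w (wt w n) := by
  induction n with
  | zero =>
    exact ⟨fun _ _ i => i.elim0, fun _ _ i => i.elim0, rfl⟩
  | succ n ih =>
    refine ⟨?_, ?_, ?_⟩
    · intro A hA i j c hij
      obtain ⟨l, hl, k₀, hk₀⟩ := exists_row hA
      have hA' := (isUnit_tv hij c).mul hA
      let l' : Fin (n + 1) → D := Matrix.vecMul l (tv i j (-c))
      have hl' : Matrix.vecMul l' (tv i j c * A) = e0 := by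
        show Matrix.vecMul (Matrix.vecMul l (tv i j (-c))) (tv i j c * A) = e0
        rw [Matrix.vecMul_vecMul, ← Matrix.mul_assoc, tv_mul_tv hij, neg_add_cancel, tv_zero,
          Matrix.one_mul, hl]
      have hl'' : ∀ k, l' k = l k + (if k = j then l i * (-c) else 0) := fun k => vecMul_tv _ _ _ _ _
      by_cases hex : ∃ k, k ≠ j ∧ l k ≠ 0
      · obtain ⟨k, hkj, hk⟩ := hex
        have hk' : l' k = l k := by rw [hl'', if_neg hkj, add_zero]
        rw [wt_spec_of hw ih hA' hl' (i := k) (by rw [hk']; exact hk), hk',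
          wt_spec_of hw ih hA hl hk]
        congr 1
        by_cases hki : k = i
        · subst hki
          congr 1
          refine Matrix.ext fun a b => ?_
          show (tv k j c * A) (k.succAbove a) b.succ = A (k.succAbove a) b.succ
          rw [tv_mul_apply, if_neg (Fin.succAbove_ne k a), add_zero]
        · obtain ⟨p, hp⟩ := Fin.exists_succAbove_eq (Ne.symm hki)
          obtain ⟨q, hq⟩ := Fin.exists_succAbove_eq (Ne.symm hkj)
          have hpq : p ≠ q := by
            rintro rfl
            exact hij (hp.symm.trans hq)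
          have h1 : mn (tv i j c * A) k = tv p q c * mn A k := by
            refine Matrix.ext fun a b => ?_
            show (tv i j c * A) (k.succAbove a) b.succ = _
            rw [tv_mul_apply, tv_mul_apply]
            show A (k.succAbove a) b.succ + _ = A (k.succAbove a) b.succ +
              (if a = p then c * A (k.succAbove q) b.succ else 0)
            rw [hq]
            by_cases hap : a = p
            · subst hap
              rw [if_pos hp, if_pos rfl]
            · rw [if_neg hap, if_neg]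
              intro h2
              rw [← hp] at h2
              exact hap (Fin.succAbove_right_injective h2)
          rw [h1]
          exact ih.htv _ (isUnit_mn hA hl hk) _ _ _ hpq
      · push Not at hex
        have hj : l j ≠ 0 := by
          by_cases hkj : k₀ = j
          · rwa [← hkj]
          · exact absurd (hex k₀ hkj) hk₀
        have hj' : l' j = l j := by
          rw [hl'', if_pos rfl, hex i hij, zero_mul, add_zero]
        rw [wt_spec_of hw ih hA' hl' (i := j) (by rw [hj']; exact hj), hj',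
          wt_spec_of hw ih hA hl hj]
        congr 2
        refine Matrix.ext fun a b => ?_
        show (tv i j c * A) (j.succAbove a) b.succ = A (j.succAbove a) b.succ
        rw [tv_mul_apply]
        have h3 := congrFun hl b.succ
        rw [e0_succ] at h3
        simp only [Matrix.vecMul, dotProduct] at h3
        rw [Finset.sum_eq_single j (fun x _ hx => by rw [hex x hx, zero_mul])
          (fun h => absurd (Finset.mem_univ _) h)] at h3
        rw [(mul_eq_zero.1 h3).resolve_left hj, mul_zero]
        simp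
    · intro A hA i c hc
      obtain ⟨l, hl, k, hk⟩ := exists_row hA
      have hA' := (isUnit_dg i hc).mul hA
      let l' : Fin (n + 1) → D := Matrix.vecMul l (dg i c⁻¹)
      have hl' : Matrix.vecMul l' (dg i c * A) = e0 := by
        show Matrix.vecMul (Matrix.vecMul l (dg i c⁻¹)) (dg i c * A) = e0
        rw [Matrix.vecMul_vecMul, ← Matrix.mul_assoc, dg_mul_dg, inv_mul_cancel₀ hc, dg_one,
          Matrix.one_mul, hl]
      have hl'' : ∀ k, l' k = if k = i then l k * c⁻¹ else l k := fun k => vecMul_dg _ _ _ _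
      have hk' : l' k ≠ 0 := by
        rw [hl'']
        split_ifs
        · exact mul_ne_zero hk (inv_ne_zero hc)
        · exact hk
      rw [wt_spec_of hw ih hA' hl' hk', wt_spec_of hw ih hA hl hk]
      by_cases hki : k = i
      · subst hki
        rw [hl'', if_pos rfl, hw _ _ hk (inv_ne_zero hc), hw.inv hc]
        have h1 : mn (dg k c * A) k = mn A k := by
          refine Matrix.ext fun a b => ?_
          show (dg k c * A) (k.succAbove a) b.succ = A (k.succAbove a) b.succ
          rw [dg_mul_apply, if_neg (Fin.succAbove_ne k a)]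
        rw [h1]
        ring
      · rw [hl'', if_neg hki]
        obtain ⟨p, hp⟩ := Fin.exists_succAbove_eq (Ne.symm hki)
        have h1 : mn (dg i c * A) k = dg p c * mn A k := by
          refine Matrix.ext fun a b => ?_
          show (dg i c * A) (k.succAbove a) b.succ = _
          rw [dg_mul_apply, dg_mul_apply]
          show _ = if a = p then c * A (k.succAbove a) b.succ else A (k.succAbove a) b.succ
          by_cases hap : a = p
          · subst hap
            rw [if_pos hp, if_pos rfl]
          · rw [if_neg hap, if_neg]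
            intro h2
            rw [← hp] at h2
            exact hap (Fin.succAbove_right_injective h2)
        rw [h1, ih.hdg _ (isUnit_mn hA hl hk) _ _ hc]
        ring
    · have hl : Matrix.vecMul (e0 : Fin (n + 1) → D) 1 = e0 := Matrix.vecMul_one _
      rw [wt_spec_of hw ih isUnit_one hl (i := 0) (by rw [e0_zero]; exact one_ne_zero), e0_zero,
        hw.one]
      have h1 : mn (1 : Matrix (Fin (n + 1)) (Fin (n + 1)) D) 0 = 1 := by
        refine Matrix.ext fun a b => ?_
        show (1 : Matrix (Fin (n + 1)) (Fin (n + 1)) D) ((0 : Fin (n + 1)).succAbove a) b.succ = _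
        rw [Fin.succAbove_zero, Matrix.one_apply, Matrix.one_apply]
        simp [Fin.succ_inj]
      rw [h1, ih.hone]
      simp

/-- The recursion formula for the weight. -/
theorem wt_spec (hw : IsW w) {n : ℕ}
    {A : Matrix (Fin (n + 1)) (Fin (n + 1)) D} (hA : IsUnit A)
    {l : Fin (n + 1) → D} (hl : Matrix.vecMul l A = e0) {i : Fin (n + 1)} (hi : l i ≠ 0) :
    wt w (n + 1) A = - w (l i) + wt w n (mn A i) := wt_spec_of hw (good_wt hw n) hA hl hi

end weight

end Pool.Agent.TH19.Det
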