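import Pool.Agent.TH19.Det

set_option autoImplicit false

/-!
# Multiplicativity of the weight
-/

namespace Pool.Agent.TH19.Det

open Matrix

section elim

variable {D : Type} [DivisionRing D] {n : ℕ}

/-- products of elementary matrices and diagonal matrices -/
def Gr (D : Type) [DivisionRing D] (n : ℕ) : Submonoid (Matrix (Fin n) (Fin n) D) :=
  Submonoid.closure ({E | ∃ (i j : Fin n) (c : D), i ≠ j ∧ E = tv i j c} ∪
    {E | ∃ (i : Fin n) (c : D), c ≠ 0 ∧ E = dg i c})

/-- products of elementary matrices -/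
def El (D : Type) [DivisionRing D] (n : ℕ) : Submonoid (Matrix (Fin n) (Fin n) D) :=
  Submonoid.closure {E | ∃ (i j : Fin n) (c : D), i ≠ j ∧ E = tv i j c}

theorem tv_mem_Gr {i j : Fin n} (hij : i ≠ j) (c : D) : tv i j c ∈ Gr D n :=
  Submonoid.subset_closure (Or.inl ⟨i, j, c, hij, rfl⟩)

theorem dg_mem_Gr (i : Fin n) {c : D} (hc : c ≠ 0) : dg i c ∈ Gr D n :=
  Submonoid.subset_closure (Or.inr ⟨i, c, hc, rfl⟩)

theorem isUnit_of_mem_Gr {E : Matrix (Fin n) (Fin n) D} (hE : E ∈ Gr D n) : IsUnit E := by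
  unfold Gr at hE
  induction hE using Submonoid.closure_induction with
  | mem x hx =>
    rcases hx with ⟨i, j, c, hij, rfl⟩ | ⟨i, c, hc, rfl⟩
    · exact isUnit_tv hij c
    · exact isUnit_dg i hc
  | one => exact isUnit_one
  | mul x y _ _ hx hy => exact hx.mul hy

theorem clear_col {A : Matrix (Fin n) (Fin n) D} (k : Fin n) (hkk : A k k = 1)
    (hcol : ∀ i j : Fin n, j < k → A i j = (1 : Matrix (Fin n) (Fin n) D) i j)
    (s : Finset (Fin n)) (hs : k ∉ s) :
    ∃ E ∈ Gr D n, (∀ i j : Fin n, j < k → (E * A) i j = (1 : Matrix (Fin n) (Fin n) D) i j) ∧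
      (∀ l, (E * A) k l = A k l) ∧ (∀ i ∈ s, (E * A) i k = 0) := by
  classical
  induction s using Finset.induction_on with
  | empty =>
    refine ⟨1, one_mem _, ?_, ?_, ?_⟩
    · rw [one_mul]; exact hcol
    · intro l; rw [one_mul]
    · intro i hi; exact absurd hi (Finset.notMem_empty _)
  | insert q s hq ih =>
    have hkq : q ≠ k := fun h1 => hs (h1 ▸ Finset.mem_insert_self _ _)
    obtain ⟨E, hE, h1, h2, h3⟩ := ih fun h1 => hs (Finset.mem_insert_of_mem h1)
    refine ⟨tv q k (-(E * A) q k) * E, mul_mem (tv_mem_Gr hkq _) hE, ?_, ?_, ?_⟩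
    · intro i j hj
      rw [Matrix.mul_assoc, tv_mul_apply, h1 i j hj, h1 k j hj]
      by_cases hi : i = q
      · subst hi
        rw [if_pos rfl, Matrix.one_apply_ne (ne_of_gt hj), mul_zero, add_zero]
      · rw [if_neg hi, add_zero]
    · intro l
      rw [Matrix.mul_assoc, tv_mul_apply, if_neg (Ne.symm hkq), add_zero, h2]
    · intro i hi
      rw [Matrix.mul_assoc, tv_mul_apply, h2, hkk, mul_one]
      by_cases hiq : i = q
      · subst hiq
        rw [if_pos rfl, add_neg_cancel]
      · rw [if_neg hiq, add_zero]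
        exact h3 i ((Finset.mem_insert.1 hi).resolve_left hiq)

theorem elim_step {A : Matrix (Fin n) (Fin n) D} (hA : IsUnit A) (k : Fin n)
    (hcol : ∀ i j : Fin n, j < k → A i j = (1 : Matrix (Fin n) (Fin n) D) i j) :
    ∃ E ∈ Gr D n, ∀ i j : Fin n, j ≤ k → (E * A) i j = (1 : Matrix (Fin n) (Fin n) D) i j := by
  classical
  have hex : ∃ i, k ≤ i ∧ A i k ≠ 0 := by
    by_contra hc
    push Not at hc
    let v : Fin n → D := fun j => if j < k then A j k else if j = k then -1 else 0
    have hv : Matrix.mulVec A v = 0 := by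
      funext i
      simp only [Matrix.mulVec, dotProduct, v, Pi.zero_apply]
      have h1 : ∀ j, A i j * (if j < k then A j k else if j = k then -1 else 0) =
          (if j = i then (if i < k then A i k else 0) else 0) + (if j = k then -(A i k) else 0) := by
        intro j
        by_cases hj : j < k
        · rw [if_pos hj, hcol i j hj, if_neg (ne_of_lt hj)]
          by_cases hji : j = i
          · subst hji
            simp [hj]
          · rw [Matrix.one_apply_ne (Ne.symm hji), if_neg hji]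
            simp
        · rw [if_neg hj]
          have h2 : (if j = i then (if i < k then A i k else 0) else 0) = (0 : D) := by
            by_cases hji : j = i
            · subst hji
              rw [if_pos rfl, if_neg hj]
            · rw [if_neg hji]
          rw [h2, zero_add]
          by_cases hjk : j = k
          · subst hjk
            simp
          · simp [hjk]
      rw [Finset.sum_congr rfl fun j _ => h1 j, Finset.sum_add_distrib,
        Finset.sum_ite_eq' Finset.univ i, Finset.sum_ite_eq' Finset.univ k]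
      simp only [Finset.mem_univ, if_true]
      by_cases hik : i < k
      · rw [if_pos hik, add_neg_cancel]
      · rw [if_neg hik, hc i (not_lt.1 hik), neg_zero, add_zero]
    have h2 := congrFun (mulVec_inj hA hv) k
    simp [v] at h2
  obtain ⟨i, hki, hi⟩ := hex
  have hstep1 : ∃ E ∈ Gr D n, (E * A) k k = 1 ∧
      ∀ i j : Fin n, j < k → (E * A) i j = (1 : Matrix (Fin n) (Fin n) D) i j := by
    by_cases h0 : A k k = 0
    · have hne : k ≠ i := by
        rintro rfl
        exact hi h0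
      refine ⟨tv k i (A i k)⁻¹, tv_mem_Gr hne _, ?_, ?_⟩
      · rw [tv_mul_apply, if_pos rfl, h0, inv_mul_cancel₀ hi, zero_add]
      · intro a j hj
        rw [tv_mul_apply, hcol a j hj, hcol i j hj,
          Matrix.one_apply_ne (ne_of_gt (lt_of_lt_of_le hj hki)), mul_zero]
        simp
    · refine ⟨dg k (A k k)⁻¹, dg_mem_Gr k (inv_ne_zero h0), ?_, ?_⟩
      · rw [dg_mul_apply, if_pos rfl, inv_mul_cancel₀ h0]
      · intro a j hj
        rw [dg_mul_apply, hcol a j hj]
        by_cases hak : a = k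
        · subst hak
          rw [if_pos rfl, Matrix.one_apply_ne (ne_of_gt hj), mul_zero]
        · rw [if_neg hak]
  obtain ⟨E, hE, h1, h2⟩ := hstep1
  obtain ⟨E', hE', h3, h4, h5⟩ := clear_col k h1 h2 (Finset.univ.erase k) (Finset.notMem_erase _ _)
  refine ⟨E' * E, mul_mem hE' hE, ?_⟩
  intro a j hj
  rw [Matrix.mul_assoc]
  rcases lt_or_eq_of_le hj with hj | hj
  · exact h3 a j hj
  · subst hj
    by_cases haj : a = j
    · subst haj
      rw [h4, h1, Matrix.one_apply_eq]
    · rw [h5 a (Finset.mem_erase.2 ⟨haj, Finset.mem_univ _⟩), Matrix.one_apply_ne haj]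

/-- Gaussian elimination. -/
theorem exists_elim {A : Matrix (Fin n) (Fin n) D} (hA : IsUnit A) : ∃ E ∈ Gr D n, E * A = 1 := by
  have h : ∀ k : ℕ, k ≤ n → ∃ E ∈ Gr D n, ∀ i j : Fin n, (j : ℕ) < k →
      (E * A) i j = (1 : Matrix (Fin n) (Fin n) D) i j := by
    intro k
    induction k with
    | zero => exact fun _ => ⟨1, one_mem _, fun i j hj => absurd hj (Nat.not_lt_zero _)⟩
    | succ k ih =>
      intro hk
      obtain ⟨E, hE, h1⟩ := ih (by omega)
      obtain ⟨E', hE', h2⟩ := elim_step ((isUnit_of_mem_Gr hE).mul hA) ⟨k, by omega⟩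
        (fun i j hj => h1 i j hj)
      refine ⟨E' * E, mul_mem hE' hE, fun i j hj => ?_⟩
      rw [Matrix.mul_assoc]
      exact h2 i j (Fin.le_def.2 (by simp only []; omega))
  obtain ⟨E, hE, h1⟩ := h n le_rfl
  exact ⟨E, hE, Matrix.ext fun i j => h1 i j j.2⟩

variable {w : D → ℤ}

theorem gr_shift (w : D → ℤ) {E : Matrix (Fin n) (Fin n) D} (hE : E ∈ Gr D n) :
    ∃ m : ℤ, ∀ δ : Matrix (Fin n) (Fin n) D → ℤ, Good w δ → ∀ A, IsUnit A → δ (E * A) = m + δ A := by
  unfold Gr at hE
  induction hE using Submonoid.closure_induction with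
  | mem x hx =>
    rcases hx with ⟨i, j, c, hij, rfl⟩ | ⟨i, c, hc, rfl⟩
    · exact ⟨0, fun δ hδ A hA => by rw [hδ.htv _ hA _ _ _ hij, zero_add]⟩
    · exact ⟨w c, fun δ hδ A hA => hδ.hdg _ hA _ _ hc⟩
  | one => exact ⟨0, fun δ _ A _ => by rw [one_mul, zero_add]⟩
  | mul x y hx hy ihx ihy =>
    obtain ⟨a, ha⟩ := ihx
    obtain ⟨b, hb⟩ := ihy
    refine ⟨a + b, fun δ hδ A hA => ?_⟩
    have hyu : IsUnit y := isUnit_of_mem_Gr hy
    rw [Matrix.mul_assoc, ha δ hδ _ (hyu.mul hA), hb δ hδ _ hA, add_assoc]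

theorem good_unique {δ δ' : Matrix (Fin n) (Fin n) D → ℤ} (h : Good w δ) (h' : Good w δ')
    {A : Matrix (Fin n) (Fin n) D} (hA : IsUnit A) : δ A = δ' A := by
  obtain ⟨E, hE, hEA⟩ := exists_elim hA
  obtain ⟨m, hm⟩ := gr_shift w hE
  have h1 := hm δ h A hA
  have h2 := hm δ' h' A hA
  rw [hEA, h.hone] at h1
  rw [hEA, h'.hone] at h2
  omega

theorem wt_mul (hw : IsW w) {A B : Matrix (Fin n) (Fin n) D} (hA : IsUnit A) (hB : IsUnit B) :
    wt w n (A * B) = wt w n A + wt w n B := by
  have h := good_wt hw n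
  have h' : Good w (fun A => wt w n (A * B) - wt w n B) := by
    refine ⟨?_, ?_, ?_⟩
    · intro A hA i j c hij
      show wt w n (tv i j c * A * B) - _ = _
      rw [Matrix.mul_assoc, h.htv _ (hA.mul hB) _ _ _ hij]
    · intro A hA i c hc
      show wt w n (dg i c * A * B) - _ = _
      rw [Matrix.mul_assoc, h.hdg _ (hA.mul hB) _ _ hc]
      ring
    · show wt w n (1 * B) - _ = _
      rw [Matrix.one_mul, sub_self]
  have h1 : wt w n A = wt w n (A * B) - wt w n B := good_unique h h' hA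
  omega

theorem wt_El (hw : IsW w) {E : Matrix (Fin n) (Fin n) D} (hE : E ∈ El D n) :
    IsUnit E ∧ wt w n E = 0 := by
  have h := good_wt hw n
  unfold El at hE
  induction hE using Submonoid.closure_induction with
  | mem x hx =>
    obtain ⟨i, j, c, hij, rfl⟩ := hx
    refine ⟨isUnit_tv hij c, ?_⟩
    have h1 := h.htv 1 isUnit_one i j c hij
    rw [mul_one, h.hone] at h1
    exact h1
  | one => exact ⟨isUnit_one, h.hone⟩
  | mul x y _ _ hx hy => exact ⟨hx.1.mul hy.1, by rw [wt_mul hw hx.1 hy.1, hx.2, hy.2, add_zero]⟩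

theorem wt_dg (hw : IsW w) (i : Fin n) {c : D} (hc : c ≠ 0) : wt w n (dg i c) = w c := by
  have h := (good_wt hw n).hdg 1 isUnit_one i c hc
  rw [mul_one, (good_wt hw n).hone, add_zero] at h
  exact h

theorem wt_perm (hw : IsW w) (σ : Equiv.Perm (Fin n)) {A : Matrix (Fin n) (Fin n) D}
    (hA : IsUnit A) : wt w n (A.submatrix σ id) = wt w n A :=
  ((good_wt hw n).perm hw σ hA).1

/-- Block form: if column `0` is zero except at row `j`. -/
theorem wt_col (hw : IsW w) {A : Matrix (Fin (n + 1)) (Fin (n + 1)) D} (hA : IsUnit A)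
    (j : Fin (n + 1)) (hj : ∀ i, i ≠ j → A i 0 = 0) :
    A j 0 ≠ 0 ∧ IsUnit (mn A j) ∧ wt w (n + 1) A = w (A j 0) + wt w n (mn A j) := by
  obtain ⟨l, hl, -⟩ := exists_row hA
  have h0 := congrFun hl 0
  rw [e0_zero] at h0
  simp only [Matrix.vecMul, dotProduct] at h0
  rw [Finset.sum_eq_single j (fun i _ hi => by rw [hj i hi, mul_zero])
    (fun h => absurd (Finset.mem_univ _) h)] at h0
  have hlj : l j ≠ 0 := left_ne_zero_of_mul (h0 ▸ one_ne_zero)
  have hAj : A j 0 ≠ 0 := right_ne_zero_of_mul (h0 ▸ one_ne_zero)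
  refine ⟨hAj, isUnit_mn hA hl hlj, ?_⟩
  rw [wt_spec hw hA hl hlj]
  have h1 : w (l j) + w (A j 0) = 0 := by rw [← hw _ _ hlj hAj, h0, hw.one]
  omega

theorem eN_pow {N : Matrix (Fin (n + 1)) (Fin (n + 1)) D} (h0 : ∀ l, N 0 l = 0) (k : ℕ)
    (a b : Fin n) : (N ^ (k + 1)) a.succ b.succ = ((mn N 0) ^ (k + 1)) a b := by
  induction k generalizing a b with
  | zero => simp only [zero_add, pow_one]; rfl
  | succ k ih =>
    rw [pow_succ N, pow_succ (mn N 0), Matrix.mul_apply, Matrix.mul_apply, Fin.sum_univ_succ,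
      h0, mul_zero, zero_add]
    refine Finset.sum_congr rfl fun c _ => ?_
    rw [ih]
    rfl

theorem exists_first_row (v : Fin (n + 1) → D) (hv : v ≠ 0) :
    ∃ P : Matrix (Fin (n + 1)) (Fin (n + 1)) D, IsUnit P ∧ P 0 = v := by
  classical
  obtain ⟨j, hj⟩ : ∃ j, v j ≠ 0 := by
    by_contra hc
    push Not at hc
    exact hv (funext hc)
  have hG := good_wt (w := fun _ : D => (0 : ℤ)) (fun _ _ _ _ => rfl) (n + 1)
  have h1 := hG.combo (A := (1 : Matrix (Fin (n + 1)) (Fin (n + 1)) D)) isUnit_one j hj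
    (Finset.univ.erase j) (Finset.notMem_erase _ _) v
  have h2 : v j • (1 : Matrix (Fin (n + 1)) (Fin (n + 1)) D) j +
      ∑ q ∈ Finset.univ.erase j, v q • (1 : Matrix (Fin (n + 1)) (Fin (n + 1)) D) q = v := by
    rw [Finset.add_sum_erase Finset.univ (fun q => v q • (1 : Matrix (Fin (n + 1)) (Fin (n + 1)) D) q)
      (Finset.mem_univ j)]
    funext m
    rw [Finset.sum_apply, Finset.sum_eq_single m]
    · show v m * (1 : Matrix (Fin (n + 1)) (Fin (n + 1)) D) m m = v m
      rw [Matrix.one_apply_eq, mul_one]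
    · intro b _ hb
      show v b * (1 : Matrix (Fin (n + 1)) (Fin (n + 1)) D) b m = 0
      rw [Matrix.one_apply_ne hb, mul_zero]
    · intro h
      exact absurd (Finset.mem_univ _) h
  rw [h2] at h1
  have h3 := hG.perm (fun _ _ _ _ => rfl) (Equiv.swap 0 j) h1.2
  refine ⟨_, h3.2, ?_⟩
  funext m
  show ((1 : Matrix (Fin (n + 1)) (Fin (n + 1)) D).updateRow j v) (Equiv.swap 0 j 0) m = v m
  rw [Equiv.swap_apply_left, Matrix.updateRow_self]

/-- The weight of a unipotent matrix is zero. -/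
theorem wt_unip (hw : IsW w) : ∀ (n : ℕ) (N : Matrix (Fin n) (Fin n) D) (k : ℕ), N ^ k = 0 →
    IsUnit (1 + N) ∧ wt w n (1 + N) = 0 := by
  intro n
  induction n with
  | zero =>
    intro N k hk
    refine ⟨?_, rfl⟩
    exact ⟨⟨1 + N, 1, Matrix.ext fun i => i.elim0, Matrix.ext fun i => i.elim0⟩, rfl⟩
  | succ n ih =>
    intro N k hk
    have hu : IsUnit (1 + N) := by
      have : IsNilpotent N := ⟨k, hk⟩
      exact this.isUnit_one_add
    refine ⟨hu, ?_⟩
    -- a row vector killed by `N`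
    have hv : ∃ v : Fin (n + 1) → D, v ≠ 0 ∧ Matrix.vecMul v N = 0 := by
      by_contra hc
      push Not at hc
      have h1 : IsUnit N := isUnit_of_inj fun v hv => by
        by_contra hv0
        exact hc v hv0 hv
      have h2 : IsUnit (N ^ k) := h1.pow k
      rw [hk] at h2
      have h3 := vecMul_inj h2 (v := e0) (Matrix.vecMul_zero _)
      have h4 := congrFun h3 0
      rw [e0_zero] at h4
      exact one_ne_zero h4
    obtain ⟨v, hv0, hvN⟩ := hv
    obtain ⟨P, hP, hPv⟩ := exists_first_row v hv0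
    obtain ⟨⟨P, Q, hPQ, hQP⟩, rfl⟩ := hP
    have hPu : IsUnit P := ⟨⟨P, Q, hPQ, hQP⟩, rfl⟩
    have hQu : IsUnit Q := ⟨⟨Q, P, hQP, hPQ⟩, rfl⟩
    have hPv' : P 0 = v := hPv
    let N' := P * N * Q
    have hN'0 : ∀ l, N' 0 l = 0 := by
      intro l
      have h1 : (P * N) 0 = 0 := by
        have h2 : (P * N) 0 = Matrix.vecMul (P 0) N := rfl
        rw [h2, hPv', hvN]
      show (P * N * Q) 0 l = 0
      have h3 : (P * N * Q) 0 = Matrix.vecMul ((P * N) 0) Q := rfl
      rw [h3, h1, Matrix.zero_vecMul]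
      rfl
    have hpow : ∀ k, N' ^ k = P * N ^ k * Q := by
      intro k
      induction k with
      | zero => rw [pow_zero, pow_zero, Matrix.mul_one, hPQ]
      | succ k ihk =>
        rw [pow_succ, pow_succ, ihk]
        show P * N ^ k * Q * (P * N * Q) = _
        calc P * N ^ k * Q * (P * N * Q) = P * N ^ k * (Q * P) * N * Q := by
              simp only [Matrix.mul_assoc]
          _ = _ := by rw [hQP]; simp only [Matrix.mul_assoc, Matrix.one_mul]
    have hN'k : N' ^ (k + 1) = 0 := by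
      rw [hpow, pow_succ, hk]
      simp
    have h1 : (mn N' 0) ^ (k + 1) = 0 := by
      refine Matrix.ext fun a b => ?_
      rw [← eN_pow hN'0, hN'k]
      rfl
    obtain ⟨-, h2⟩ := ih (mn N' 0) (k + 1) h1
    have h3 : 1 + N' = P * (1 + N) * Q := by
      rw [Matrix.mul_add, Matrix.add_mul, Matrix.mul_one, hPQ]
    have hu' : IsUnit (1 + N') := by
      rw [h3]
      exact (hPu.mul hu).mul hQu
    have h4 : wt w (n + 1) (1 + N') = wt w (n + 1) (1 + N) := by
      rw [h3, wt_mul hw (hPu.mul hu) hQu, wt_mul hw hPu hu]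
      have h5 := wt_mul hw hPu hQu
      rw [hPQ, (good_wt hw (n + 1)).hone] at h5
      omega
    rw [← h4]
    have hl : Matrix.vecMul (e0 : Fin (n + 1) → D) (1 + N') = e0 := by
      funext m
      rw [Matrix.vecMul_add, Matrix.vecMul_one, Pi.add_apply]
      have h6 : Matrix.vecMul (e0 : Fin (n + 1) → D) N' = N' 0 := Matrix.single_one_vecMul _ _
      rw [h6, hN'0, add_zero]
    rw [wt_spec hw hu' hl (i := 0) (by rw [e0_zero]; exact one_ne_zero), e0_zero, hw.one]
    have h7 : mn (1 + N') 0 = 1 + mn N' 0 := by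
      refine Matrix.ext fun a b => ?_
      show (1 + N') ((0 : Fin (n + 1)).succAbove a) b.succ = _
      rw [Matrix.add_apply, Matrix.add_apply]
      congr 1
      rw [Fin.succAbove_zero, Matrix.one_apply, Matrix.one_apply]
      simp [Fin.succ_inj]
    rw [h7, h2]
    simp

end elim

end Pool.Agent.TH19.Det
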