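import Pool.Agent.TH19.DetMul

set_option autoImplicit false

/-!
# Matrices over a Euclidean subring have nonnegative weight
-/

namespace Pool.Agent.TH19.Det

open Matrix

section euc

variable {D : Type} [DivisionRing D]

/-- The subring `S` is Euclidean with respect to the weight `w`. -/
structure IsEuc (w : D → ℤ) (S : Subring D) : Prop where
  mul : IsW w
  nonneg : ∀ x ∈ S, x ≠ 0 → 0 ≤ w x
  div : ∀ z, z ∉ S → ∃ q ∈ S, w (z - q) < 0

variable {w : D → ℤ} {S : Subring D}

/-- Elements of `S` of weight zero are units of `S`. -/
theorem IsEuc.inv_mem (h : IsEuc w S) {x : D} (hx : x ∈ S) (hx0 : x ≠ 0) (hw : w x = 0) :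
    x⁻¹ ∈ S := by
  by_contra hc
  obtain ⟨q, hq, hlt⟩ := h.div _ hc
  have hne : x⁻¹ - q ≠ 0 := by
    intro h0
    rw [sub_eq_zero] at h0
    exact hc (h0 ▸ hq)
  have h1 := h.mul _ x hne hx0
  rw [sub_mul, inv_mul_cancel₀ hx0, hw, add_zero] at h1
  have h2 : 0 ≤ w (1 - q * x) := by
    refine h.nonneg _ (sub_mem (one_mem S) (mul_mem hq hx)) ?_
    have : (x⁻¹ - q) * x ≠ 0 := mul_ne_zero hne hx0
    rwa [sub_mul, inv_mul_cancel₀ hx0] at this
  omega

theorem exists_col_ne {n : ℕ} {M : Matrix (Fin (n + 1)) (Fin (n + 1)) D} (hM : IsUnit M) :
    ∃ j, M j 0 ≠ 0 := by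
  by_contra hc
  push Not at hc
  have h1 : Matrix.mulVec M (e0 : Fin (n + 1) → D) = 0 := by
    funext i
    have h2 : Matrix.mulVec M (Pi.single 0 (1 : D)) = M.col 0 := Matrix.mulVec_single_one _ _
    show Matrix.mulVec M (Pi.single 0 (1 : D)) i = 0
    rw [h2]
    exact hc i
  have h2 := congrFun (mulVec_inj hM h1) 0
  rw [e0_zero] at h2
  exact one_ne_zero h2

theorem IsEuc.wt_nonneg (h : IsEuc w S) : ∀ (n : ℕ) (M : Matrix (Fin n) (Fin n) D), IsUnit M →
    (∀ i j, M i j ∈ S) → 0 ≤ wt w n M := by
  classical
  intro n
  induction n with
  | zero => intro M _ _; exact le_rfl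
  | succ n ih =>
    have key : ∀ (m c : ℕ) (M : Matrix (Fin (n + 1)) (Fin (n + 1)) D) (j : Fin (n + 1)),
        IsUnit M → (∀ i j, M i j ∈ S) → M j 0 ≠ 0 → w (M j 0) = m →
        (Finset.univ.filter fun i => i ≠ j ∧ M i 0 ≠ 0).card ≤ c → 0 ≤ wt w (n + 1) M := by
      intro m
      induction m using Nat.strong_induction_on with
      | _ m ihm =>
        intro c
        induction c with
        | zero =>
          intro M j hM hS hj hm hc
          have h0 : ∀ i, i ≠ j → M i 0 = 0 := by
            intro i hi
            by_contra hne
            have h1 : i ∈ Finset.univ.filter fun i => i ≠ j ∧ M i 0 ≠ 0 := by simp [hi, hne]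
            have h2 := Finset.card_pos.2 ⟨i, h1⟩
            omega
          obtain ⟨h1, h2, h3⟩ := wt_col h.mul hM j h0
          rw [h3]
          have h4 := ih _ h2 fun a b => hS _ _
          have h5 := h.nonneg _ (hS j 0) h1
          omega
        | succ c ihc =>
          intro M j hM hS hj hm hc
          by_cases hex : ∃ i, i ≠ j ∧ M i 0 ≠ 0
          · obtain ⟨i, hij, hi⟩ := hex
            by_cases hz : M i 0 * (M j 0)⁻¹ ∈ S
            · let M' := tv i j (-(M i 0 * (M j 0)⁻¹)) * M
              have hM' : IsUnit M' := (isUnit_tv hij _).mul hM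
              have hS' : ∀ a b, M' a b ∈ S := by
                intro a b
                show (tv i j (-(M i 0 * (M j 0)⁻¹)) * M) a b ∈ S
                rw [tv_mul_apply]
                refine add_mem (hS a b) ?_
                split_ifs
                · exact mul_mem (neg_mem hz) (hS _ _)
                · exact zero_mem _
              have e1 : ∀ a, M' a 0 = if a = i then 0 else M a 0 := by
                intro a
                show (tv i j (-(M i 0 * (M j 0)⁻¹)) * M) a 0 = _
                rw [tv_mul_apply]
                by_cases ha : a = i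
                · subst ha
                  rw [if_pos rfl, if_pos rfl, neg_mul, mul_assoc, inv_mul_cancel₀ hj, mul_one,
                    add_neg_cancel]
                · rw [if_neg ha, if_neg ha, add_zero]
              have e2 : M' j 0 = M j 0 := by rw [e1, if_neg (Ne.symm hij)]
              have h1 := ihc M' j hM' hS' (by rw [e2]; exact hj) (by rw [e2]; exact hm) (by
                have h2 : (Finset.univ.filter fun a => a ≠ j ∧ M' a 0 ≠ 0) ⊆
                    (Finset.univ.filter fun a => a ≠ j ∧ M a 0 ≠ 0).erase i := by
                  intro a ha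
                  simp only [Finset.mem_filter, Finset.mem_univ, true_and, e1, Finset.mem_erase] at ha ⊢
                  by_cases hai : a = i
                  · rw [if_pos hai] at ha
                    exact absurd rfl ha.2
                  · rw [if_neg hai] at ha
                    exact ⟨hai, ha⟩
                have h3 := Finset.card_le_card h2
                rw [Finset.card_erase_of_mem (by simp [hij, hi])] at h3
                omega)
              rwa [(good_wt h.mul (n + 1)).htv _ hM _ _ _ hij] at h1
            · obtain ⟨q, hq, hlt⟩ := h.div _ hz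
              let M' := tv i j (-q) * M
              have hM' : IsUnit M' := (isUnit_tv hij _).mul hM
              have hS' : ∀ a b, M' a b ∈ S := by
                intro a b
                show (tv i j (-q) * M) a b ∈ S
                rw [tv_mul_apply]
                refine add_mem (hS a b) ?_
                split_ifs
                · exact mul_mem (neg_mem hq) (hS _ _)
                · exact zero_mem _
              have hne : M i 0 * (M j 0)⁻¹ - q ≠ 0 := by
                intro h0
                rw [sub_eq_zero] at h0
                exact hz (h0 ▸ hq)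
              have e1 : M' i 0 = (M i 0 * (M j 0)⁻¹ - q) * M j 0 := by
                show (tv i j (-q) * M) i 0 = _
                rw [tv_mul_apply, if_pos rfl, sub_mul, mul_assoc, inv_mul_cancel₀ hj, mul_one,
                  neg_mul, sub_eq_add_neg]
              have e2 : M' i 0 ≠ 0 := by
                rw [e1]
                exact mul_ne_zero hne hj
              have e3 : w (M' i 0) < m := by
                rw [e1, h.mul _ _ hne hj, hm]
                omega
              have e4 := h.nonneg _ (hS' i 0) e2
              obtain ⟨m', hm'⟩ := Int.eq_ofNat_of_zero_le e4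
              have h1 := ihm m' (by omega) _ M' i hM' hS' e2 hm' le_rfl
              rwa [(good_wt h.mul (n + 1)).htv _ hM _ _ _ hij] at h1
          · push Not at hex
            refine ihc M j hM hS hj hm ?_
            have h2 : (Finset.univ.filter fun a => a ≠ j ∧ M a 0 ≠ 0) = ∅ := by
              rw [Finset.filter_eq_empty_iff]
              rintro a - ⟨h3, h4⟩
              exact h4 (hex a h3)
            rw [h2]
            simp
    intro M hM hS
    obtain ⟨j, hj⟩ := exists_col_ne hM
    obtain ⟨m, hm⟩ := Int.eq_ofNat_of_zero_le (h.nonneg _ (hS j 0) hj)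
    exact key m _ M j hM hS hj hm le_rfl

end euc

end Pool.Agent.TH19.Det
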