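import Pool.Agent.Helper831.VN.Fin
import Pool.Agent.Helper277.Sig
import Pool.Agent.Helper655.VNLight
import Pool.Agent.TH19.Cd

attribute [local instance] VN831.bcFunctor_additive VN831.viaAdd VN831.viaMod
  Pool.Agent.Helper655.VN.kerM_hop V7N.bcF_additive V7N.rmAdd V7N.rmMod L2B.l2Add L2B.l2Mod
  L2B.instRingN L2B.instAddBC L2B.instModBC L2B.bcF_additive

set_option autoImplicit false

/-!
# The division ring of a group and its properties
-/

namespace Pool.Agent.TH19.Fin19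

open L2B TN970 Pool.Agent.RK Pool.Agent.Helper655.VN Pool.Agent.Helper277.Sig
  Pool.Agent.TH19.Main1

variable {Γ : Type} [Group Γ] {U : Type} [Ring U]

/-- the other model of the group von Neumann algebra -/
noncomputable def iot (ι : N Γ →+* U) : NG Γ →+* U := ι.comp (sig Γ : NG Γ →+* N Γ)

theorem loc_iot {ι : N Γ →+* U} (hι : Loc ι) : Loc (iot ι) where
  inj := hι.inj.comp (sig Γ).injective
  unit := fun s hs => hι.unit _ (nz_map (sig Γ) s hs)
  left := by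
    intro y
    obtain ⟨s, x, hs, h⟩ := hι.left y
    refine ⟨(sig Γ).symm s, (sig Γ).symm x, nz_map (sig Γ).symm s hs, ?_⟩
    show ι (sig Γ ((sig Γ).symm s)) * y = ι (sig Γ ((sig Γ).symm x))
    rw [(sig Γ).apply_symm_apply, (sig Γ).apply_symm_apply, h]
  right := by
    intro y
    obtain ⟨s, x, hs, h⟩ := hι.right y
    refine ⟨(sig Γ).symm s, (sig Γ).symm x, nz_map (sig Γ).symm s hs, ?_⟩
    show y * ι (sig Γ ((sig Γ).symm s)) = ι (sig Γ ((sig Γ).symm x))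
    rw [(sig Γ).apply_symm_apply, (sig Γ).apply_symm_apply, h]

variable {D : Type} [DivisionRing D]

theorem hu_iot {ι : N Γ →+* U} {e : D →+* U} {u : Γ →* Dˣ}
    (hu : ∀ g, e ((u g : Dˣ) : D) = ι (lam g)) (g : Γ) :
    e ((u g : Dˣ) : D) = iot ι (canL g) := by
  rw [hu]
  show ι (lam g) = ι (sig Γ (canL g))
  rw [sig_canL]

theorem linnell {ι : N Γ →+* U} (hι : Loc ι) {e : D →+* U} {u : Γ →* Dˣ}
    (hu : ∀ g, e ((u g : Dˣ) : D) = ι (lam g)) : Linnell u := by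
  refine Pool.Agent.RK.Linn.linnell_of (loc_iot hι) e u canL (hu_iot hu) fun N hN => ?_
  have S := VN831.setup_sub N (loc_iot hι) (hu_iot hu)
  exact ⟨NG N, inferInstance, inferInstance, tau N, Pool.Agent.Helper277.VN5.jN N, S.vn, S.jinj,
    S.jnz, S.hN, fun s x hs hx => S.indep s hs x hx⟩

theorem hev {ι : N Γ →+* U} {e : D →+* U} {u : Γ →* Dˣ}
    (hu : ∀ g, e ((u g : Dˣ) : D) = ι (lam g)) (a : MonoidAlgebra ℤ Γ) :
    e (ev u a) = iot ι (V7N.evM canL a) := by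
  induction a using MonoidAlgebra.induction_on with
  | of g =>
    have h1 : ev u (MonoidAlgebra.of ℤ Γ g) = ((u g : Dˣ) : D) := by
      unfold ev
      simp
    have h2 : V7N.evM (canL : Γ →* NG Γ) (MonoidAlgebra.of ℤ Γ g) = canL g := by
      unfold V7N.evM
      simp
    rw [h1, h2, hu_iot hu]
  | add x y hx hy => rw [map_add, map_add, map_add, map_add, hx, hy]
  | smul r x hx => rw [map_zsmul, map_zsmul, map_zsmul, map_zsmul, hx]

theorem mem_SN {u : Γ →* Dˣ} (hgen : ∀ x : D, x ∈ Dc u ⊤) (x : D) : x ∈ SN u (⊤ : Subgroup Γ) := by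
  have h1 := Submodule.smul_mem (SN u (⊤ : Subgroup Γ)) (⟨x, hgen x⟩ : Dc u (⊤ : Subgroup Γ))
    (Submodule.subset_span ⟨1, rfl⟩ : (fun g : Γ => ((u g : Dˣ) : D)) 1 ∈ SN u (⊤ : Subgroup Γ))
  have h2 : (⟨x, hgen x⟩ : Dc u (⊤ : Subgroup Γ)) • ((fun g : Γ => ((u g : Dˣ) : D)) 1) =
      x * ((u 1 : Dˣ) : D) := rfl
  rwa [h2, map_one, Units.val_one, mul_one] at h1

/-- vanishing of the homology over the division ring -/
theorem exact_of_betti {ι : N Γ →+* U} (hι : Loc ι) {e : D →+* U} {u : Γ →* Dˣ}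
    (hu : ∀ g, e ((u g : Dˣ) : D) = ι (lam g)) (hgen : ∀ x : D, x ∈ Dc u ⊤)
    (C : V7N.FreeRes Γ) (n : ℕ) (h0 : l2Betti Γ (n + 1) = 0)
    (v : Fin (C.r (n + 1)) → D) (hv : Matrix.vecMul v (dD u C n) = 0) :
    ∃ w, v = Matrix.vecMul w (dD u C (n + 1)) := by
  have htr : (L2B.tr : N Γ → ℝ) = ((tau Γ).comp ((sig Γ).symm : N Γ →+ NG Γ) : N Γ → ℝ) := by
    funext T
    have h1 := sig_tr ((sig Γ).symm T)
    rw [(sig Γ).apply_symm_apply] at h1
    exact h1
  obtain ⟨st, S⟩ := setup_transport (sig Γ) (VN831.setup_top (loc_iot hι) (hu_iot hu))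
  have hr : (MonoidHom.id Γ).range = ⊤ := by
    rw [MonoidHom.range_eq_top]
    exact Function.surjective_id
  obtain ⟨f⟩ := V7N.v7_succ C n (MonoidHom.id Γ) Function.injective_id (lam : Γ →* N Γ)
    (canL : Γ →* NG Γ) ((RingHom.id (NG Γ)).comp ((sig Γ).symm : N Γ →+* NG Γ))
    (fun k => by
      show (sig Γ).symm (lam k) = canL k
      rw [← sig_canL k, (sig Γ).symm_apply_apply])
    (by rw [hr]; exact S.indep)
  have key := hex_of_luckDim S (V7N.evM canL) (hev hu) (C.d (n + 1)) (C.d n) (by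
    rw [← htr, ← luckDim_congr _ f]
    exact h0)
  obtain ⟨w, -, hw⟩ := key v ⟨fun i => mem_SN hgen (v i), hv⟩
  exact ⟨w, hw⟩

theorem exact_zero_of_betti {ι : N Γ →+* U} (hι : Loc ι) {e : D →+* U} {u : Γ →* Dˣ}
    (hu : ∀ g, e ((u g : Dˣ) : D) = ι (lam g)) (hgen : ∀ x : D, x ∈ Dc u ⊤)
    (C : V7N.FreeRes Γ) (h0 : l2Betti Γ 0 = 0)
    (v : Fin (C.r 0) → D) : ∃ w, v = Matrix.vecMul w (dD u C 0) := by
  have htr : (L2B.tr : N Γ → ℝ) = ((tau Γ).comp ((sig Γ).symm : N Γ →+ NG Γ) : N Γ → ℝ) := by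
    funext T
    have h1 := sig_tr ((sig Γ).symm T)
    rw [(sig Γ).apply_symm_apply] at h1
    exact h1
  obtain ⟨st, S⟩ := setup_transport (sig Γ) (VN831.setup_top (loc_iot hι) (hu_iot hu))
  have hr : (MonoidHom.id Γ).range = ⊤ := by
    rw [MonoidHom.range_eq_top]
    exact Function.surjective_id
  obtain ⟨f⟩ := V7N.v7_zero C (MonoidHom.id Γ) Function.injective_id (lam : Γ →* N Γ)
    (canL : Γ →* NG Γ) ((RingHom.id (NG Γ)).comp ((sig Γ).symm : N Γ →+* NG Γ))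
    (fun k => by
      show (sig Γ).symm (lam k) = canL k
      rw [← sig_canL k, (sig Γ).symm_apply_apply])
    (by rw [hr]; exact S.indep)
  have key := hex_of_luckDim S (V7N.evM canL) (hev hu) (C.d 0)
    (0 : Matrix (Fin (C.r 0)) (Fin 0) (MonoidAlgebra ℤ Γ)) (by
    rw [← htr, ← luckDim_congr _ f]
    exact h0)
  obtain ⟨w, -, hw⟩ := key v ⟨fun i => mem_SN hgen (v i), by
    funext i
    exact i.elim0⟩
  exact ⟨w, hw⟩

end Pool.Agent.TH19.Fin19
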