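import Pool.Agent.TH19.Euc

set_option autoImplicit false
set_option linter.unusedSectionVars false

/-!
# Torsion of acyclic complexes and weights
-/

namespace Pool.Agent.TH19.Tors

open Pool.Agent.TH19.Det Matrix

variable {D : Type} [DivisionRing D]

section general

variable {κ₁ κ₂ : Type} [Fintype κ₁] [DecidableEq κ₁] [Fintype κ₂] [DecidableEq κ₂]

theorem nilp_submatrix {F : Matrix κ₁ κ₁ D} {m k : ℕ} (e : κ₁ ≃ Fin m) (hF : F ^ k = 0) :
    (F.submatrix e.symm e.symm) ^ k = 0 := by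
  have h1 : (F.submatrix e.symm e.symm) = Matrix.reindexRingEquiv D e F := rfl
  rw [h1, ← map_pow, hF, map_zero]

theorem isUnit_of_mul {m : ℕ} {A B : Matrix (Fin m) (Fin m) D} (h : IsUnit (A * B)) :
    IsUnit A ∧ IsUnit B := by
  have hA : IsUnit A := by
    apply isUnit_of_inj
    intro v hv
    refine vecMul_inj h ?_
    rw [← Matrix.vecMul_vecMul, hv, Matrix.zero_vecMul]
  refine ⟨hA, ?_⟩
  obtain ⟨U, rfl⟩ := hA
  have h2 : B = ((U⁻¹ : (Matrix (Fin m) (Fin m) D)ˣ) : Matrix (Fin m) (Fin m) D) *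
      ((U : Matrix (Fin m) (Fin m) D) * B) := by
    rw [← Matrix.mul_assoc, U.inv_mul, Matrix.one_mul]
  rw [h2]
  exact (Units.isUnit _).mul h

theorem wt_pair {w : D → ℤ} (hw : IsW w) {m : ℕ} (e₁ : κ₁ ≃ Fin m) (e₂ : κ₂ ≃ Fin m)
    {A : Matrix κ₁ κ₂ D} {B : Matrix κ₂ κ₁ D} {F G : Matrix κ₁ κ₁ D} {k l : ℕ} (hF : F ^ k = 0)
    (hG : G ^ l = 0) (hAB : A * B = (1 + F) * (1 + G)) :
    IsUnit (A.submatrix e₁.symm e₂.symm) ∧ IsUnit (B.submatrix e₂.symm e₁.symm) ∧
      wt w m (A.submatrix e₁.symm e₂.symm) + wt w m (B.submatrix e₂.symm e₁.symm) = 0 := by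
  have h1 : A.submatrix e₁.symm e₂.symm * B.submatrix e₂.symm e₁.symm =
      (1 + F.submatrix e₁.symm e₁.symm) * (1 + G.submatrix e₁.symm e₁.symm) := by
    have hs : ∀ H : Matrix κ₁ κ₁ D, (1 + H).submatrix e₁.symm e₁.symm =
        1 + H.submatrix e₁.symm e₁.symm := by
      intro H
      ext i j
      rw [Matrix.submatrix_apply, Matrix.add_apply, Matrix.add_apply, Matrix.submatrix_apply,
        Matrix.one_apply, Matrix.one_apply]
      simp only [EmbeddingLike.apply_eq_iff_eq]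
    rw [Matrix.submatrix_mul_equiv, hAB, ← Matrix.submatrix_mul_equiv _ _ _ e₁.symm, hs, hs]
  obtain ⟨u1, w1⟩ := wt_unip hw m _ k (nilp_submatrix e₁ hF)
  obtain ⟨u2, w2⟩ := wt_unip hw m _ l (nilp_submatrix e₁ hG)
  have h2 : IsUnit (A.submatrix e₁.symm e₂.symm * B.submatrix e₂.symm e₁.symm) := by
    rw [h1]
    exact u1.mul u2
  obtain ⟨uA, uB⟩ := isUnit_of_mul h2
  refine ⟨uA, uB, ?_⟩
  rw [← wt_mul hw uA uB, h1, wt_mul hw u1 u2, w1, w2, add_zero]

/-- strictly increasing degree implies nilpotent -/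
theorem nilp_of_deg {F : Matrix κ₁ κ₁ D} (deg : κ₁ → ℕ) {M : ℕ} (hM : ∀ i, deg i < M)
    (h : ∀ i j, F i j ≠ 0 → deg i < deg j) : F ^ M = 0 := by
  have key : ∀ (k : ℕ) (i j : κ₁), (F ^ k) i j ≠ 0 → deg i + k ≤ deg j := by
    intro k
    induction k with
    | zero =>
      intro i j hij
      rw [pow_zero] at hij
      by_cases he : i = j
      · rw [he, add_zero]
      · exact absurd (Matrix.one_apply_ne he) hij
    | succ k ih =>
      intro i j hij
      rw [pow_succ, Matrix.mul_apply] at hij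
      obtain ⟨l, -, hl⟩ := Finset.exists_ne_zero_of_sum_ne_zero hij
      have h1 := ih i l (left_ne_zero_of_mul hl)
      have h2 := h l j (right_ne_zero_of_mul hl)
      omega
  ext i j
  by_contra hc
  have h1 := key M i j hc
  have h2 := hM j
  omega

end general

section complex

variable {r : ℕ → ℕ} {M : ℕ}

/-- the basis of the total space -/
abbrev Ix (r : ℕ → ℕ) (M : ℕ) : Type := Σ n : Fin M, Fin (r n)

/-- the total matrix of a family of degree `-1` -/
def dn (M : ℕ) (X : ∀ n, Matrix (Fin (r (n + 1))) (Fin (r n)) D) :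
    Matrix (Ix r M) (Ix r M) D := fun i j =>
  if h : (i.1 : ℕ) = j.1 + 1 then X j.1 (Fin.cast (congrArg r h) i.2) j.2 else 0

/-- the total matrix of a family of degree `1` -/
def up (M : ℕ) (Y : ∀ n, Matrix (Fin (r n)) (Fin (r (n + 1))) D) :
    Matrix (Ix r M) (Ix r M) D := fun i j =>
  if h : (j.1 : ℕ) = i.1 + 1 then Y i.1 i.2 (Fin.cast (congrArg r h) j.2) else 0

theorem dn_ne {X : ∀ n, Matrix (Fin (r (n + 1))) (Fin (r n)) D} {i j : Ix r M}
    (h : dn M X i j ≠ 0) : (i.1 : ℕ) = j.1 + 1 := by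
  by_contra hc
  exact h (dif_neg hc)

theorem up_ne {Y : ∀ n, Matrix (Fin (r n)) (Fin (r (n + 1))) D} {i j : Ix r M}
    (h : up M Y i j ≠ 0) : (j.1 : ℕ) = i.1 + 1 := by
  by_contra hc
  exact h (dif_neg hc)

/-- A sum over the total space supported in one degree -/
theorem sum_deg (f : Ix r M → D) (n : ℕ) (hn : n < M) (h : ∀ k : Ix r M, (k.1 : ℕ) ≠ n → f k = 0) :
    ∑ k, f k = ∑ a : Fin (r n), f ⟨⟨n, hn⟩, a⟩ := by
  rw [Fintype.sum_sigma]
  rw [Finset.sum_eq_single (⟨n, hn⟩ : Fin M)]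
  · intro b _ hb
    refine Finset.sum_eq_zero fun a _ => h _ ?_
    intro he
    exact hb (Fin.ext he)
  · intro h'
    exact absurd (Finset.mem_univ _) h'

theorem sum_deg_zero (f : Ix r M → D) (n : ℕ) (hn : ¬ n < M)
    (h : ∀ k : Ix r M, (k.1 : ℕ) ≠ n → f k = 0) : ∑ k, f k = 0 := by
  refine Finset.sum_eq_zero fun k _ => h k ?_
  intro he
  exact hn (he ▸ k.1.2)

theorem dn_apply (X : ∀ n, Matrix (Fin (r (n + 1))) (Fin (r n)) D) {n : ℕ} (h1 : n + 1 < M)
    (h0 : n < M) (a : Fin (r (n + 1))) (b : Fin (r n)) :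
    dn M X ⟨⟨n + 1, h1⟩, a⟩ ⟨⟨n, h0⟩, b⟩ = X n a b := by
  unfold dn
  rw [dif_pos rfl]
  rfl

theorem up_apply (Y : ∀ n, Matrix (Fin (r n)) (Fin (r (n + 1))) D) {n : ℕ} (h1 : n + 1 < M)
    (h0 : n < M) (a : Fin (r (n + 1))) (b : Fin (r n)) :
    up M Y ⟨⟨n, h0⟩, b⟩ ⟨⟨n + 1, h1⟩, a⟩ = Y n b a := by
  unfold up
  rw [dif_pos rfl]
  rfl

theorem dn_mul_dn {X X' : ∀ n, Matrix (Fin (r (n + 1))) (Fin (r n)) D}
    (h : ∀ n, X (n + 1) * X' n = 0) : dn M X * dn M X' = 0 := by
  ext i j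
  rw [Matrix.mul_apply, Matrix.zero_apply]
  by_cases hij : (i.1 : ℕ) = j.1 + 2
  · obtain ⟨⟨n, hn⟩, b⟩ := j
    obtain ⟨⟨m, hm⟩, a⟩ := i
    have hm' : m = n + 2 := hij
    subst hm'
    rw [sum_deg (n := n + 1) (hn := by omega)]
    · have h2 : ∑ c, X (n + 1) a c * X' n c b = 0 := by
        rw [← Matrix.mul_apply, h n]
        rfl
      refine Eq.trans ?_ h2
      refine Finset.sum_congr rfl fun c _ => ?_
      rw [dn_apply X hm (by omega), dn_apply X' (by omega) hn]
    · intro k hk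
      by_contra hc
      have h1 := dn_ne (right_ne_zero_of_mul hc)
      exact hk h1
  · refine Finset.sum_eq_zero fun k _ => ?_
    by_contra hc
    have h1 := dn_ne (left_ne_zero_of_mul hc)
    have h2 := dn_ne (right_ne_zero_of_mul hc)
    omega

/-- the homotopy identity on the total space -/
theorem contr_total (hr : ∀ n, M ≤ n → r n = 0)
    {X : ∀ n, Matrix (Fin (r (n + 1))) (Fin (r n)) D}
    {Y : ∀ n, Matrix (Fin (r n)) (Fin (r (n + 1))) D}
    (h0 : Y 0 * X 0 = 1) (h1 : ∀ n, X n * Y n + Y (n + 1) * X (n + 1) = 1) :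
    dn M X * up M Y + up M Y * dn M X = 1 := by
  -- the second product in degree `n`
  have hYX : ∀ (n : ℕ) (hn : n < M) (a b : Fin (r n)),
      (up M Y * dn M X) ⟨⟨n, hn⟩, a⟩ ⟨⟨n, hn⟩, b⟩ = (Y n * X n) a b := by
    intro n hn a b
    rw [Matrix.mul_apply, Matrix.mul_apply]
    by_cases hn1 : n + 1 < M
    · rw [sum_deg (n := n + 1) (hn := hn1)]
      · refine Finset.sum_congr rfl fun c _ => ?_
        rw [dn_apply X hn1 hn, up_apply Y hn1 hn]
      · intro k hk
        by_contra hc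
        exact hk (dn_ne (right_ne_zero_of_mul hc))
    · rw [sum_deg_zero (n := n + 1) (hn := hn1)]
      · have h2 : r (n + 1) = 0 := hr _ (by omega)
        have : IsEmpty (Fin (r (n + 1))) := by rw [h2]; infer_instance
        exact (Fintype.sum_empty _).symm
      · intro k hk
        by_contra hc
        exact hk (dn_ne (right_ne_zero_of_mul hc))
  have hXY : ∀ (n : ℕ) (hn : n + 1 < M) (a b : Fin (r (n + 1))),
      (dn M X * up M Y) ⟨⟨n + 1, hn⟩, a⟩ ⟨⟨n + 1, hn⟩, b⟩ = (X n * Y n) a b := by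
    intro n hn a b
    rw [Matrix.mul_apply, Matrix.mul_apply]
    rw [sum_deg (n := n) (hn := by omega)]
    · refine Finset.sum_congr rfl fun c _ => ?_
      rw [dn_apply X hn (by omega), up_apply Y hn (by omega)]
    · intro k hk
      by_contra hc
      have := dn_ne (left_ne_zero_of_mul hc)
      simp only at this
      omega
  ext i j
  rw [Matrix.add_apply]
  by_cases hij : (i.1 : ℕ) = j.1
  · obtain ⟨⟨n, hn⟩, b⟩ := j
    obtain ⟨⟨m, hm⟩, a⟩ := i
    have hm' : m = n := hij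
    subst hm'
    have hone : (1 : Matrix (Ix r M) (Ix r M) D) ⟨⟨m, hm⟩, a⟩ ⟨⟨m, hn⟩, b⟩ =
        (1 : Matrix (Fin (r m)) (Fin (r m)) D) a b := by
      rw [Matrix.one_apply, Matrix.one_apply]
      by_cases hab : a = b
      · rw [if_pos hab, if_pos (by rw [hab])]
      · rw [if_neg hab, if_neg]
        intro h
        apply hab
        have h2 := (Sigma.mk.inj_iff.1 h).2
        exact eq_of_heq h2
    rw [hone, hYX m hm]
    cases m with
    | zero =>
      have h2 : (dn M X * up M Y) ⟨⟨0, hm⟩, a⟩ ⟨⟨0, hn⟩, b⟩ = 0 := by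
        rw [Matrix.mul_apply]
        refine Finset.sum_eq_zero fun k _ => ?_
        by_contra hc
        have h1 := dn_ne (left_ne_zero_of_mul hc)
        simp only at h1
        omega
      rw [h2, zero_add, h0]
    | succ m =>
      rw [hXY m hm, ← Matrix.add_apply, h1]
  · have hne : i ≠ j := by
      rintro rfl
      exact hij rfl
    rw [Matrix.one_apply_ne hne, Matrix.mul_apply, Matrix.mul_apply, Finset.sum_eq_zero,
      Finset.sum_eq_zero, add_zero]
    · intro k _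
      by_contra hc
      have h1 := up_ne (left_ne_zero_of_mul hc)
      have h2 := dn_ne (right_ne_zero_of_mul hc)
      omega
    · intro k _
      by_contra hc
      have h1 := dn_ne (left_ne_zero_of_mul hc)
      have h2 := up_ne (right_ne_zero_of_mul hc)
      omega

/-- the part of the total space with degrees congruent to `p` modulo two -/
abbrev Pt (r : ℕ → ℕ) (M p : ℕ) : Type := {i : Ix r M // (i.1 : ℕ) % 2 = p}

/-- the matrix `d + s` from the part of parity `p` to the part of parity `q` -/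
def Tm (M p q : ℕ) (X : ∀ n, Matrix (Fin (r (n + 1))) (Fin (r n)) D)
    (Y : ∀ n, Matrix (Fin (r n)) (Fin (r (n + 1))) D) : Matrix (Pt r M p) (Pt r M q) D :=
  (dn M X + up M Y).submatrix Subtype.val Subtype.val

/-- `Y` is a contraction of the complex `X`. -/
structure Contr (X : ∀ n, Matrix (Fin (r (n + 1))) (Fin (r n)) D)
    (Y : ∀ n, Matrix (Fin (r n)) (Fin (r (n + 1))) D) : Prop where
  zero : Y 0 * X 0 = 1
  succ : ∀ n, X n * Y n + Y (n + 1) * X (n + 1) = 1

theorem alg_id {R : Type} [Ring R] {d s t : R} (h0 : d * d = 0) (h1 : d * s + s * d = 1)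
    (h2 : d * t + t * d = 1) :
    (d * (t - s)) ^ 2 = 0 ∧
      (d + s) * (d + t) = (1 + d * (t - s)) * (1 + (1 - d * (t - s)) * (s * t)) := by
  have e1 : (t - s) * d = - (d * (t - s)) := by
    rw [sub_mul, mul_sub]
    have a1 : s * d = 1 - d * s := by rw [← h1]; abel
    have a2 : t * d = 1 - d * t := by rw [← h2]; abel
    rw [a1, a2]
    abel
  have e2 : (d * (t - s)) ^ 2 = 0 := by
    rw [pow_two, mul_assoc, ← mul_assoc (t - s), e1, neg_mul, mul_neg, mul_assoc, ← mul_assoc d,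
      h0, zero_mul, neg_zero]
  refine ⟨e2, ?_⟩
  have e3 : (d + s) * (d + t) = 1 + d * (t - s) + s * t := by
    rw [mul_add, add_mul, add_mul, h0, mul_sub]
    have a1 : s * d = 1 - d * s := by rw [← h1]; abel
    rw [a1]
    abel
  have e4 : (1 + d * (t - s)) * (1 - d * (t - s)) = 1 := by
    have : (1 + d * (t - s)) * (1 - d * (t - s)) = 1 - (d * (t - s)) ^ 2 := by
      rw [pow_two]
      noncomm_ring
    rw [this, e2, sub_zero]
  have e5 : (1 + d * (t - s)) * (1 + (1 - d * (t - s)) * (s * t)) =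
      (1 + d * (t - s)) + ((1 + d * (t - s)) * (1 - d * (t - s))) * (s * t) := by
    rw [mul_add, mul_one, ← mul_assoc]
  rw [e5, e4, one_mul]
  exact e3

/-- restriction of a product of parity changing matrices -/
theorem sub_mul {p q : ℕ} (hpq : p + q = 1) {A B : Matrix (Ix r M) (Ix r M) D}
    (hA : ∀ i j, A i j ≠ 0 → (i.1 : ℕ) % 2 ≠ (j.1 : ℕ) % 2) :
    (A.submatrix Subtype.val Subtype.val : Matrix (Pt r M p) (Pt r M q) D) *
      (B.submatrix Subtype.val Subtype.val : Matrix (Pt r M q) (Pt r M p) D) =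
    ((A * B).submatrix Subtype.val Subtype.val : Matrix (Pt r M p) (Pt r M p) D) := by
  ext i j
  rw [Matrix.mul_apply, Matrix.submatrix_apply, Matrix.mul_apply]
  rw [← Fintype.sum_subtype_add_sum_subtype (fun k : Ix r M => (k.1 : ℕ) % 2 = q)]
  have h0 : ∑ k : {k : Ix r M // ¬ (k.1 : ℕ) % 2 = q}, A i.1 k.1 * B k.1 j.1 = 0 := by
    refine Finset.sum_eq_zero fun k _ => ?_
    by_contra hc
    have h1 := hA _ _ (left_ne_zero_of_mul hc)
    have h2 := k.2
    have h3 := i.2
    omega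
  rw [h0, add_zero]
  rfl

/-- restriction of a product of parity preserving matrices -/
theorem sub_mul' {p : ℕ} {A B : Matrix (Ix r M) (Ix r M) D}
    (hA : ∀ i j, A i j ≠ 0 → (i.1 : ℕ) % 2 = (j.1 : ℕ) % 2) :
    (A.submatrix Subtype.val Subtype.val : Matrix (Pt r M p) (Pt r M p) D) *
      (B.submatrix Subtype.val Subtype.val : Matrix (Pt r M p) (Pt r M p) D) =
    ((A * B).submatrix Subtype.val Subtype.val : Matrix (Pt r M p) (Pt r M p) D) := by
  ext i j
  rw [Matrix.mul_apply, Matrix.submatrix_apply, Matrix.mul_apply]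
  rw [← Fintype.sum_subtype_add_sum_subtype (fun k : Ix r M => (k.1 : ℕ) % 2 = p)]
  have h0 : ∑ k : {k : Ix r M // ¬ (k.1 : ℕ) % 2 = p}, A i.1 k.1 * B k.1 j.1 = 0 := by
    refine Finset.sum_eq_zero fun k _ => ?_
    by_contra hc
    exact k.2 (by rw [← hA _ _ (left_ne_zero_of_mul hc), i.2])
  rw [h0, add_zero]
  rfl

theorem dn_up_ne {X : ∀ n, Matrix (Fin (r (n + 1))) (Fin (r n)) D}
    {Y : ∀ n, Matrix (Fin (r n)) (Fin (r (n + 1))) D} {i j : Ix r M}
    (h : (dn M X + up M Y) i j ≠ 0) : (i.1 : ℕ) = j.1 + 1 ∨ (j.1 : ℕ) = i.1 + 1 := by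
  rw [Matrix.add_apply] at h
  by_cases h1 : dn M X i j = 0
  · rw [h1, zero_add] at h
    exact Or.inr (up_ne h)
  · exact Or.inl (dn_ne h1)

theorem one_sub (p : ℕ) : ((1 : Matrix (Ix r M) (Ix r M) D).submatrix Subtype.val Subtype.val :
    Matrix (Pt r M p) (Pt r M p) D) = 1 := by
  ext i j
  rw [Matrix.submatrix_apply, Matrix.one_apply, Matrix.one_apply]
  simp only [Subtype.coe_inj]

/-- The product of the two halves is a product of unipotent matrices, also after stabilization. -/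
theorem half_mul {p q : ℕ} (hpq : p + q = 1) (hr : ∀ n, M ≤ n → r n = 0)
    {X : ∀ n, Matrix (Fin (r (n + 1))) (Fin (r n)) D} (hX : ∀ n, X (n + 1) * X n = 0)
    {Y Y' : ∀ n, Matrix (Fin (r n)) (Fin (r (n + 1))) D} (hY : Contr X Y) (hY' : Contr X Y')
    (k : ℕ) :
    ∃ F G : Matrix (Pt r M p ⊕ Fin k) (Pt r M p ⊕ Fin k) D, F ^ 2 = 0 ∧ G ^ (M + 1) = 0 ∧
      (fromBlocks (Tm M p q X Y) 0 0 1 : Matrix (Pt r M p ⊕ Fin k) (Pt r M q ⊕ Fin k) D) *
        (fromBlocks (Tm M q p X Y') 0 0 1 : Matrix (Pt r M q ⊕ Fin k) (Pt r M p ⊕ Fin k) D) =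
        (1 + F) * (1 + G) := by
  have h0 := dn_mul_dn (M := M) hX
  have h1 := contr_total hr hY.zero hY.succ
  have h2 := contr_total hr hY'.zero hY'.succ
  obtain ⟨e1, e2⟩ := alg_id h0 h1 h2
  set N := dn M X * (up M Y' - up M Y) with hN
  set N' := (1 - N) * (up M Y * up M Y') with hN'
  have hNd : ∀ i j, N i j ≠ 0 → (i.1 : ℕ) = j.1 := by
    intro i j hij
    rw [hN, Matrix.mul_apply] at hij
    obtain ⟨l, -, hl⟩ := Finset.exists_ne_zero_of_sum_ne_zero hij
    have a1 := dn_ne (left_ne_zero_of_mul hl)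
    have a2 := right_ne_zero_of_mul hl
    rw [Matrix.sub_apply] at a2
    by_cases a3 : up M Y l j = 0
    · rw [a3, sub_zero] at a2
      have := up_ne a2
      omega
    · have := up_ne a3
      omega
  have hNd' : ∀ i j, N' i j ≠ 0 → (j.1 : ℕ) = i.1 + 2 := by
    intro i j hij
    rw [hN', Matrix.mul_apply] at hij
    obtain ⟨l, -, hl⟩ := Finset.exists_ne_zero_of_sum_ne_zero hij
    have a1 := left_ne_zero_of_mul hl
    have a2 := right_ne_zero_of_mul hl
    rw [Matrix.mul_apply] at a2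
    obtain ⟨m, -, hm⟩ := Finset.exists_ne_zero_of_sum_ne_zero a2
    have a3 := up_ne (left_ne_zero_of_mul hm)
    have a4 := up_ne (right_ne_zero_of_mul hm)
    have a5 : (i.1 : ℕ) = l.1 := by
      by_cases a6 : i = l
      · rw [a6]
      · rw [Matrix.sub_apply, Matrix.one_apply_ne a6, zero_sub, neg_ne_zero] at a1
        exact hNd _ _ a1
    omega
  refine ⟨fromBlocks (N.submatrix Subtype.val Subtype.val) 0 0 0,
    fromBlocks (N'.submatrix Subtype.val Subtype.val) 0 0 0, ?_, ?_, ?_⟩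
  · rw [pow_two, Matrix.fromBlocks_multiply]
    simp only [Matrix.mul_zero, add_zero, Matrix.zero_mul]
    rw [sub_mul' (fun i j hij => by rw [hNd i j hij]), ← pow_two, e1]
    ext i j
    rcases i with i | i <;> rcases j with j | j <;> rfl
  · refine nilp_of_deg (fun i => Sum.elim (fun i => ((i.1.1 : Fin M) : ℕ)) (fun _ => 0) i) ?_ ?_
    · rintro (i | i)
      · have := i.1.1.2
        simp only [Sum.elim_inl]
        omega
      · simp only [Sum.elim_inr]
        omega
    · rintro (i | i) (j | j) hij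
      · have := hNd' _ _ hij
        simp only [Sum.elim_inl]
        omega
      · exact absurd rfl hij
      · exact absurd rfl hij
      · exact absurd rfl hij
  · have hadd : ∀ A B : Matrix (Ix r M) (Ix r M) D,
        ((A + B).submatrix Subtype.val Subtype.val : Matrix (Pt r M p) (Pt r M p) D) =
        A.submatrix Subtype.val Subtype.val + B.submatrix Subtype.val Subtype.val :=
      fun A B => rfl
    have hone : ∀ A : Matrix (Pt r M p) (Pt r M p) D,
        (1 + fromBlocks A 0 0 0 : Matrix (Pt r M p ⊕ Fin k) (Pt r M p ⊕ Fin k) D) =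
        fromBlocks (1 + A) 0 0 1 := by
      intro A
      rw [← Matrix.fromBlocks_one, Matrix.fromBlocks_add]
      simp only [add_zero]
    rw [hone, hone, Matrix.fromBlocks_multiply, Matrix.fromBlocks_multiply]
    simp only [Matrix.mul_zero, add_zero, Matrix.zero_mul, zero_add, Matrix.mul_one]
    have e3 : Tm M p q X Y * Tm M q p X Y' =
        (1 + N.submatrix Subtype.val Subtype.val) * (1 + N'.submatrix Subtype.val Subtype.val) := by
      unfold Tm
      rw [sub_mul hpq (fun i j hij => by rcases dn_up_ne hij with h | h <;> omega), e2,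
        ← sub_mul' (M := M)]
      · rw [hadd, hadd, one_sub]
      · intro i j hij
        by_cases hij' : i = j
        · rw [hij']
        · rw [Matrix.add_apply, Matrix.one_apply_ne hij', zero_add] at hij
          rw [hNd i j hij]
    rw [e3]

end complex

section elim

variable {n : ℕ}

theorem tv_mem_El {i j : Fin n} (hij : i ≠ j) (c : D) : tv i j c ∈ El D n :=
  Submonoid.subset_closure ⟨i, j, c, hij, rfl⟩

theorem El_inv {P : Matrix (Fin n) (Fin n) D} (hP : P ∈ El D n) :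
    ∃ P' ∈ El D n, P * P' = 1 ∧ P' * P = 1 := by
  unfold El at hP
  induction hP using Submonoid.closure_induction with
  | mem x hx =>
    obtain ⟨i, j, c, hij, rfl⟩ := hx
    exact ⟨tv i j (-c), tv_mem_El hij _, by rw [tv_mul_tv hij, add_neg_cancel, tv_zero],
      by rw [tv_mul_tv hij, neg_add_cancel, tv_zero]⟩
  | one => exact ⟨1, one_mem _, mul_one _, mul_one _⟩
  | mul x y _ _ hx hy =>
    obtain ⟨x', hx', h1, h2⟩ := hx
    obtain ⟨y', hy', h3, h4⟩ := hy
    refine ⟨y' * x', mul_mem hy' hx', ?_, ?_⟩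
    · rw [Matrix.mul_assoc, ← Matrix.mul_assoc y, h3, Matrix.one_mul, h1]
    · rw [Matrix.mul_assoc, ← Matrix.mul_assoc x', h2, Matrix.one_mul, h4]

theorem dg_conj_tv {i j : Fin n} (hij : i ≠ j) (k : Fin n) (c a : D) (hc : c ≠ 0) :
    ∃ a' : D, dg k c * tv i j a = tv i j a' * dg k c := by
  refine ⟨(if i = k then c else 1) * a * (if j = k then c⁻¹ else 1), ?_⟩
  refine Matrix.ext fun p q => ?_
  rw [dg_mul_apply, tv_mul_apply]
  unfold tv dg
  rw [Matrix.add_apply, Matrix.one_apply, Matrix.single_apply, Matrix.diagonal_apply,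
    Matrix.diagonal_apply, Function.update_apply, Function.update_apply]
  by_cases h1 : p = k
  · subst h1
    by_cases h2 : i = p
    · subst h2
      simp only [if_true, true_and]
      by_cases h3 : j = i
      · exact absurd h3.symm hij
      · simp only [if_neg h3]
        by_cases h4 : j = q
        · subst h4
          simp [hij, h3, Ne.symm h3]
        · by_cases h5 : i = q
          · subst h5
            simp [h3]
          · simp [h4, h5]
    · have h6 : ¬ (i = p ∧ j = q) := fun h => h2 h.1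
      have h7 : ¬ p = i := fun h => h2 h.symm
      rw [if_neg h6, if_neg h7, add_zero, add_zero, if_pos rfl, if_pos rfl]
      by_cases h5 : p = q
      · rw [if_pos h5, if_pos h5, mul_one]
      · rw [if_neg h5, if_neg h5, mul_zero]
  · simp only [if_neg h1]
    by_cases h2 : i = p
    · subst h2
      simp only [true_and, if_true, if_neg h1, one_mul]
      by_cases h4 : j = q
      · subst h4
        simp only [if_true]
        by_cases h5 : j = k
        · subst h5
          simp [hij, hc]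
        · simp [h5]
      · simp [h4]
    · have h6 : ¬ (i = p ∧ j = q) := fun h => h2 h.1
      have h7 : ¬ p = i := fun h => h2 h.symm
      rw [if_neg h6, if_neg h7, add_zero]

/-- The elementary matrices `diag (c, ..., c⁻¹, ...)`. -/
theorem dg_swap {i j : Fin n} (hij : i ≠ j) {c : D} (hc : c ≠ 0) :
    ∃ P ∈ El D n, dg i c = P * dg j c := by
  -- `diag (c, c⁻¹)` at `(i, j)`
  refine ⟨dg i c * dg j c⁻¹, ?_, ?_⟩
  · have key : ∀ A : Matrix (Fin n) (Fin n) D, dg i c * (dg j c⁻¹ * A) =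
        tv i j c * (tv j i (-c⁻¹) * (tv i j c * (tv i j (-1) * (tv j i 1 * (tv i j (-1) * A))))) := by
      intro A
      refine Matrix.ext fun k l => ?_
      simp only [dg_mul_apply, tv_mul_apply]
      have hji : ¬ j = i := fun h => hij h.symm
      by_cases hk : k = i
      · rw [hk]
        simp only [if_true, if_neg hij, if_neg hji, add_zero]
        generalize A i l = x
        generalize A j l = y
        have e : c * (c⁻¹ * y) = y := by rw [← mul_assoc, mul_inv_cancel₀ hc, one_mul]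
        have e' : c * (c⁻¹ * (c * x)) = c * x := by
          rw [← mul_assoc c⁻¹, inv_mul_cancel₀ hc, one_mul]
        simp only [mul_add, neg_mul, mul_neg, one_mul, mul_sub, mul_neg, e, e']
        abel
      · by_cases hk' : k = j
        · rw [hk']
          simp only [if_true, if_neg hij, if_neg hji, add_zero]
          generalize A i l = x
          generalize A j l = y
          have e' : c⁻¹ * (c * x) = x := by rw [← mul_assoc, inv_mul_cancel₀ hc, one_mul]
          simp only [mul_add, neg_mul, mul_neg, one_mul, mul_sub, mul_neg, e']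
          have e'' : c⁻¹ * (c * y) = y := by rw [← mul_assoc, inv_mul_cancel₀ hc, one_mul]
          simp only [e'']
          abel
        · simp only [if_neg hk, if_neg hk', add_zero]
    have h := key 1
    rw [Matrix.mul_one, Matrix.mul_one] at h
    rw [h]
    exact mul_mem (tv_mem_El hij _) (mul_mem (tv_mem_El (Ne.symm hij) _)
      (mul_mem (tv_mem_El hij _) (mul_mem (tv_mem_El hij _) (mul_mem (tv_mem_El (Ne.symm hij) _)
      (tv_mem_El hij _)))))
  · rw [Matrix.mul_assoc, dg_mul_dg, inv_mul_cancel₀ hc, dg_one, Matrix.mul_one]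

theorem dg_conj_El (k : Fin n) {c : D} (hc : c ≠ 0) {P : Matrix (Fin n) (Fin n) D}
    (hP : P ∈ El D n) : ∃ P' ∈ El D n, dg k c * P = P' * dg k c := by
  unfold El at hP
  induction hP using Submonoid.closure_induction with
  | mem x hx =>
    obtain ⟨i, j, a, hij, rfl⟩ := hx
    obtain ⟨a', ha'⟩ := dg_conj_tv hij k c a hc
    exact ⟨_, tv_mem_El hij a', ha'⟩
  | one => exact ⟨1, one_mem _, by rw [mul_one, one_mul]⟩
  | mul x y _ _ hx hy =>
    obtain ⟨x', hx', h1⟩ := hx
    obtain ⟨y', hy', h2⟩ := hy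
    refine ⟨x' * y', mul_mem hx' hy', ?_⟩
    rw [← Matrix.mul_assoc, h1, Matrix.mul_assoc, h2, Matrix.mul_assoc]

theorem Gr_form {E : Matrix (Fin (n + 1)) (Fin (n + 1)) D} (hE : E ∈ Gr D (n + 1)) :
    ∃ P ∈ El D (n + 1), ∃ x : D, x ≠ 0 ∧ E = P * dg 0 x := by
  unfold Gr at hE
  induction hE using Submonoid.closure_induction with
  | mem x hx =>
    rcases hx with ⟨i, j, c, hij, rfl⟩ | ⟨i, c, hc, rfl⟩
    · exact ⟨_, tv_mem_El hij c, 1, one_ne_zero, by rw [dg_one, Matrix.mul_one]⟩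
    · by_cases hi : i = 0
      · subst hi
        exact ⟨1, one_mem _, c, hc, by rw [Matrix.one_mul]⟩
      · obtain ⟨P, hP, h⟩ := dg_swap hi hc
        exact ⟨P, hP, c, hc, h⟩
  | one => exact ⟨1, one_mem _, 1, one_ne_zero, by rw [dg_one, Matrix.mul_one]⟩
  | mul x y _ _ hx hy =>
    obtain ⟨P, hP, a, ha, rfl⟩ := hx
    obtain ⟨Q, hQ, b, hb, rfl⟩ := hy
    obtain ⟨Q', hQ', h⟩ := dg_conj_El 0 ha hQ
    refine ⟨P * Q', mul_mem hP hQ', a * b, mul_ne_zero ha hb, ?_⟩
    rw [← dg_mul_dg, Matrix.mul_assoc P, ← Matrix.mul_assoc _ Q, h]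
    simp only [Matrix.mul_assoc]

/-- Every invertible matrix over a division ring has a representative of its class in `K_1`. -/
theorem exists_K1 {A : Matrix (Fin (n + 1)) (Fin (n + 1)) D} (hA : IsUnit A) :
    ∃ x : D, x ≠ 0 ∧ ∃ P ∈ El D (n + 1), ∃ Q ∈ El D (n + 1), A = P * dg 0 x * Q := by
  obtain ⟨E, hE, hEA⟩ := exists_elim hA
  obtain ⟨P, hP, x, hx, rfl⟩ := Gr_form hE
  obtain ⟨P', hP', h1, h2⟩ := El_inv hP
  refine ⟨x⁻¹, inv_ne_zero hx, 1, one_mem _, P', hP', ?_⟩
  have h3 : dg 0 x⁻¹ * P' * (P * dg 0 x * A) = A := by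
    calc dg 0 x⁻¹ * P' * (P * dg 0 x * A) = dg 0 x⁻¹ * (P' * P) * dg 0 x * A := by
          simp only [Matrix.mul_assoc]
      _ = A := by rw [h2, Matrix.mul_one, dg_mul_dg, inv_mul_cancel₀ hx, dg_one, Matrix.one_mul]
  rw [hEA, Matrix.mul_one] at h3
  rw [Matrix.one_mul]
  exact h3.symm

end elim

section rep

variable {κ₁ κ₂ : Type} [Fintype κ₁] [DecidableEq κ₁] [Fintype κ₂] [DecidableEq κ₂]

/-- `x` represents the class of the matrix `T` in `K_1(D)`: after stabilization and numbering of the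
bases, the matrix `T` can be transformed to the matrix `diag (x, 1, ..., 1)` by elementary row and
column operations. -/
def K1Rep (T : Matrix κ₁ κ₂ D) (x : D) : Prop :=
  ∃ (k n : ℕ) (e₁ : κ₁ ⊕ Fin k ≃ Fin (n + 1)) (e₂ : κ₂ ⊕ Fin k ≃ Fin (n + 1))
    (P Q : Matrix (Fin (n + 1)) (Fin (n + 1)) D), P ∈ El D (n + 1) ∧ Q ∈ El D (n + 1) ∧
      (fromBlocks T 0 0 1 : Matrix (κ₁ ⊕ Fin k) (κ₂ ⊕ Fin k) D).submatrix e₁.symm e₂.symm =
        P * dg 0 x * Q

theorem card_le_of_mul {A : Matrix κ₁ κ₂ D} {B : Matrix κ₂ κ₁ D} {F G : Matrix κ₁ κ₁ D} {k l : ℕ}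
    (hF : F ^ k = 0) (hG : G ^ l = 0) (hAB : A * B = (1 + F) * (1 + G)) :
    Fintype.card κ₁ ≤ Fintype.card κ₂ := by
  have hU : IsUnit ((1 + F) * (1 + G)) :=
    (IsNilpotent.isUnit_one_add ⟨k, hF⟩).mul (IsNilpotent.isUnit_one_add ⟨l, hG⟩)
  let f : (κ₁ → D) →ₗ[D] (κ₂ → D) :=
    { toFun := fun v => Matrix.vecMul v A
      map_add' := fun v w => Matrix.add_vecMul A v w
      map_smul' := fun c v => Matrix.smul_vecMul c v A }
  have hf : Function.Injective f := by
    rw [injective_iff_map_eq_zero]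
    intro v hv
    refine vecMul_inj hU ?_
    rw [← hAB, ← Matrix.vecMul_vecMul]
    have : Matrix.vecMul v A = 0 := hv
    rw [this, Matrix.zero_vecMul]
  have h := LinearMap.finrank_le_finrank_of_injective hf
  rwa [Module.finrank_fintype_fun_eq_card, Module.finrank_fintype_fun_eq_card] at h

variable {r : ℕ → ℕ} {M : ℕ}

/-- The torsion has a representative. -/
theorem exists_rep (hr : ∀ n, M ≤ n → r n = 0)
    {X : ∀ n, Matrix (Fin (r (n + 1))) (Fin (r n)) D} (hX : ∀ n, X (n + 1) * X n = 0)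
    {Y : ∀ n, Matrix (Fin (r n)) (Fin (r (n + 1))) D} (hY : Contr X Y) :
    ∃ x : D, x ≠ 0 ∧ K1Rep (Tm M 1 0 X Y) x := by
  obtain ⟨F, G, hF, hG, h1⟩ := half_mul (p := 1) (q := 0) rfl hr hX hY hY 1
  obtain ⟨F', G', hF', hG', h1'⟩ := half_mul (p := 0) (q := 1) rfl hr hX hY hY 1
  have hc : Fintype.card (Pt r M 1 ⊕ Fin 1) = Fintype.card (Pt r M 0 ⊕ Fin 1) :=
    le_antisymm (card_le_of_mul hF hG h1) (card_le_of_mul hF' hG' h1')
  have hpos : Fintype.card (Pt r M 1 ⊕ Fin 1) = Fintype.card (Pt r M 1) + 1 := by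
    rw [Fintype.card_sum, Fintype.card_fin]
  let e₁ : Pt r M 1 ⊕ Fin 1 ≃ Fin (Fintype.card (Pt r M 1) + 1) := Fintype.equivFinOfCardEq hpos
  let e₂ : Pt r M 0 ⊕ Fin 1 ≃ Fin (Fintype.card (Pt r M 1) + 1) :=
    Fintype.equivFinOfCardEq (hc.symm.trans hpos)
  obtain ⟨hA, -, -⟩ := wt_pair (w := fun _ : D => 0) (fun _ _ _ _ => rfl) e₁ e₂ hF hG h1
  obtain ⟨x, hx, P, hP, Q, hQ, h⟩ := exists_K1 hA
  exact ⟨x, hx, 1, _, e₁, e₂, P, Q, hP, hQ, h⟩

/-- The weight of a representative of the torsion is determined by the even half of a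
contraction. -/
theorem rep_wt {w : D → ℤ} (hw : IsW w) (hr : ∀ n, M ≤ n → r n = 0)
    {X : ∀ n, Matrix (Fin (r (n + 1))) (Fin (r n)) D} (hX : ∀ n, X (n + 1) * X n = 0)
    {Y Y' : ∀ n, Matrix (Fin (r n)) (Fin (r (n + 1))) D} (hY : Contr X Y) (hY' : Contr X Y')
    {x : D} (hx : x ≠ 0) (hrep : K1Rep (Tm M 1 0 X Y) x) :
    ∃ (k n : ℕ) (e₁ : Pt r M 1 ⊕ Fin k ≃ Fin (n + 1)) (e₂ : Pt r M 0 ⊕ Fin k ≃ Fin (n + 1)),
      IsUnit ((fromBlocks (Tm M 0 1 X Y') 0 0 1 :
        Matrix (Pt r M 0 ⊕ Fin k) (Pt r M 1 ⊕ Fin k) D).submatrix e₂.symm e₁.symm) ∧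
      w x + wt w (n + 1) ((fromBlocks (Tm M 0 1 X Y') 0 0 1 :
        Matrix (Pt r M 0 ⊕ Fin k) (Pt r M 1 ⊕ Fin k) D).submatrix e₂.symm e₁.symm) = 0 := by
  obtain ⟨k, n, e₁, e₂, P, Q, hP, hQ, h⟩ := hrep
  obtain ⟨F, G, hF, hG, h1⟩ := half_mul (p := 1) (q := 0) rfl hr hX hY hY' k
  obtain ⟨hA, hB, h2⟩ := wt_pair hw e₁ e₂ hF hG h1
  refine ⟨k, n, e₁, e₂, hB, ?_⟩
  obtain ⟨uP, wP⟩ := wt_El hw hP
  obtain ⟨uQ, wQ⟩ := wt_El hw hQ
  rw [h, wt_mul hw (uP.mul (isUnit_dg 0 hx)) uQ, wt_mul hw uP (isUnit_dg 0 hx), wP, wQ, wt_dg hw 0 hx,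
    zero_add, add_zero] at h2
  exact h2

/-- If the complex and the even part of some contraction have entries in a Euclidean ring, then
the torsion has weight at most zero. -/
theorem rep_nonpos {w : D → ℤ} {S : Subring D} (hS : IsEuc w S) (hr : ∀ n, M ≤ n → r n = 0)
    {X : ∀ n, Matrix (Fin (r (n + 1))) (Fin (r n)) D} (hX : ∀ n, X (n + 1) * X n = 0)
    {Y Y' : ∀ n, Matrix (Fin (r n)) (Fin (r (n + 1))) D} (hY : Contr X Y) (hY' : Contr X Y')
    (hXS : ∀ n i j, X n i j ∈ S) (hYS : ∀ n, n % 2 = 0 → ∀ i j, Y' n i j ∈ S)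
    {x : D} (hx : x ≠ 0) (hrep : K1Rep (Tm M 1 0 X Y) x) : w x ≤ 0 := by
  obtain ⟨k, n, e₁, e₂, hu, h⟩ := rep_wt hS.mul hr hX hY hY' hx hrep
  have h1 := hS.wt_nonneg _ _ hu (by
    intro i j
    rw [Matrix.submatrix_apply]
    rcases e₂.symm i with a | a <;> rcases e₁.symm j with b | b
    · rw [Matrix.fromBlocks_apply₁₁]
      show (dn M X + up M Y') a.1 b.1 ∈ S
      rw [Matrix.add_apply]
      refine add_mem ?_ ?_
      · unfold dn
        split_ifs
        · exact hXS _ _ _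
        · exact zero_mem _
      · unfold up
        split_ifs
        · exact hYS _ a.2 _ _
        · exact zero_mem _
    · rw [Matrix.fromBlocks_apply₁₂]
      exact zero_mem _
    · rw [Matrix.fromBlocks_apply₂₁]
      exact zero_mem _
    · rw [Matrix.fromBlocks_apply₂₂, Matrix.one_apply]
      split_ifs
      · exact one_mem _
      · exact zero_mem _)
  omega

end rep

end Pool.Agent.TH19.Tors
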