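import Pool.Agent.TH19.Unt
import Pool.Agent.TH19.Tors
import Pool.Agent.Helper970.V7.Defs

set_option autoImplicit false
set_option linter.unusedSectionVars false

/-!
# The torsion of a resolution has weight at most zero
-/

namespace Pool.Agent.TH19.Main1

open TN970 Pool.Agent.TH19.Val Pool.Agent.TH19.Det Pool.Agent.TH19.Ser Pool.Agent.TH19.Tors

variable {Γ : Type} [Group Γ] {D : Type} [DivisionRing D]

/-- the complex `D ⊗ C` -/
noncomputable def dD (u : Γ →* Dˣ) (C : V7N.FreeRes Γ) (n : ℕ) :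
    Matrix (Fin (C.r (n + 1))) (Fin (C.r n)) D := (C.d n).map (ev u)

variable {u : Γ →* Dˣ} {C : V7N.FreeRes Γ}

theorem dD_mul (n : ℕ) : dD u C (n + 1) * dD u C n = 0 := by
  unfold dD
  rw [← Matrix.map_mul]
  have h : C.d (n + 1) * C.d n = 0 := by
    refine Matrix.ext fun a b => ?_
    have h := (C.exact_succ n (Matrix.vecMul (Pi.single a 1) (C.d (n + 1)))).2 ⟨_, rfl⟩
    rw [Matrix.vecMul_vecMul] at h
    have h2 := congrFun h b
    rw [Matrix.single_one_vecMul] at h2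
    exact h2
  rw [h, Matrix.map_zero _ (map_zero _)]

/-- lifting of rows -/
theorem lift_rows {a b c : ℕ} {A : Matrix (Fin b) (Fin c) D} {B : Matrix (Fin a) (Fin b) D}
    (hex : ∀ v : Fin b → D, Matrix.vecMul v A = 0 → ∃ w, v = Matrix.vecMul w B) {k : ℕ}
    (N : Matrix (Fin k) (Fin b) D) (hN : N * A = 0) : ∃ W : Matrix (Fin k) (Fin a) D, N = W * B := by
  have h1 : ∀ i, ∃ w, N i = Matrix.vecMul w B := by
    intro i
    apply hex
    funext j
    exact congrFun (congrFun hN i) j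
  choose W hW using h1
  refine ⟨W, ?_⟩
  refine Matrix.ext fun i j => ?_
  exact congrFun (hW i) j

/-- The complex is chain contractible above degree two. -/
def Small (C : V7N.FreeRes Γ) : Prop :=
  ∃ h : ∀ n, Matrix (Fin (C.r n)) (Fin (C.r (n + 1))) (MonoidAlgebra ℤ Γ),
    ∀ n, 2 ≤ n → C.d n * h n + h (n + 1) * C.d (n + 1) = 1

theorem exists_contr (hex : ∀ n (v : Fin (C.r (n + 1)) → D), Matrix.vecMul v (dD u C n) = 0 →
      ∃ w, v = Matrix.vecMul w (dD u C (n + 1)))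
    {h : ∀ n, Matrix (Fin (C.r n)) (Fin (C.r (n + 1))) (MonoidAlgebra ℤ Γ)}
    (hh : ∀ n, 2 ≤ n → C.d n * h n + h (n + 1) * C.d (n + 1) = 1)
    (s0 : Matrix (Fin (C.r 0)) (Fin (C.r 1)) D) (hs0 : s0 * dD u C 0 = 1) :
    ∃ Y : ∀ n, Matrix (Fin (C.r n)) (Fin (C.r (n + 1))) D, Contr (dD u C) Y ∧ Y 0 = s0 ∧
      ∀ n, 2 ≤ n → Y n = (h n).map (ev u) := by
  -- the relations over `D`
  have hh' : ∀ n, 2 ≤ n → dD u C n * (h n).map (ev u) + (h (n + 1)).map (ev u) * dD u C (n + 1) =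
      1 := by
    intro n hn
    unfold dD
    rw [← Matrix.map_mul, ← Matrix.map_mul, ← Matrix.map_add _ (map_add _), hh n hn,
      Matrix.map_one _ (map_zero _) (map_one _)]
  obtain ⟨W, hW⟩ := lift_rows (hex 0) (1 - dD u C 0 * s0) (by
    rw [Matrix.sub_mul, Matrix.one_mul, Matrix.mul_assoc, hs0, Matrix.mul_one, sub_self])
  set E : Matrix (Fin (C.r 2)) (Fin (C.r 2)) D := 1 - (h 2).map (ev u) * dD u C 2 with hE
  have hE1 : E * dD u C 1 = dD u C 1 := by
    rw [hE, Matrix.sub_mul, Matrix.one_mul, Matrix.mul_assoc, dD_mul, Matrix.mul_zero, sub_zero]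
  have hE2 : dD u C 2 * E = 0 := by
    have h1 := congrArg (fun Z => Z * dD u C 2) (hh' 2 le_rfl)
    simp only [Matrix.add_mul, Matrix.one_mul, Matrix.mul_assoc, dD_mul, Matrix.mul_zero,
      add_zero] at h1
    rw [hE, Matrix.mul_sub, Matrix.mul_one, h1, sub_self]
  obtain ⟨Z, hZ⟩ := lift_rows (hex 1) (dD u C 1 * W - 1) (by
    rw [Matrix.sub_mul, Matrix.mul_assoc, ← hW, Matrix.mul_sub, Matrix.mul_one, ← Matrix.mul_assoc,
      dD_mul, Matrix.zero_mul, sub_zero, Matrix.one_mul, sub_self])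
  have hE3 : dD u C 1 * W * E = E := by
    have h1 : (dD u C 1 * W - 1) * E = 0 := by
      rw [hZ, Matrix.mul_assoc, hE2, Matrix.mul_zero]
    rw [Matrix.sub_mul, Matrix.one_mul, sub_eq_zero] at h1
    exact h1
  let Y : ∀ n, Matrix (Fin (C.r n)) (Fin (C.r (n + 1))) D := fun n =>
    match n with
    | 0 => s0
    | 1 => W * E
    | n + 2 => (h (n + 2)).map (ev u)
  refine ⟨Y, ⟨hs0, ?_⟩, rfl, ?_⟩
  · intro n
    match n with
    | 0 =>
      show dD u C 0 * s0 + W * E * dD u C 1 = 1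
      rw [Matrix.mul_assoc, hE1, ← hW]
      abel
    | 1 =>
      show dD u C 1 * (W * E) + (h 2).map (ev u) * dD u C 2 = 1
      rw [← Matrix.mul_assoc, hE3, hE]
      abel
    | n + 2 => exact hh' (n + 2) (by omega)
  · intro n hn
    match n, hn with
    | n + 2, _ => rfl

theorem ev_single (g : Γ) : ev u (MonoidAlgebra.single g 1) = ((u g : Dˣ) : D) := by
  unfold ev
  simp

/-- The beginning of the contraction given by an element `g` of the group. -/
theorem exists_s0 (g : Γ) (hg : ((u g : Dˣ) : D) - 1 ≠ 0) :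
    ∃ s0 : Matrix (Fin (C.r 0)) (Fin (C.r 1)) D, s0 * dD u C 0 = 1 ∧
      ∀ i j, ∃ x : MonoidAlgebra ℤ Γ, s0 i j = (((u g : Dˣ) : D) - 1)⁻¹ * ev u x := by
  classical
  have h1 : ∀ i : Fin (C.r 0), ∃ w : Fin (C.r 1) → MonoidAlgebra ℤ Γ,
      (fun j => (MonoidAlgebra.single g 1 - 1) * (Pi.single i 1 : Fin (C.r 0) → MonoidAlgebra ℤ Γ) j)
        = Matrix.vecMul w (C.d 0) := by
    intro i
    rw [← C.exact_zero]
    have h2 : (fun j => (MonoidAlgebra.single g 1 - 1) *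
        (Pi.single i 1 : Fin (C.r 0) → MonoidAlgebra ℤ Γ) j) =
        (fun j => MonoidAlgebra.single g (1 : ℤ) *
          (Pi.single i 1 : Fin (C.r 0) → MonoidAlgebra ℤ Γ) j) - Pi.single i 1 := by
      funext j
      rw [Pi.sub_apply, _root_.sub_mul, one_mul]
    rw [h2, map_sub, C.ε_smul, sub_self]
  choose w hw using h1
  refine ⟨fun i j => (((u g : Dˣ) : D) - 1)⁻¹ * ev u (w i j), ?_, fun i j => ⟨_, rfl⟩⟩
  refine Matrix.ext fun i k => ?_
  have h3 := congrArg (ev u) (congrFun (hw i) k)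
  rw [map_mul, map_sub, map_one, ev_single] at h3
  have h4 : ev u (Matrix.vecMul (w i) (C.d 0) k) = ∑ j, ev u (w i j) * dD u C 0 j k := by
    show ev u (∑ j, w i j * C.d 0 j k) = _
    rw [map_sum]
    refine Finset.sum_congr rfl fun j _ => ?_
    rw [map_mul]
    rfl
  rw [h4] at h3
  show ∑ j, (((u g : Dˣ) : D) - 1)⁻¹ * ev u (w i j) * dD u C 0 j k = _
  simp only [mul_assoc]
  rw [← Finset.mul_sum, ← h3, ← mul_assoc, inv_mul_cancel₀ hg, one_mul, Matrix.one_apply]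
  by_cases hik : i = k
  · subst hik
    rw [if_pos rfl, Pi.single_eq_same, map_one]
  · rw [if_neg hik, Pi.single_eq_of_ne (Ne.symm hik), map_zero]

/-- Theorem A: the torsion has weight at most zero. -/
theorem torsion_nonpos (hu : Linnell u) (hgen : ∀ x : D, x ∈ Dc u ⊤)
    (hΓ : IsEmpty (Γ ≃* Multiplicative ℤ)) {M : ℕ} (hr : ∀ n, M ≤ n → C.r n = 0)
    (hex : ∀ n (v : Fin (C.r (n + 1)) → D), Matrix.vecMul v (dD u C n) = 0 →
      ∃ w, v = Matrix.vecMul w (dD u C (n + 1)))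
    (hC : Small C) {Y : ∀ n, Matrix (Fin (C.r n)) (Fin (C.r (n + 1))) D}
    (hY : Contr (dD u C) Y) {x : D} (hx : x ≠ 0) (hrep : K1Rep (Tm M 1 0 (dD u C) Y) x)
    (φ ψ : Γ →* Multiplicative ℤ) : wd u φ ψ x ≤ 0 := by
  by_cases htriv : (∀ g, th φ g = 0) ∧ (∀ g, th ψ g = 0)
  · exact (wd_trivial hu hgen htriv.1 htriv.2 hx).le
  have hh : ∃ h : Γ, th φ h ≠ 0 ∨ th ψ h ≠ 0 := by
    by_contra hc
    push Not at hc
    exact htriv ⟨fun g => (hc g).1, fun g => (hc g).2⟩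
  obtain ⟨h, hh⟩ := hh
  obtain ⟨g, hg, hgS⟩ := exists_g hu hgen hΓ hh
  obtain ⟨s0, hs0, hs0S⟩ := exists_s0 (C := C) g hg
  obtain ⟨k, hk⟩ := hC
  obtain ⟨Y', hY', hY0, hY2⟩ := exists_contr hex hk s0 hs0
  refine rep_nonpos (isEuc hu hgen φ ψ) hr dD_mul hY hY' (fun n i j => ev_mem_SR _) ?_ hx hrep
  intro n hn i j
  match n, hn with
  | 0, _ =>
    rw [hY0]
    obtain ⟨y, hy⟩ := hs0S i j
    rw [hy]
    exact mul_mem hgS (ev_mem_SR _)
  | n + 2, _ =>
    rw [hY2 (n + 2) (by omega)]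
    exact ev_mem_SR _

end Pool.Agent.TH19.Main1
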