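import Pool.Agent.TH19.Val
import Pool.Agent.TH19.Euc

set_option autoImplicit false
set_option linter.unusedSectionVars false

/-!
# The ring of series with respect to a character

Let `φ`, `ψ` be two characters of `Γ` and `N` the intersection of their kernels.  The ring `S` is the
closure of the crossed product `D(N) * (Γ / N)` with respect to the valuation given by `φ`.
-/

namespace Pool.Agent.TH19.Ser

open TN970 Pool.Agent.TH19.Val Pool.Agent.TH19.Det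

variable {Γ : Type} [Group Γ] {D : Type} [DivisionRing D]

section change

variable {Λ Λ' : Type} [AddCommGroup Λ] [LinearOrder Λ] [IsOrderedAddMonoid Λ]
  [AddCommGroup Λ'] [LinearOrder Λ'] [IsOrderedAddMonoid Λ']

variable {u : Γ →* Dˣ}

theorem Dc_mono {N N' : Subgroup Γ} (h : N ≤ N') : Dc u N ≤ Dc u N' := by
  unfold Dc
  apply Subfield.closure_mono
  rintro x ⟨g, hg, rfl⟩
  exact ⟨g, h hg, rfl⟩

theorem Msp_change {θ : Γ →* Multiplicative Λ} {θ' : Γ →* Multiplicative Λ'} (hk : θ.ker ≤ θ'.ker)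
    {T : Set Λ} {T' : Set Λ'} (h : ∀ g : Γ, th θ g ∈ T → th θ' g ∈ T') {x : D}
    (hx : x ∈ Msp u θ T) : x ∈ Msp u θ' T' := by
  unfold Msp at hx
  induction hx using Submodule.span_induction with
  | mem x hx =>
    obtain ⟨g, hg, rfl⟩ := hx
    exact u_mem_Msp (h g hg)
  | zero => exact Submodule.zero_mem _
  | add x y _ _ h1 h2 => exact Submodule.add_mem _ h1 h2
  | smul d x _ h1 => exact smul_mem_Msp (Dc_mono hk d.2) h1

theorem Msp_union {θ : Γ →* Multiplicative Λ} {A B : Set Λ} {x : D}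
    (hx : x ∈ Msp u θ (A ∪ B)) : ∃ y ∈ Msp u θ A, ∃ z ∈ Msp u θ B, x = y + z := by
  have h1 : Msp u θ (A ∪ B) ≤ Msp u θ A ⊔ Msp u θ B := by
    unfold Msp
    rw [← Submodule.span_union]
    apply Submodule.span_mono
    rintro x ⟨g, hg, rfl⟩
    rcases hg with hg | hg
    · exact Or.inl ⟨g, hg, rfl⟩
    · exact Or.inr ⟨g, hg, rfl⟩
  obtain ⟨y, hy, z, hz, h⟩ := Submodule.mem_sup.1 (h1 hx)
  exact ⟨y, hy, z, hz, h.symm⟩

theorem Msp_mul_u {θ : Γ →* Multiplicative Λ} {A B : Set Λ} {g : Γ}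
    (h : ∀ b ∈ A, b + th θ g ∈ B) {y : D}
    (hy : y ∈ Msp u θ A) : y * ((u g : Dˣ) : D) ∈ Msp u θ B := by
  refine Msp_mul (A := A) (B := {th θ g}) ?_ hy (u_mem_Msp rfl)
  rintro a ha b hb
  rw [Set.mem_singleton_iff] at hb
  rw [hb]
  exact h a ha

/-- elements supported in degree zero -/
theorem Msp_zero_Dc {θ : Γ →* Multiplicative Λ} {x : D} {N : Subgroup Γ} {A : Set Λ}
    (hk : θ.ker ≤ N) (hA : ∀ g, th θ g ∈ A → g ∈ N)
    (hx : x ∈ Msp u θ A) : x ∈ Dc u N := by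
  unfold Msp at hx
  induction hx using Submodule.span_induction with
  | mem x hx =>
    obtain ⟨g, hg, rfl⟩ := hx
    exact Subfield.subset_closure ⟨g, hA g hg, rfl⟩
  | zero => exact zero_mem _
  | add x y _ _ h1 h2 => exact add_mem h1 h2
  | smul d x _ h1 => exact mul_mem (Dc_mono hk d.2) h1

theorem LT_coarse (hu : Linnell u) {θ : Γ →* Multiplicative Λ} {φ : Γ →* Multiplicative Λ'}
    (π : Λ → Λ') (hπ : Monotone π)
    (hφ : ∀ g, th φ g = π (th θ g)) (hk : θ.ker ≤ φ.ker) {x : D} {g : Γ} (h : LT u θ x g) :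
    LT u φ x g := by
  obtain ⟨a, ha, ha0, h1⟩ := h
  have h2 : x - a * ((u g : Dˣ) : D) ∈ Msp u θ
      ({l | l < th θ g ∧ π l = π (th θ g)} ∪ {l | π l < π (th θ g)}) := by
    refine Msp_mono ?_ h1
    intro l hl
    rcases eq_or_lt_of_le (hπ (le_of_lt hl)) with h3 | h3
    · exact Or.inl ⟨hl, h3⟩
    · exact Or.inr h3
  obtain ⟨y, hy, z, hz, hyz⟩ := Msp_union h2
  have hinv : ((u g⁻¹ : Dˣ) : D) * ((u g : Dˣ) : D) = 1 := by
    rw [← Units.val_mul, ← map_mul, inv_mul_cancel, map_one, Units.val_one]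
  have e1 : (a + y * ((u g⁻¹ : Dˣ) : D)) * ((u g : Dˣ) : D) = a * ((u g : Dˣ) : D) + y := by
    rw [add_mul, mul_assoc y, hinv, mul_one]
  refine ⟨a + y * ((u g⁻¹ : Dˣ) : D), ?_, ?_, ?_⟩
  · refine add_mem (Dc_mono hk ha) ?_
    have h4 : y * ((u g⁻¹ : Dˣ) : D) ∈ Msp u θ {l | π (l + th θ g) = π (th θ g)} := by
      refine Msp_mul_u ?_ hy
      intro b hb
      show π (b + th θ g⁻¹ + th θ g) = _
      rw [add_assoc, th_inv, neg_add_cancel, add_zero]
      exact hb.2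
    refine Msp_zero_Dc hk ?_ h4
    intro k hk1
    have h5 : π (th θ k + th θ g) = π (th θ g) := hk1
    rw [← th_mul, ← hφ, ← hφ, th_mul] at h5
    rw [mem_ker]
    exact left_eq_add.1 (by rw [add_comm]; exact h5.symm)
  · intro h0
    have h3 : a * ((u g : Dˣ) : D) + y = 0 := by rw [← e1, h0, zero_mul]
    apply au_notMem hu (T := Set.Iio (th θ g)) (g := g) (by simp) ha ha0
    rw [eq_neg_of_add_eq_zero_left h3]
    exact Submodule.neg_mem _ (Msp_mono (fun l hl => hl.1) hy)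
  · have e2 : x - (a + y * ((u g⁻¹ : Dˣ) : D)) * ((u g : Dˣ) : D) = z := by
      rw [e1]
      have : x = a * ((u g : Dˣ) : D) + (y + z) := by rw [← hyz]; abel
      rw [this]
      abel
    rw [e2]
    refine Msp_change hk ?_ hz
    intro k hk1
    show th φ k < th φ g
    rw [hφ, hφ]
    exact hk1

theorem vl_coarse (hu : Linnell u) (hgen : ∀ x : D, x ∈ Dc u ⊤) {θ : Γ →* Multiplicative Λ}
    {φ : Γ →* Multiplicative Λ'}
    (π : Λ →+ Λ') (hπ : Monotone π)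
    (hφ : ∀ g, th φ g = π (th θ g)) (hk : θ.ker ≤ φ.ker) {x : D} {l : Λ} (h : vl u θ x = l) :
    vl u φ x = π l := by
  have hx0 : x ≠ 0 := by
    rintro rfl
    rw [vl_zero hu] at h
    exact absurd h.symm WithBot.coe_ne_bot
  obtain ⟨l', hl'⟩ := exists_hasV (θ := θ) hu hgen hx0
  rw [vl_eq hu hl', WithBot.coe_inj] at h
  subst h
  obtain ⟨a, b, p, q, ha, hb, hab, hl⟩ := hl'
  refine vl_eq hu ⟨a, b, p, q, LT_coarse hu π hπ hφ hk ha, LT_coarse hu π hπ hφ hk hb, hab, ?_⟩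
  rw [hφ, hφ, hl, map_add]

end change

/-- the character with values in the lexicographic product -/
def pr (φ ψ : Γ →* Multiplicative ℤ) : Γ →* Multiplicative (ℤ ×ₗ ℤ) where
  toFun g := Multiplicative.ofAdd (toLex (th φ g, th ψ g))
  map_one' := by
    rw [th_one, th_one]
    rfl
  map_mul' g h := by
    rw [th_mul, th_mul]
    rfl

theorem th_pr (φ ψ : Γ →* Multiplicative ℤ) (g : Γ) : th (pr φ ψ) g = toLex (th φ g, th ψ g) := rfl

theorem th_inv_hom (ψ : Γ →* Multiplicative ℤ) (g : Γ) : th ψ⁻¹ g = - th ψ g := rfl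

theorem mem_ker_pr {φ ψ : Γ →* Multiplicative ℤ} {g : Γ} :
    g ∈ (pr φ ψ).ker ↔ th φ g = 0 ∧ th ψ g = 0 := by
  rw [mem_ker, th_pr]
  constructor
  · intro h
    have h' : (th φ g, th ψ g) = ((0 : ℤ), (0 : ℤ)) := toLex.injective h
    exact Prod.mk.inj h'
  · rintro ⟨h1, h2⟩
    rw [h1, h2]
    rfl

theorem ker_pr_inv (φ ψ : Γ →* Multiplicative ℤ) : (pr φ ψ⁻¹).ker = (pr φ ψ).ker := by
  ext g
  rw [mem_ker_pr, mem_ker_pr, th_inv_hom, neg_eq_zero]

/-- first coordinate -/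
def fstHom : (ℤ ×ₗ ℤ) →+ ℤ where
  toFun x := (ofLex x).1
  map_zero' := rfl
  map_add' _ _ := rfl

theorem fst_mono : Monotone fstHom := by
  intro x y h
  rcases Prod.Lex.le_iff.1 h with h1 | h1
  · exact le_of_lt h1
  · exact h1.1.le

variable {u : Γ →* Dˣ} {φ ψ : Γ →* Multiplicative ℤ}

theorem vl_fst (hu : Linnell u) (hgen : ∀ x : D, x ∈ Dc u ⊤) {x : D} {l : ℤ ×ₗ ℤ}
    (h : vl u (pr φ ψ) x = l) : vl u φ x = ((ofLex l).1 : ℤ) := by
  refine vl_coarse hu hgen fstHom fst_mono (fun g => rfl) ?_ h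
  intro g hg
  exact mem_ker.2 (mem_ker_pr.1 hg).1

/-- the second coordinate of a value -/
def sn (z : WithBot (ℤ ×ₗ ℤ)) : ℤ := (ofLex (z.unbotD 0)).2

theorem sn_coe (l : ℤ ×ₗ ℤ) : sn l = (ofLex l).2 := rfl

/-- the weight: the width, with respect to `ψ`, of the face in direction `φ` -/
noncomputable def wd (u : Γ →* Dˣ) (φ ψ : Γ →* Multiplicative ℤ) (x : D) : ℤ :=
  sn (vl u (pr φ ψ) x) + sn (vl u (pr φ ψ⁻¹) x)

/-- the three valuations of a nonzero element -/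
theorem vals (hu : Linnell u) (hgen : ∀ x : D, x ∈ Dc u ⊤) (φ ψ : Γ →* Multiplicative ℤ) {x : D}
    (hx : x ≠ 0) :
    ∃ m k l : ℤ, vl u φ x = m ∧ vl u (pr φ ψ) x = (toLex (m, k) : ℤ ×ₗ ℤ) ∧
      vl u (pr φ ψ⁻¹) x = (toLex (m, l) : ℤ ×ₗ ℤ) ∧ wd u φ ψ x = k + l := by
  obtain ⟨a, ha⟩ := exists_hasV (θ := pr φ ψ) hu hgen hx
  obtain ⟨b, hb⟩ := exists_hasV (θ := pr φ ψ⁻¹) hu hgen hx
  have ha' := vl_eq hu ha
  have hb' := vl_eq hu hb
  have h1 := vl_fst hu hgen ha'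
  have h2 := vl_fst hu hgen hb'
  have h3 : (ofLex a).1 = (ofLex b).1 := by
    rw [h1] at h2
    exact_mod_cast h2
  refine ⟨(ofLex a).1, (ofLex a).2, (ofLex b).2, h1, ha', ?_, ?_⟩
  · rw [h3]
    exact hb'
  · unfold wd
    rw [ha', hb']
    rfl

theorem wd_eq {x : D} {m k l m' : ℤ}
    (h1 : vl u (pr φ ψ) x = (toLex (m, k) : ℤ ×ₗ ℤ))
    (h2 : vl u (pr φ ψ⁻¹) x = (toLex (m', l) : ℤ ×ₗ ℤ)) : wd u φ ψ x = k + l := by
  unfold wd
  rw [h1, h2]
  rfl

theorem wd_isW (hu : Linnell u) (hgen : ∀ x : D, x ∈ Dc u ⊤) (φ ψ : Γ →* Multiplicative ℤ) :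
    IsW (wd u φ ψ) := by
  intro x y hx hy
  obtain ⟨m, k, l, -, h1, h2, h3⟩ := vals hu hgen φ ψ hx
  obtain ⟨m', k', l', -, h1', h2', h3'⟩ := vals hu hgen φ ψ hy
  have e1 : vl u (pr φ ψ) (x * y) = (toLex (m + m', k + k') : ℤ ×ₗ ℤ) := by
    rw [vl_mul hu hgen, h1, h1']
    rfl
  have e2 : vl u (pr φ ψ⁻¹) (x * y) = (toLex (m + m', l + l') : ℤ ×ₗ ℤ) := by
    rw [vl_mul hu hgen, h2, h2']
    rfl
  rw [wd_eq e1 e2, h3, h3']
  ring

theorem wd_u (hu : Linnell u) (g : Γ) : wd u φ ψ ((u g : Dˣ) : D) = 0 := by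
  unfold wd
  rw [vl_u hu, vl_u hu, sn_coe, sn_coe, th_pr, th_pr, th_inv_hom]
  exact add_neg_cancel _

/-- The weight only depends on the leading part. -/
theorem vl_pr_lt (hu : Linnell u) (hgen : ∀ x : D, x ∈ Dc u ⊤) {x y : D} (hx : x ≠ 0)
    (h : vl u φ y < vl u φ x) : vl u (pr φ ψ) y < vl u (pr φ ψ) x := by
  obtain ⟨m, k, l, h1, h2, -, -⟩ := vals hu hgen φ ψ hx
  rw [h2]
  by_cases hy : y = 0
  · rw [hy, vl_zero hu]
    exact WithBot.bot_lt_coe _
  obtain ⟨m', k', l', h1', h2', -, -⟩ := vals hu hgen φ ψ hy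
  rw [h2', WithBot.coe_lt_coe, Prod.Lex.toLex_lt_toLex]
  left
  rw [h1, h1'] at h
  exact_mod_cast h

theorem wd_add (hu : Linnell u) (hgen : ∀ x : D, x ∈ Dc u ⊤) {x y : D} (hx : x ≠ 0)
    (h : vl u φ y < vl u φ x) : wd u φ ψ (x + y) = wd u φ ψ x := by
  unfold wd
  rw [vl_add_eq hu hgen (vl_pr_lt hu hgen hx h), vl_add_eq hu hgen (vl_pr_lt hu hgen hx h)]

/-- elements of the crossed product have nonnegative weight -/
theorem wd_nonneg_RN (hu : Linnell u) (hgen : ∀ x : D, x ∈ Dc u ⊤) {x : D}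
    (hx : x ∈ RN u (pr φ ψ).ker ⊤) (hx0 : x ≠ 0) : 0 ≤ wd u φ ψ x := by
  obtain ⟨g, hg⟩ := exists_LT hx hx0
  have hx' : x ∈ RN u (pr φ ψ⁻¹).ker ⊤ := by rw [ker_pr_inv]; exact hx
  obtain ⟨g', hg'⟩ := exists_LT hx' hx0
  have e1 := vl_LT hu hg
  have e2 := vl_LT hu hg'
  rw [th_pr] at e1 e2
  rw [th_inv_hom] at e2
  rw [wd_eq e1 e2]
  have hφ : th φ g = th φ g' := by
    have h1 := vl_fst hu hgen e1
    have h2 := vl_fst hu hgen e2
    rw [h1] at h2
    exact_mod_cast h2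
  by_contra hc
  have hlt : th ψ g < th ψ g' := by omega
  obtain ⟨a, ha, ha0, h2⟩ := hg'
  have h1 := hg.mem
  have h3 : x - a * ((u g' : Dˣ) : D) ∈ Msp u (pr φ ψ)
      {l | (ofLex l).1 < th φ g ∨ ((ofLex l).1 = th φ g ∧ th ψ g' < (ofLex l).2)} := by
    refine Msp_change (by rw [ker_pr_inv]) ?_ h2
    intro k hk
    have hk' : toLex (th φ k, -th ψ k) < toLex (th φ g', -th ψ g') := hk
    rw [Prod.Lex.toLex_lt_toLex] at hk'
    show th φ k < th φ g ∨ (th φ k = th φ g ∧ th ψ g' < th ψ k)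
    rcases hk' with h | ⟨h, h'⟩
    · exact Or.inl (by rw [hφ]; exact h)
    · exact Or.inr ⟨by rw [hφ]; exact h, neg_lt_neg_iff.1 h'⟩
  have h4 : a * ((u g' : Dˣ) : D) ∈ Msp u (pr φ ψ) (Set.Iic (th (pr φ ψ) g) ∪
      {l | (ofLex l).1 < th φ g ∨ ((ofLex l).1 = th φ g ∧ th ψ g' < (ofLex l).2)}) := by
    have := Submodule.sub_mem _ (Msp_mono Set.subset_union_left h1)
      (Msp_mono Set.subset_union_right h3)
    rwa [sub_sub_cancel] at this
  refine au_notMem hu ?_ (by rw [← ker_pr_inv]; exact ha) ha0 h4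
  rw [Set.mem_union, not_or]
  constructor
  · show ¬ (toLex (th φ g', th ψ g') ≤ toLex (th φ g, th ψ g))
    rw [Prod.Lex.toLex_le_toLex]
    simp only [hφ]
    omega
  · show ¬ (th φ g' < th φ g ∨ (th φ g' = th φ g ∧ th ψ g' < th ψ g'))
    omega

theorem RN_one (N : Subgroup Γ) : (1 : D) ∈ RN u N ⊤ :=
  Submodule.subset_span ⟨1, Subgroup.mem_top 1, by rw [map_one, Units.val_one]⟩

theorem u_mem_RN (N : Subgroup Γ) (g : Γ) : ((u g : Dˣ) : D) ∈ RN u N ⊤ :=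
  Submodule.subset_span ⟨g, Subgroup.mem_top g, rfl⟩

/-- The ring `S`: the elements which can be approximated by elements of the crossed product. -/
noncomputable def SR (u : Γ →* Dˣ) (hu : Linnell u) (hgen : ∀ x : D, x ∈ Dc u ⊤)
    (φ ψ : Γ →* Multiplicative ℤ) : Subring D where
  carrier := {x | ∀ M : ℤ, ∃ r ∈ RN u (pr φ ψ).ker ⊤, vl u φ (x - r) ≤ M}
  zero_mem' := by
    intro M
    exact ⟨0, Submodule.zero_mem _, by rw [sub_zero, vl_zero hu]; exact bot_le⟩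
  one_mem' := by
    intro M
    exact ⟨1, RN_one _, by rw [sub_self, vl_zero hu]; exact bot_le⟩
  add_mem' := by
    intro x y hx hy M
    obtain ⟨r, hr, h1⟩ := hx M
    obtain ⟨s, hs, h2⟩ := hy M
    refine ⟨r + s, Submodule.add_mem _ hr hs, ?_⟩
    rw [add_sub_add_comm]
    exact (vl_add hu hgen _ _).trans (max_le h1 h2)
  neg_mem' := by
    intro x hx M
    obtain ⟨r, hr, h1⟩ := hx M
    refine ⟨-r, Submodule.neg_mem _ hr, ?_⟩
    rw [sub_neg_eq_add, neg_add_eq_sub, ← neg_sub, vl_neg hu hgen]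
    exact h1
  mul_mem' := by
    intro x y hx hy M
    obtain ⟨m, hm⟩ : ∃ m : ℤ, vl u φ x ≤ m := by
      obtain ⟨r, -, -⟩ := hx 0
      by_cases h0 : x = 0
      · exact ⟨0, by rw [h0, vl_zero hu]; exact bot_le⟩
      · obtain ⟨m, k, l, h1, -⟩ := vals hu hgen φ ψ h0
        exact ⟨m, h1.le⟩
    obtain ⟨n, hn⟩ : ∃ n : ℤ, vl u φ y ≤ n := by
      by_cases h0 : y = 0
      · exact ⟨0, by rw [h0, vl_zero hu]; exact bot_le⟩
      · obtain ⟨m, k, l, h1, -⟩ := vals hu hgen φ ψ h0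
        exact ⟨m, h1.le⟩
    obtain ⟨s, hs, h2⟩ := hy (min (M - m) n)
    have hsn : vl u φ s ≤ n := by
      have h3 := vl_sub (θ := φ) hu hgen y (y - s)
      rw [sub_sub_cancel] at h3
      exact h3.trans (max_le hn (h2.trans (by exact_mod_cast min_le_right _ _)))
    have h2' : vl u φ (y - s) ≤ ((M - m : ℤ) : WithBot ℤ) :=
      h2.trans (by exact_mod_cast min_le_left _ _)
    obtain ⟨r, hr, h1⟩ := hx (M - n)
    refine ⟨r * s, RN_mul u _ _ inferInstance _ _ hr hs, ?_⟩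
    have e : x * y - r * s = x * (y - s) + (x - r) * s := by
      rw [mul_sub, sub_mul]
      abel
    rw [e]
    refine (vl_add hu hgen _ _).trans (max_le ?_ ?_)
    · rw [vl_mul hu hgen]
      refine (add_le_add hm h2').trans ?_
      exact_mod_cast (by omega : m + (M - m) ≤ M)
    · rw [vl_mul hu hgen]
      refine (add_le_add h1 hsn).trans ?_
      exact_mod_cast (by omega : (M - n) + n ≤ M)

variable {hu : Linnell u} {hgen : ∀ x : D, x ∈ Dc u ⊤}

theorem mem_SR {x : D} : x ∈ SR u hu hgen φ ψ ↔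
    ∀ M : ℤ, ∃ r ∈ RN u (pr φ ψ).ker ⊤, vl u φ (x - r) ≤ M := Iff.rfl

theorem RN_le_SR {x : D} (hx : x ∈ RN u (pr φ ψ).ker ⊤) : x ∈ SR u hu hgen φ ψ := by
  intro M
  exact ⟨x, hx, by rw [sub_self, vl_zero hu]; exact bot_le⟩

theorem SR_nonneg {x : D} (hx : x ∈ SR u hu hgen φ ψ) (hx0 : x ≠ 0) : 0 ≤ wd u φ ψ x := by
  obtain ⟨m, k, l, h1, h2, h3, h4⟩ := vals hu hgen φ ψ hx0
  obtain ⟨r, hr, hm⟩ := hx (m - 1)
  have hlt : vl u φ (r - x) < vl u φ x := by
    rw [← neg_sub, vl_neg hu hgen, h1]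
    refine lt_of_le_of_lt hm ?_
    exact_mod_cast (by omega : m - 1 < m)
  have h5 := wd_add (ψ := ψ) hu hgen hx0 hlt
  have h6 := vl_add_eq hu hgen hlt
  rw [add_sub_cancel] at h5 h6
  rw [← h5]
  refine wd_nonneg_RN hu hgen hr ?_
  rintro rfl
  rw [vl_zero hu, h1] at h6
  exact absurd h6.symm WithBot.coe_ne_bot

theorem pr_ker_le : (pr φ ψ).ker ≤ φ.ker := fun _ hg => mem_ker.2 (mem_ker_pr.1 hg).1

theorem RN_le {N N' : Subgroup Γ} {L : Subgroup Γ} (h : N ≤ N') {x : D} (hx : x ∈ RN u L N) :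
    x ∈ RN u L N' := by
  unfold RN at hx ⊢
  refine Submodule.span_mono ?_ hx
  rintro x ⟨g, hg, rfl⟩
  exact ⟨g, h hg, rfl⟩

theorem RN_le_Dc {N L : Subgroup Γ} (h : L ≤ N) {x : D} (hx : x ∈ RN u L N) : x ∈ Dc u N := by
  unfold RN at hx
  induction hx using Submodule.span_induction with
  | mem x hx =>
    obtain ⟨g, hg, rfl⟩ := hx
    exact Subfield.subset_closure ⟨g, hg, rfl⟩
  | zero => exact zero_mem _
  | add x y _ _ h1 h2 => exact add_mem h1 h2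
  | smul d x _ h1 => exact mul_mem (Dc_mono h d.2) h1

/-- for elements of `D(ker φ)` both values have first coordinate zero -/
theorem vals0 (hu : Linnell u) (hgen : ∀ x : D, x ∈ Dc u ⊤) (φ ψ : Γ →* Multiplicative ℤ) {x : D}
    (hx : x ∈ Dc u φ.ker) (hx0 : x ≠ 0) :
    ∃ k l : ℤ, vl u (pr φ ψ) x = (toLex (0, k) : ℤ ×ₗ ℤ) ∧
      vl u (pr φ ψ⁻¹) x = (toLex (0, l) : ℤ ×ₗ ℤ) ∧ wd u φ ψ x = k + l := by
  obtain ⟨m, k, l, h1, h2, h3, h4⟩ := vals hu hgen φ ψ hx0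
  have h5 := vl_Dc (θ := φ) hu hx hx0
  rw [h1] at h5
  have h6 : m = 0 := by exact_mod_cast h5
  subst h6
  exact ⟨k, l, h2, h3, h4⟩

/-- Division in the crossed product `D(N) * (ker φ / N)`. -/
theorem div_ker (hu : Linnell u) (hgen : ∀ x : D, x ∈ Dc u ⊤) (φ ψ : Γ →* Multiplicative ℤ) {c : D}
    (hc : c ∈ Dc u φ.ker) (hcR : c ∉ RN u (pr φ ψ).ker φ.ker) :
    ∃ p ∈ RN u (pr φ ψ).ker φ.ker, c - p ≠ 0 ∧ wd u φ ψ (c - p) < 0 := by
  classical
  have hab : ∀ x ∈ φ.ker, ∀ y ∈ φ.ker, x * y * x⁻¹ * y⁻¹ ∈ (pr φ ψ).ker := by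
    intro x _ y _
    rw [mem_ker_pr, th_mul, th_mul, th_mul, th_inv, th_inv, th_mul, th_mul, th_mul, th_inv, th_inv]
    constructor <;> ring
  obtain ⟨a, ha, ha0, hb⟩ := frac_Dc u hu (pr φ ψ).ker φ.ker inferInstance pr_ker_le hab c hc
  have hW := wd_isW hu hgen φ ψ
  have haD := RN_le_Dc pr_ker_le ha
  -- all remainders are nonzero
  have hne : ∀ p ∈ RN u (pr φ ψ).ker φ.ker, c - p ≠ 0 := by
    intro p hp h0
    rw [sub_eq_zero] at h0
    exact hcR (h0 ▸ hp)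
  have hrem : ∀ p ∈ RN u (pr φ ψ).ker φ.ker, a * (c - p) ∈ RN u (pr φ ψ).ker φ.ker := by
    intro p hp
    rw [mul_sub]
    exact Submodule.sub_mem _ hb (RN_mul u _ _ inferInstance _ _ ha hp)
  -- one step of the division
  have step : ∀ p ∈ RN u (pr φ ψ).ker φ.ker, wd u φ ψ a ≤ wd u φ ψ (a * (c - p)) →
      ∃ p' ∈ RN u (pr φ ψ).ker φ.ker, wd u φ ψ (a * (c - p')) < wd u φ ψ (a * (c - p)) := by
    intro p hp hle
    obtain ⟨k, l, h1, h2, h3⟩ := vals0 hu hgen φ ψ haD ha0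
    have hr := hrem p hp
    have hrD := RN_le_Dc pr_ker_le hr
    have hr0 := mul_ne_zero ha0 (hne p hp)
    obtain ⟨k', l', h1', h2', h3'⟩ := vals0 hu hgen φ ψ hrD hr0
    obtain ⟨h, hh⟩ := exists_LT (RN_le le_top ha) ha0
    obtain ⟨h', hh'⟩ := exists_LT (RN_le le_top hr) hr0
    have e1 := vl_LT hu hh
    have e1' := vl_LT hu hh'
    have hval : vl u (pr φ ψ) (c - p) = th (pr φ ψ) (h⁻¹ * h') := by
      have h5 : vl u (pr φ ψ) (a⁻¹ * (a * (c - p))) =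
          th (pr φ ψ) (h⁻¹ * h') := by
        have h6 := vl_mul (θ := pr φ ψ) hu hgen a (a⁻¹ * (a * (c - p)))
        rw [← mul_assoc a a⁻¹, mul_inv_cancel₀ ha0, one_mul, e1, e1'] at h6
        have h7 : a⁻¹ * (a * (c - p)) ≠ 0 := mul_ne_zero (inv_ne_zero ha0) hr0
        obtain ⟨m, k, l, -, h8, -⟩ := vals hu hgen φ ψ h7
        rw [h8, ← WithBot.coe_add, WithBot.coe_inj] at h6
        rw [h8, WithBot.coe_inj, th_mul, th_inv, h6]
        abel
      rwa [← mul_assoc, inv_mul_cancel₀ ha0, one_mul] at h5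
    obtain ⟨e, he, he0, hres⟩ := residue hu hgen hval
    set g := h⁻¹ * h' with hg
    have hpe : p + e * ((u g : Dˣ) : D) ∈ RN u (pr φ ψ).ker φ.ker := by
      refine Submodule.add_mem _ hp ?_
      refine Submodule.smul_mem _ (⟨e, he⟩ : Dc u (pr φ ψ).ker) (Submodule.subset_span ⟨g, ?_, rfl⟩)
      rw [hg, mem_ker, th_mul, th_inv]
      have f1 : th (pr φ ψ) h = toLex (0, k) := by
        rw [h1] at e1
        exact (WithBot.coe_inj.1 e1).symm
      have f2 : th (pr φ ψ) h' = toLex (0, k') := by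
        rw [h1'] at e1'
        exact (WithBot.coe_inj.1 e1').symm
      have f3 : th φ h = 0 := congrArg (fun z => (ofLex z).1) f1
      have f4 : th φ h' = 0 := congrArg (fun z => (ofLex z).1) f2
      rw [f3, f4]
      rfl
    have hr2 := hrem _ hpe
    have hr2D := RN_le_Dc pr_ker_le hr2
    have hr20 := mul_ne_zero ha0 (hne _ hpe)
    obtain ⟨k2, l2, g1, g2, g3⟩ := vals0 hu hgen φ ψ hr2D hr20
    have hsub : c - (p + e * ((u g : Dˣ) : D)) = (c - p) - e * ((u g : Dˣ) : D) := by abel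
    have f1 : th (pr φ ψ) h = toLex (0, k) := by
      rw [h1] at e1
      exact (WithBot.coe_inj.1 e1).symm
    have f2 : th (pr φ ψ) h' = toLex (0, k') := by
      rw [h1'] at e1'
      exact (WithBot.coe_inj.1 e1').symm
    have hk2 : k2 < k' := by
      have h6 : vl u (pr φ ψ) (a * (c - (p + e * ((u g : Dˣ) : D)))) <
          vl u (pr φ ψ) (a * (c - p)) := by
        rw [vl_mul hu hgen, vl_mul hu hgen, hval, hsub, e1]
        exact WithBot.add_lt_add_left WithBot.coe_ne_bot hres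
      rw [g1, h1', WithBot.coe_lt_coe, Prod.Lex.toLex_lt_toLex] at h6
      simpa using h6
    have hl2 : l2 ≤ max l' (l + (k - k')) := by
      have hg2 : th ψ g = k' - k := by
        have f3 : th ψ h = k := congrArg (fun z => (ofLex z).2) f1
        have f4 : th ψ h' = k' := congrArg (fun z => (ofLex z).2) f2
        rw [hg, th_mul, th_inv, f3, f4]
        ring
      have hg1 : th φ g = 0 := by
        have f3 : th φ h = 0 := congrArg (fun z => (ofLex z).1) f1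
        have f4 : th φ h' = 0 := congrArg (fun z => (ofLex z).1) f2
        rw [hg, th_mul, th_inv, f3, f4]
        rfl
      have h6 : a * (c - (p + e * ((u g : Dˣ) : D))) =
          a * (c - p) - a * (e * ((u g : Dˣ) : D)) := by
        rw [hsub, mul_sub]
      have h7 : vl u (pr φ ψ⁻¹) (a * (e * ((u g : Dˣ) : D))) =
          (toLex (0, l + (k - k')) : ℤ ×ₗ ℤ) := by
        rw [vl_mul hu hgen, vl_au hu (by rw [ker_pr_inv]; exact he) he0 g, h2, th_pr, th_inv_hom,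
          hg1, hg2, ← WithBot.coe_add]
        congr 1
        show toLex ((0 : ℤ) + 0, l + -(k' - k)) = _
        rw [neg_sub, zero_add]
      have h8 := vl_sub (θ := pr φ ψ⁻¹) hu hgen (a * (c - p)) (a * (e * ((u g : Dˣ) : D)))
      rw [← h6, g2, h2', h7] at h8
      rcases le_max_iff.1 h8 with h9 | h9
      · rw [WithBot.coe_le_coe, Prod.Lex.toLex_le_toLex] at h9
        exact le_max_of_le_left (by simpa using h9)
      · rw [WithBot.coe_le_coe, Prod.Lex.toLex_le_toLex] at h9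
        exact le_max_of_le_right (by simpa using h9)
    refine ⟨_, hpe, ?_⟩
    rw [g3, h3']
    rw [h3', h3] at hle
    rcases le_max_iff.1 hl2 with h9 | h9
    · omega
    · omega
  have key : ∀ n : ℕ, ∀ p ∈ RN u (pr φ ψ).ker φ.ker, wd u φ ψ (a * (c - p)) ≤ n →
      ∃ p ∈ RN u (pr φ ψ).ker φ.ker, wd u φ ψ (a * (c - p)) < wd u φ ψ a := by
    intro n
    induction n with
    | zero =>
      intro p hp hn
      by_cases hlt : wd u φ ψ (a * (c - p)) < wd u φ ψ a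
      · exact ⟨p, hp, hlt⟩
      obtain ⟨p', hp', h1⟩ := step p hp (not_lt.1 hlt)
      have h2 : 0 ≤ wd u φ ψ (a * (c - p')) :=
        wd_nonneg_RN hu hgen (RN_le le_top (hrem _ hp')) (mul_ne_zero ha0 (hne _ hp'))
      push_cast at hn
      omega
    | succ n ih =>
      intro p hp hn
      by_cases hlt : wd u φ ψ (a * (c - p)) < wd u φ ψ a
      · exact ⟨p, hp, hlt⟩
      obtain ⟨p', hp', h1⟩ := step p hp (not_lt.1 hlt)
      refine ih p' hp' ?_
      push_cast at hn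
      omega
  obtain ⟨p, hp, hlt⟩ := key (wd u φ ψ (a * (c - 0))).toNat 0 (Submodule.zero_mem _)
    (Int.self_le_toNat _)
  refine ⟨p, hp, hne p hp, ?_⟩
  have h1 := hW a (c - p) ha0 (hne p hp)
  omega

/-- The ring `S` is Euclidean. -/
theorem isEuc (hu : Linnell u) (hgen : ∀ x : D, x ∈ Dc u ⊤) (φ ψ : Γ →* Multiplicative ℤ) :
    IsEuc (wd u φ ψ) (SR u hu hgen φ ψ) := by
  refine ⟨wd_isW hu hgen φ ψ, fun x hx hx0 => SR_nonneg hx hx0, ?_⟩
  intro z hz
  rw [mem_SR] at hz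
  push Not at hz
  obtain ⟨M, hM⟩ := hz
  have hne : ∀ r ∈ RN u (pr φ ψ).ker ⊤, z - r ≠ 0 := by
    intro r hr h0
    have := hM r hr
    rw [h0, vl_zero hu] at this
    exact not_lt_bot this
  -- the best approximation
  have key : ∀ n : ℕ, ∀ r ∈ RN u (pr φ ψ).ker ⊤, vl u φ (z - r) ≤ ((M + n : ℤ) : WithBot ℤ) →
      ∃ r ∈ RN u (pr φ ψ).ker ⊤, ∀ r' ∈ RN u (pr φ ψ).ker ⊤,
        vl u φ (z - r) ≤ vl u φ (z - r') := by
    intro n
    induction n with
    | zero =>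
      intro r hr h
      exact absurd (hM r hr) (not_lt.2 (by simpa using h))
    | succ n ih =>
      intro r hr h
      by_cases hex : ∀ r' ∈ RN u (pr φ ψ).ker ⊤, vl u φ (z - r) ≤ vl u φ (z - r')
      · exact ⟨r, hr, hex⟩
      push Not at hex
      obtain ⟨r', hr', hlt⟩ := hex
      refine ih r' hr' ?_
      obtain ⟨m, _, _, h1, -⟩ := vals hu hgen φ ψ (hne r hr)
      obtain ⟨m', _, _, h1', -⟩ := vals hu hgen φ ψ (hne r' hr')
      rw [h1, WithBot.coe_le_coe] at h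
      rw [h1, h1', WithBot.coe_lt_coe] at hlt
      rw [h1', WithBot.coe_le_coe]
      push_cast at h ⊢
      omega
  obtain ⟨r, hr, hmin⟩ : ∃ r ∈ RN u (pr φ ψ).ker ⊤, ∀ r' ∈ RN u (pr φ ψ).ker ⊤,
      vl u φ (z - r) ≤ vl u φ (z - r') := by
    obtain ⟨m, _, _, h1, -⟩ := vals hu hgen φ ψ (hne 0 (Submodule.zero_mem _))
    refine key (m - M).toNat 0 (Submodule.zero_mem _) ?_
    rw [h1, WithBot.coe_le_coe]
    omega
  obtain ⟨γ, hγ⟩ := exists_val (θ := φ) hu hgen (hne r hr)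
  obtain ⟨c, hc, hc0, hlt⟩ := residue hu hgen hγ
  have hcR : c ∉ RN u (pr φ ψ).ker φ.ker := by
    intro hcR
    have h1 : r + c * ((u γ : Dˣ) : D) ∈ RN u (pr φ ψ).ker ⊤ :=
      Submodule.add_mem _ hr (RN_mul u _ _ inferInstance _ _ (RN_le le_top hcR) (u_mem_RN _ γ))
    have h2 := hmin _ h1
    have h3 : z - (r + c * ((u γ : Dˣ) : D)) = z - r - c * ((u γ : Dˣ) : D) := by abel
    rw [h3, hγ] at h2
    exact absurd hlt (not_lt.2 h2)
  obtain ⟨p, hp, hcp, hw⟩ := div_ker hu hgen φ ψ hc hcR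
  refine ⟨r + p * ((u γ : Dˣ) : D), RN_le_SR (Submodule.add_mem _ hr
    (RN_mul u _ _ inferInstance _ _ (RN_le le_top hp) (u_mem_RN _ γ))), ?_⟩
  have h3 : z - (r + p * ((u γ : Dˣ) : D)) =
      (c - p) * ((u γ : Dˣ) : D) + (z - r - c * ((u γ : Dˣ) : D)) := by
    rw [sub_mul]
    abel
  have hcpD : c - p ∈ Dc u φ.ker := sub_mem hc (RN_le_Dc pr_ker_le hp)
  have h4 : vl u φ ((c - p) * ((u γ : Dˣ) : D)) = th φ γ := vl_au hu hcpD hcp γ
  rw [h3, wd_add hu hgen (mul_ne_zero hcp (u γ).ne_zero) (by rw [h4]; exact hlt),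
    wd_isW hu hgen φ ψ _ _ hcp (u γ).ne_zero, wd_u hu, add_zero]
  exact hw

end Pool.Agent.TH19.Ser
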