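import Pool.Agent.TH19.Ser
import Pool.Agent.TH19.Comb

set_option autoImplicit false
set_option linter.unusedSectionVars false

/-!
# Elements of the crossed product and their supports
-/

namespace Pool.Agent.TH19.Supp

open TN970 Pool.Agent.TH19.Val Pool.Agent.TH19.Det Pool.Agent.TH19.Ser Pool.Agent.TH19.Comb

variable {Γ : Type} [Group Γ] {D : Type} [DivisionRing D] {u : Γ →* Dˣ}

/-- `x` is the element `∑ a_g g` of the crossed product, with support `s`. -/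
structure CP (u : Γ →* Dˣ) (N : Subgroup Γ) (x : D) (s : Finset Γ) (a : Γ → D) : Prop where
  mem : ∀ g ∈ s, a g ∈ Dc u N
  ne : ∀ g ∈ s, a g ≠ 0
  dist : ∀ g ∈ s, ∀ h ∈ s, g ≠ h → g * h⁻¹ ∉ N
  eq : x = ∑ g ∈ s, a g * ((u g : Dˣ) : D)

variable {N : Subgroup Γ} {x : D} {s : Finset Γ} {a : Γ → D}

theorem sum_ne_zero (hu : Linnell u) (hN : N.Normal) (hmem : ∀ g ∈ s, a g ∈ Dc u N)
    (hdist : ∀ g ∈ s, ∀ h ∈ s, g ≠ h → g * h⁻¹ ∉ N) {g₀ : Γ} (hg₀ : g₀ ∈ s) (hne : a g₀ ≠ 0) :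
    ∑ g ∈ s, a g * ((u g : Dˣ) : D) ≠ 0 := by
  classical
  intro h0
  have h1 := hu N hN s hdist
  rw [Fintype.linearIndependent_iff] at h1
  have h2 := h1 (fun g => ⟨a g, hmem g g.2⟩) (by
    have h3 : ∀ g : s, ((⟨a g, hmem g g.2⟩ : Dc u N) • ((u (g : Γ) : Dˣ) : D)) =
        a g * ((u (g : Γ) : Dˣ) : D) := fun g => rfl
    simp only [h3]
    rw [Finset.sum_coe_sort s (fun g => a g * ((u g : Dˣ) : D))]
    exact h0) ⟨g₀, hg₀⟩
  exact hne (congrArg Subtype.val h2)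

variable {Λ : Type} [AddCommGroup Λ] [LinearOrder Λ] [IsOrderedAddMonoid Λ]

theorem LT_supp (hu : Linnell u) (hN : N.Normal) (h : CP u N x s a)
    {χ : Γ →* Multiplicative Λ} (hχ : N ≤ χ.ker) {g₀ : Γ} (hg₀ : g₀ ∈ s)
    (hmax : ∀ g ∈ s, th χ g ≤ th χ g₀) : LT u χ x g₀ := by
  classical
  set s₁ := s.filter fun g => th χ g = th χ g₀ with hs₁
  set s₂ := s.filter fun g => ¬ th χ g = th χ g₀ with hs₂
  have hx : x = ∑ g ∈ s₁, a g * ((u g : Dˣ) : D) + ∑ g ∈ s₂, a g * ((u g : Dˣ) : D) := by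
    rw [h.eq, hs₁, hs₂, Finset.sum_filter_add_sum_filter_not]
  have hc : (∑ g ∈ s₁, a g * ((u (g * g₀⁻¹) : Dˣ) : D)) * ((u g₀ : Dˣ) : D) =
      ∑ g ∈ s₁, a g * ((u g : Dˣ) : D) := by
    rw [Finset.sum_mul]
    refine Finset.sum_congr rfl fun g _ => ?_
    rw [mul_assoc, ← Units.val_mul, ← map_mul, inv_mul_cancel_right]
  refine ⟨∑ g ∈ s₁, a g * ((u (g * g₀⁻¹) : Dˣ) : D), ?_, ?_, ?_⟩
  · refine sum_mem fun g hg => ?_
    rw [hs₁, Finset.mem_filter] at hg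
    refine mul_mem (Dc_mono hχ (h.mem g hg.1)) (Subfield.subset_closure ⟨_, ?_, rfl⟩)
    rw [mem_ker, th_mul, th_inv, hg.2, add_neg_cancel]
  · intro h0
    have h1 : ∑ g ∈ s₁, a g * ((u g : Dˣ) : D) = 0 := by rw [← hc, h0, zero_mul]
    refine sum_ne_zero hu hN (s := s₁) (a := a) (g₀ := g₀) ?_ ?_ ?_ (h.ne g₀ hg₀) h1
    · intro g hg
      exact h.mem g (Finset.mem_filter.1 hg).1
    · intro g hg k hk
      exact h.dist g (Finset.mem_filter.1 hg).1 k (Finset.mem_filter.1 hk).1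
    · rw [hs₁, Finset.mem_filter]
      exact ⟨hg₀, rfl⟩
  · rw [hc, hx, add_sub_cancel_left]
    refine Submodule.sum_mem _ fun g hg => ?_
    rw [hs₂, Finset.mem_filter] at hg
    exact smul_mem_Msp (Dc_mono hχ (h.mem g hg.1))
      (u_mem_Msp (lt_of_le_of_ne (hmax g hg.1) hg.2))

theorem CP.ne_zero (hu : Linnell u) (hN : N.Normal) (h : CP u N x s a) (hs : s.Nonempty) :
    x ≠ 0 := by
  obtain ⟨g, hg⟩ := hs
  rw [h.eq]
  exact sum_ne_zero hu hN h.mem h.dist hg (h.ne g hg)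

theorem vl_supp (hu : Linnell u) (hN : N.Normal) (h : CP u N x s a) (hs : s.Nonempty)
    {χ : Γ →* Multiplicative ℤ} (hχ : N ≤ χ.ker) :
    vl u χ x = ((s.sup' hs (th χ) : ℤ) : WithBot ℤ) := by
  obtain ⟨g₀, hg₀, hmax⟩ := s.exists_max_image (th χ) hs
  rw [vl_LT hu (LT_supp hu hN h hχ hg₀ hmax)]
  congr 1
  exact le_antisymm (Finset.le_sup' (th χ) hg₀) (Finset.sup'_le _ _ hmax)

/-- the weight in terms of the support -/
theorem wd_supp (hu : Linnell u) (hN : N.Normal) (h : CP u N x s a) (hs : s.Nonempty)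
    (hχ : ∀ χ : Γ →* Multiplicative ℤ, N ≤ χ.ker) (φ ψ : Γ →* Multiplicative ℤ) :
    ∃ gp ∈ s, ∃ gm ∈ s, (∀ g ∈ s, th φ g ≤ th φ gp) ∧ (∀ g ∈ s, th φ g ≤ th φ gm) ∧
      (∀ g ∈ s, th φ g = th φ gp → th ψ g ≤ th ψ gp) ∧
      (∀ g ∈ s, th φ g = th φ gm → th ψ gm ≤ th ψ g) ∧
      wd u φ ψ x = th ψ gp - th ψ gm := by
  have hk : ∀ φ ψ : Γ →* Multiplicative ℤ, N ≤ (pr φ ψ).ker := by
    intro φ ψ g hg
    rw [mem_ker_pr]
    exact ⟨mem_ker.1 (hχ φ hg), mem_ker.1 (hχ ψ hg)⟩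
  obtain ⟨g₁, hg₁, hm₁⟩ := s.exists_max_image (th (pr φ ψ)) hs
  obtain ⟨g₂, hg₂, hm₂⟩ := s.exists_max_image (th (pr φ ψ⁻¹)) hs
  have e1 := vl_LT hu (LT_supp hu hN h (hk φ ψ) hg₁ hm₁)
  have e2 := vl_LT hu (LT_supp hu hN h (hk φ ψ⁻¹) hg₂ hm₂)
  rw [th_pr] at e1 e2
  rw [th_inv_hom] at e2
  have k1 : ∀ g ∈ s, th φ g < th φ g₁ ∨ th φ g = th φ g₁ ∧ th ψ g ≤ th ψ g₁ := by
    intro g hg
    have := hm₁ g hg
    rw [th_pr, th_pr, Prod.Lex.toLex_le_toLex] at this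
    exact this
  have k2 : ∀ g ∈ s, th φ g < th φ g₂ ∨ th φ g = th φ g₂ ∧ th ψ g₂ ≤ th ψ g := by
    intro g hg
    have := hm₂ g hg
    rw [th_pr, th_pr, Prod.Lex.toLex_le_toLex, th_inv_hom, th_inv_hom] at this
    rcases this with h1 | ⟨h1, h2⟩
    · exact Or.inl h1
    · exact Or.inr ⟨h1, neg_le_neg_iff.1 h2⟩
  refine ⟨g₁, hg₁, g₂, hg₂, ?_, ?_, ?_, ?_, ?_⟩
  · intro g hg
    rcases k1 g hg with h1 | h1 <;> omega
  · intro g hg
    rcases k2 g hg with h1 | h1 <;> omega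
  · intro g hg he
    rcases k1 g hg with h1 | h1 <;> omega
  · intro g hg he
    rcases k2 g hg with h1 | h1 <;> omega
  · rw [wd_eq e1 e2]
    ring

theorem th_mul_hom (φ ψ : Γ →* Multiplicative ℤ) (g : Γ) : th (φ * ψ) g = th φ g + th ψ g := rfl

theorem th_pow_hom (φ : Γ →* Multiplicative ℤ) (n : ℕ) (g : Γ) : th (φ ^ n) g = n * th φ g := by
  unfold th
  rw [MonoidHom.pow_apply, toAdd_pow, nsmul_eq_mul]

/-- Subadditivity of the support function of the torsion. -/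
theorem subadd (hu : Linnell u) (hgen : ∀ x : D, x ∈ Dc u ⊤) (hN : N.Normal)
    (hχ : ∀ χ : Γ →* Multiplicative ℤ, N ≤ χ.ker) {x f g : D} {A B : Finset Γ} {a b : Γ → D}
    (hf : CP u N f A a) (hg : CP u N g B b) (hA : A.Nonempty) (hB : B.Nonempty)
    (hx0 : x ≠ 0) (hx : x * g = f ∨ g * x = f) (hw : ∀ φ ψ : Γ →* Multiplicative ℤ, wd u φ ψ x ≤ 0)
    (φ ψ : Γ →* Multiplicative ℤ) :
    B.sup' hB (th (φ * ψ)) - A.sup' hA (th (φ * ψ)) ≤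
      (B.sup' hB (th φ) - A.sup' hA (th φ)) + (B.sup' hB (th ψ) - A.sup' hA (th ψ)) := by
  have hg0 := hg.ne_zero hu hN hB
  refine comb A B hA hB (th φ) (th ψ) ?_
  intro m n _ _ g₁ hg₁ g₂ hg₂ m1 m2
  set χ := φ ^ m * ψ ^ n with hχdef
  set η := ψ * φ⁻¹ with hη
  have hχg : ∀ g, th χ g = m * th φ g + n * th ψ g := by
    intro g
    rw [hχdef, th_mul_hom, th_pow_hom, th_pow_hom]
  have hηg : ∀ g, th η g = th ψ g - th φ g := by
    intro g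
    rw [hη, th_mul_hom, th_inv_hom]
    ring
  obtain ⟨p, hp, q, hq, a1, a2, a3, a4, a5⟩ := wd_supp hu hN hf hA hχ χ η
  obtain ⟨p', hp', q', hq', b1, b2, b3, b4, b5⟩ := wd_supp hu hN hg hB hχ χ η
  refine ⟨p', hp', q', hq', fun h hh => ?_, fun h hh => ?_, ?_⟩
  · rw [← hχg, ← hχg]
    exact b1 h hh
  · rw [← hχg, ← hχg]
    exact b2 h hh
  · have h1 : wd u χ η f = wd u χ η x + wd u χ η g := by
      rcases hx with h | h
      · rw [← wd_isW hu hgen χ η x g hx0 hg0, h]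
      · rw [add_comm, ← wd_isW hu hgen χ η g x hg0 hx0, h]
    have h2 := hw χ η
    simp only [← hχg] at m1 m2
    have h3 : th χ g₁ = th χ p := le_antisymm (a1 g₁ hg₁) (m1 p hp)
    have h4 : th χ g₂ = th χ q := le_antisymm (a2 g₂ hg₂) (m2 q hq)
    have h5 := a3 g₁ hg₁ h3
    have h6 := a4 g₂ hg₂ h4
    rw [hηg] at h5 h6
    rw [hηg] at h5 h6
    rw [a5, b5] at h1
    simp only [hηg] at h1
    omega

end Pool.Agent.TH19.Supp
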