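import Pool.Agent.TH19.Supp
import Pool.Agent.Helper970.TN.P_thurston
import Pool.Agent.Helper970.TN.P_fg_hom
import Pool.Agent.Helper970.TN.P_eval_surj
import Pool.Agent.Helper970.TN.P_linF_tmul

set_option autoImplicit false
set_option linter.unusedSectionVars false

/-!
# The polytope of the torsion
-/

namespace Pool.Agent.TH19.Thur

open TN970 Pool.Agent.TH19.Val Pool.Agent.TH19.Det Pool.Agent.TH19.Ser Pool.Agent.TH19.Comb
  Pool.Agent.TH19.Supp

variable {Γ : Type} [Group Γ]

/-- a subadditive difference of support functions is a support function -/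
theorem exists_R [Group.FG Γ] (A B : Finset Γ) (hA : A.Nonempty) (hB : B.Nonempty)
    (h : ∀ φ ψ : Γ →* Multiplicative ℤ,
      B.sup' hB (th (φ * ψ)) - A.sup' hA (th (φ * ψ)) ≤
        (B.sup' hB (th φ) - A.sup' hA (th φ)) + (B.sup' hB (th ψ) - A.sup' hA (th ψ))) :
    ∃ (R : Finset Γ) (hR : R.Nonempty), ∀ φ : Γ →* Multiplicative ℤ,
      B.sup' hB (th φ) - A.sup' hA (th φ) = R.sup' hR (th φ) := by
  classical
  obtain ⟨s, hs⟩ := fg_hom (Γ := Γ)
  have hpow : ∀ (A : Finset Γ) (hA : A.Nonempty) (k : ℕ) (φ : Γ →* Multiplicative ℤ),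
      A.sup' hA (th (φ ^ k)) = k * A.sup' hA (th φ) := by
    intro A hA k φ
    apply le_antisymm
    · refine Finset.sup'_le _ _ fun g hg => ?_
      rw [th_pow_hom]
      exact mul_le_mul_of_nonneg_left (Finset.le_sup' (th φ) hg) (by positivity)
    · obtain ⟨g, hg, he⟩ := Finset.exists_mem_eq_sup' hA (th φ)
      rw [he, ← th_pow_hom]
      exact Finset.le_sup' (th (φ ^ k)) hg
  obtain ⟨T, hT1, hT2⟩ := thurston s hs
    (fun x : Additive (Γ →* Multiplicative ℤ) =>
      B.sup' hB (th (Additive.toMul x)) - A.sup' hA (th (Additive.toMul x)))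
    (fun x y => h (Additive.toMul x) (Additive.toMul y))
    (fun k x => by
      show B.sup' hB (th ((Additive.toMul x) ^ k)) - A.sup' hA (th ((Additive.toMul x) ^ k)) = _
      rw [hpow, hpow]
      ring)
  choose g hg using fun a : Additive (Γ →* Multiplicative ℤ) →+ ℤ => eval_surj a
  have hTne : T.Nonempty := by
    obtain ⟨a, ha, -⟩ := hT2 0
    exact ⟨a, ha⟩
  refine ⟨T.image g, hTne.image g, fun φ => ?_⟩
  apply le_antisymm
  · obtain ⟨a, ha, he⟩ := hT2 (Additive.ofMul φ)
    have h1 : B.sup' hB (th φ) - A.sup' hA (th φ) = th φ (g a) := by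
      rw [hg a φ] at he
      exact he.symm
    rw [h1]
    exact Finset.le_sup' (th φ) (Finset.mem_image_of_mem g ha)
  · refine Finset.sup'_le _ _ fun k hk => ?_
    obtain ⟨a, ha, rfl⟩ := Finset.mem_image.1 hk
    have h1 := hT1 a ha (Additive.ofMul φ)
    rw [hg a φ] at h1
    exact h1

end Pool.Agent.TH19.Thur
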