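import Pool.Agent.TH19.Ser

set_option autoImplicit false
set_option linter.unusedSectionVars false

/-!
# Elements `g - 1` which are invertible in the series ring
-/

namespace Pool.Agent.TH19.Ser

open TN970 Pool.Agent.TH19.Val Pool.Agent.TH19.Det

variable {Γ : Type} [Group Γ] {D : Type} [DivisionRing D] {u : Γ →* Dˣ}
  {φ ψ : Γ →* Multiplicative ℤ}

theorem u_ne_one (hu : Linnell u) {g : Γ} (hg : g ≠ 1) : ((u g : Dˣ) : D) - 1 ≠ 0 := by
  classical
  intro h0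
  have h1 := hu ⊥ inferInstance {g, 1} (by
    intro a _ b _ hab hm
    rw [Subgroup.mem_bot, mul_inv_eq_one] at hm
    exact hab hm)
  have h2 := h1.injective (a₁ := ⟨g, by simp⟩) (a₂ := ⟨1, by simp⟩) (by
    show ((u g : Dˣ) : D) = ((u 1 : Dˣ) : D)
    rw [map_one, Units.val_one]
    exact sub_eq_zero.1 h0)
  exact hg (congrArg Subtype.val h2)

theorem ev_mem_RN (N : Subgroup Γ) (x : MonoidAlgebra ℤ Γ) : ev u x ∈ RN u N ⊤ := by
  induction x using MonoidAlgebra.induction_on with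
  | of g =>
    have h1 : ev u (MonoidAlgebra.of ℤ Γ g) = ((u g : Dˣ) : D) := by
      unfold ev
      simp
    rw [h1]
    exact u_mem_RN N g
  | add x y hx hy => rw [map_add]; exact Submodule.add_mem _ hx hy
  | smul r x hx =>
    rw [map_zsmul]
    exact zsmul_mem hx r

theorem ev_mem_SR {hu : Linnell u} {hgen : ∀ x : D, x ∈ Dc u ⊤} (x : MonoidAlgebra ℤ Γ) :
    ev u x ∈ SR u hu hgen φ ψ := RN_le_SR (ev_mem_RN _ x)

theorem wd_neg_one (hu : Linnell u) (hgen : ∀ x : D, x ∈ Dc u ⊤) :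
    wd u φ ψ (-1 : D) = 0 := (wd_isW hu hgen φ ψ).neg_one

/-- the case of a nontrivial character `φ` -/
theorem exists_g1 (hu : Linnell u) (hgen : ∀ x : D, x ∈ Dc u ⊤) {g : Γ} (hg : th φ g ≠ 0) :
    (((u g : Dˣ) : D) - 1)⁻¹ ∈ SR u hu hgen φ ψ := by
  have hg1 : g ≠ 1 := by
    rintro rfl
    exact hg (th_one φ)
  have hne := u_ne_one hu hg1
  refine (isEuc hu hgen φ ψ).inv_mem (sub_mem (RN_le_SR (u_mem_RN _ g)) (one_mem _)) hne ?_
  have h1 : vl u φ ((u g : Dˣ) : D) = th φ g := vl_u hu g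
  have h2 : vl u φ (-1 : D) = ((0 : ℤ) : WithBot ℤ) := by
    rw [vl_neg hu hgen, vl_one hu]
    rfl
  rcases lt_or_gt_of_ne hg with h | h
  · have h3 : vl u φ ((u g : Dˣ) : D) < vl u φ (-1 : D) := by
      rw [h1, h2]
      exact_mod_cast h
    rw [sub_eq_neg_add, wd_add hu hgen (neg_ne_zero.2 one_ne_zero) h3, wd_neg_one hu hgen]
  · have h3 : vl u φ (-1 : D) < vl u φ ((u g : Dˣ) : D) := by
      rw [h1, h2]
      exact_mod_cast h
    rw [sub_eq_add_neg, wd_add hu hgen (u g).ne_zero h3, wd_u hu]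

/-- the case of an element of both kernels -/
theorem exists_g2 (hu : Linnell u) (hgen : ∀ x : D, x ∈ Dc u ⊤) {g : Γ}
    (hg : th φ g = 0) (hg' : th ψ g = 0) :
    (((u g : Dˣ) : D) - 1)⁻¹ ∈ SR u hu hgen φ ψ := by
  apply RN_le_SR
  have h1 : (((u g : Dˣ) : D) - 1)⁻¹ ∈ Dc u (pr φ ψ).ker :=
    inv_mem (sub_mem (Subfield.subset_closure ⟨g, mem_ker_pr.2 ⟨hg, hg'⟩, rfl⟩) (one_mem _))
  have h2 := Submodule.smul_mem (RN u (pr φ ψ).ker ⊤)
    (⟨_, h1⟩ : Dc u (pr φ ψ).ker) (RN_one (pr φ ψ).ker)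
  have h3 : (⟨(((u g : Dˣ) : D) - 1)⁻¹, h1⟩ : Dc u (pr φ ψ).ker) • (1 : D) =
      (((u g : Dˣ) : D) - 1)⁻¹ * 1 := rfl
  rwa [h3, mul_one] at h2

theorem equiv_of_ker {ψ : Γ →* Multiplicative ℤ} (h1 : ∀ g, th ψ g = 0 → g = 1)
    {h : Γ} (hh : th ψ h ≠ 0) : Nonempty (Γ ≃* Multiplicative ℤ) := by
  have hinj : Function.Injective ψ := by
    rw [injective_iff_map_eq_one]
    intro g hg
    refine h1 g ?_
    unfold th
    rw [hg, toAdd_one]
  haveI : IsCyclic Γ := isCyclic_of_injective ψ hinj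
  haveI : Infinite Γ := by
    refine Infinite.of_injective (fun n : ℤ => h ^ n) ?_
    intro a b hab
    have hab' : h ^ a = h ^ b := hab
    have h2 : th ψ (h ^ a) = th ψ (h ^ b) := by rw [hab']
    have h3 : ∀ n : ℤ, th ψ (h ^ n) = n * th ψ h := by
      intro n
      unfold th
      rw [map_zpow, toAdd_zpow, smul_eq_mul]
    rw [h3, h3] at h2
    exact mul_right_cancel₀ hh h2
  exact ⟨(intCyclicMulEquiv (G := Γ)).symm⟩

/-- Unless both characters are trivial there is an element `g` such that `g - 1` is invertible in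
the series ring. -/
theorem exists_g (hu : Linnell u) (hgen : ∀ x : D, x ∈ Dc u ⊤)
    (hΓ : IsEmpty (Γ ≃* Multiplicative ℤ)) {h : Γ} (hh : th φ h ≠ 0 ∨ th ψ h ≠ 0) :
    ∃ g : Γ, ((u g : Dˣ) : D) - 1 ≠ 0 ∧ (((u g : Dˣ) : D) - 1)⁻¹ ∈ SR u hu hgen φ ψ := by
  by_cases hφ : ∃ g, th φ g ≠ 0
  · obtain ⟨g, hg⟩ := hφ
    refine ⟨g, u_ne_one hu ?_, exists_g1 hu hgen hg⟩
    rintro rfl
    exact hg (th_one φ)
  · push Not at hφ
    have hψ : th ψ h ≠ 0 := by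
      rcases hh with h1 | h1
      · exact absurd (hφ h) h1
      · exact h1
    by_cases hk : ∃ g, th ψ g = 0 ∧ g ≠ 1
    · obtain ⟨g, hg, hg1⟩ := hk
      exact ⟨g, u_ne_one hu hg1, exists_g2 hu hgen (hφ g) hg⟩
    · push Not at hk
      exact (hΓ.false (equiv_of_ker hk hψ).some).elim

/-- If both characters are trivial, so is the weight. -/
theorem wd_trivial (hu : Linnell u) (hgen : ∀ x : D, x ∈ Dc u ⊤)
    (h1 : ∀ g, th φ g = 0) (h2 : ∀ g, th ψ g = 0) {x : D} (hx : x ≠ 0) : wd u φ ψ x = 0 := by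
  obtain ⟨g, hg⟩ := exists_val (θ := pr φ ψ) hu hgen hx
  obtain ⟨g', hg'⟩ := exists_val (θ := pr φ ψ⁻¹) hu hgen hx
  rw [th_pr] at hg hg'
  rw [wd_eq hg hg', th_inv_hom, h2, h2]
  rfl

end Pool.Agent.TH19.Ser
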