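import Pool.Agent.Helper970.TN.P_frac_Dc

set_option autoImplicit false
set_option linter.unusedSectionVars false

/-!
# Valuations of the division ring of a group

`D` is a division ring generated by the group `Γ` (with Linnell's property) and `θ` is a homomorphism
from `Γ` to an ordered abelian group.
-/

namespace Pool.Agent.TH19.Val

open TN970

variable {Γ : Type} [Group Γ] {D : Type} [DivisionRing D]
variable {Λ : Type} [AddCommGroup Λ] [LinearOrder Λ] [IsOrderedAddMonoid Λ]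

/-- the value of `θ` in additive notation -/
def th (θ : Γ →* Multiplicative Λ) (g : Γ) : Λ := Multiplicative.toAdd (θ g)

theorem th_mul (θ : Γ →* Multiplicative Λ) (g h : Γ) : th θ (g * h) = th θ g + th θ h := by
  unfold th
  rw [map_mul, toAdd_mul]

theorem th_one (θ : Γ →* Multiplicative Λ) : th θ 1 = 0 := by
  unfold th
  rw [map_one, toAdd_one]

theorem th_inv (θ : Γ →* Multiplicative Λ) (g : Γ) : th θ g⁻¹ = - th θ g := by
  unfold th
  rw [map_inv, toAdd_inv]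

theorem mem_ker {θ : Γ →* Multiplicative Λ} {g : Γ} : g ∈ θ.ker ↔ th θ g = 0 := by
  rw [MonoidHom.mem_ker]
  unfold th
  constructor
  · intro h; rw [h, toAdd_one]
  · intro h; exact Multiplicative.toAdd.injective (by rw [h, toAdd_one])

/-- the span of the group elements with value in `T` -/
def Msp (u : Γ →* Dˣ) (θ : Γ →* Multiplicative Λ) (T : Set Λ) : Submodule (Dc u θ.ker) D :=
  Submodule.span (Dc u θ.ker) {x | ∃ g, th θ g ∈ T ∧ x = ((u g : Dˣ) : D)}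

variable {u : Γ →* Dˣ} {θ : Γ →* Multiplicative Λ}

theorem Msp_mono {A B : Set Λ} (h : A ⊆ B) : Msp u θ A ≤ Msp u θ B := by
  apply Submodule.span_mono
  rintro x ⟨g, hg, rfl⟩
  exact ⟨g, h hg, rfl⟩

theorem u_mem_Msp {T : Set Λ} {g : Γ} (hg : th θ g ∈ T) : ((u g : Dˣ) : D) ∈ Msp u θ T :=
  Submodule.subset_span ⟨g, hg, rfl⟩

theorem smul_mem_Msp {T : Set Λ} {c x : D} (hc : c ∈ Dc u θ.ker) (hx : x ∈ Msp u θ T) :
    c * x ∈ Msp u θ T :=
  Submodule.smul_mem _ (⟨c, hc⟩ : Dc u θ.ker) hx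

theorem Msp_u_mul {A B : Set Λ} {g : Γ} (h : ∀ b ∈ A, th θ g + b ∈ B) {y : D}
    (hy : y ∈ Msp u θ A) : ((u g : Dˣ) : D) * y ∈ Msp u θ B := by
  unfold Msp at hy
  induction hy using Submodule.span_induction with
  | mem y hy =>
    obtain ⟨k, hk, rfl⟩ := hy
    rw [← Units.val_mul, ← map_mul]
    exact u_mem_Msp (by rw [th_mul]; exact h _ hk)
  | zero => rw [mul_zero]; exact Submodule.zero_mem _
  | add y z _ _ h1 h2 => rw [mul_add]; exact Submodule.add_mem _ h1 h2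
  | smul d y _ h1 =>
    have h2 := conj_Dc u θ.ker inferInstance g (d : D) d.2
    have h3 : ((u g : Dˣ) : D) * (d • y) =
        (((u g : Dˣ) : D) * (d : D) * ((u g⁻¹ : Dˣ) : D)) * (((u g : Dˣ) : D) * y) := by
      show ((u g : Dˣ) : D) * ((d : D) * y) = _
      have h4 : ((u g⁻¹ : Dˣ) : D) * ((u g : Dˣ) : D) = 1 := by
        rw [← Units.val_mul, ← map_mul, inv_mul_cancel, map_one, Units.val_one]
      rw [mul_assoc (((u g : Dˣ) : D) * (d : D)), ← mul_assoc ((u g⁻¹ : Dˣ) : D), h4, one_mul,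
        mul_assoc]
    rw [h3]
    exact smul_mem_Msp h2 h1

theorem Msp_mul {A B C : Set Λ} (h : ∀ a ∈ A, ∀ b ∈ B, a + b ∈ C) {x y : D}
    (hx : x ∈ Msp u θ A) (hy : y ∈ Msp u θ B) : x * y ∈ Msp u θ C := by
  unfold Msp at hx
  induction hx using Submodule.span_induction with
  | mem x hx =>
    obtain ⟨k, hk, rfl⟩ := hx
    exact Msp_u_mul (h _ hk) hy
  | zero => rw [zero_mul]; exact Submodule.zero_mem _
  | add x z _ _ h1 h2 => rw [add_mul]; exact Submodule.add_mem _ h1 h2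
  | smul d x _ h1 =>
    have h3 : (d • x) * y = (d : D) * (x * y) := by
      show ((d : D) * x) * y = _
      rw [mul_assoc]
    rw [h3]
    exact smul_mem_Msp d.2 h1

/-- representatives of the values -/
noncomputable def rp (θ : Γ →* Multiplicative Λ) (i : {l : Λ // ∃ g, th θ g = l}) : Γ := i.2.choose

theorem th_rp (i : {l : Λ // ∃ g, th θ g = l}) : th θ (rp θ i) = i.1 := i.2.choose_spec

theorem indep (hu : Linnell u) : LinearIndependent (Dc u θ.ker)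
    (fun i : {l : Λ // ∃ g, th θ g = l} => ((u (rp θ i) : Dˣ) : D)) := by
  classical
  rw [linearIndependent_iff_finset_linearIndependent]
  intro s
  have hinj : Function.Injective (rp θ) := by
    intro i j hij
    apply Subtype.ext
    rw [← th_rp i, ← th_rp j, hij]
  have h1 := hu θ.ker inferInstance (s.image (rp θ)) (by
    intro g hg h hh hne hmem
    obtain ⟨i, hi, rfl⟩ := Finset.mem_image.1 hg
    obtain ⟨j, hj, rfl⟩ := Finset.mem_image.1 hh
    rw [mem_ker, th_mul, th_inv, th_rp, th_rp, add_neg_eq_zero] at hmem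
    exact hne (by rw [Subtype.ext hmem]))
  let e : s → s.image (rp θ) := fun i => ⟨rp θ i.1, Finset.mem_image_of_mem _ i.2⟩
  have he : Function.Injective e := by
    intro i j hij
    apply Subtype.ext
    exact hinj (congrArg Subtype.val hij)
  exact h1.comp e he

theorem u_rp (g : Γ) : ((u g : Dˣ) : D) =
    ((u (g * (rp θ ⟨th θ g, g, rfl⟩)⁻¹) : Dˣ) : D) * ((u (rp θ ⟨th θ g, g, rfl⟩) : Dˣ) : D) := by
  rw [← Units.val_mul, ← map_mul, inv_mul_cancel_right]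

theorem Msp_le (T : Set Λ) : Msp u θ T ≤ Submodule.span (Dc u θ.ker)
    ((fun i : {l : Λ // ∃ g, th θ g = l} => ((u (rp θ i) : Dˣ) : D)) '' {i | i.1 ∈ T}) := by
  unfold Msp
  rw [Submodule.span_le]
  rintro x ⟨g, hg, rfl⟩
  have h1 : ((u (g * (rp θ ⟨th θ g, g, rfl⟩)⁻¹) : Dˣ) : D) ∈ Dc u θ.ker := by
    apply Subfield.subset_closure
    refine ⟨_, ?_, rfl⟩
    rw [mem_ker, th_mul, th_inv, th_rp, add_neg_cancel]
  rw [u_rp (θ := θ) g]
  refine Submodule.smul_mem _ (⟨_, h1⟩ : Dc u θ.ker) (Submodule.subset_span ?_)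
  exact ⟨⟨th θ g, g, rfl⟩, hg, rfl⟩

theorem u_notMem (hu : Linnell u) {T : Set Λ} {g : Γ} (hg : th θ g ∉ T) :
    ((u g : Dˣ) : D) ∉ Msp u θ T := by
  intro h
  have h1 := Msp_le T h
  have h2 := (indep (θ := θ) hu).notMem_span_image (s := {i | i.1 ∈ T})
    (x := ⟨th θ g, g, rfl⟩) hg
  apply h2
  have h3 : ((u (rp θ ⟨th θ g, g, rfl⟩) : Dˣ) : D) =
      ((u ((rp θ ⟨th θ g, g, rfl⟩) * g⁻¹) : Dˣ) : D) * ((u g : Dˣ) : D) := by
    rw [← Units.val_mul, ← map_mul, inv_mul_cancel_right]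
  have h4 : ((u ((rp θ ⟨th θ g, g, rfl⟩) * g⁻¹) : Dˣ) : D) ∈ Dc u θ.ker := by
    apply Subfield.subset_closure
    refine ⟨_, ?_, rfl⟩
    rw [mem_ker, th_mul, th_inv, th_rp, add_neg_cancel]
  show ((u (rp θ ⟨th θ g, g, rfl⟩) : Dˣ) : D) ∈ _
  rw [h3]
  exact Submodule.smul_mem _ (⟨_, h4⟩ : Dc u θ.ker) h1

/-- the leading term of `x` is a nonzero multiple of `u g` -/
def LT (u : Γ →* Dˣ) (θ : Γ →* Multiplicative Λ) (x : D) (g : Γ) : Prop :=
  ∃ a ∈ Dc u θ.ker, a ≠ 0 ∧ x - a * ((u g : Dˣ) : D) ∈ Msp u θ (Set.Iio (th θ g))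

theorem au_notMem (hu : Linnell u) {T : Set Λ} {g : Γ} (hg : th θ g ∉ T) {a : D}
    (ha : a ∈ Dc u θ.ker) (ha0 : a ≠ 0) : a * ((u g : Dˣ) : D) ∉ Msp u θ T := by
  intro h
  apply u_notMem hu hg
  have h1 := smul_mem_Msp (inv_mem ha) h
  rwa [← mul_assoc, inv_mul_cancel₀ ha0, one_mul] at h1

theorem LT.mem {x : D} {g : Γ} (h : LT u θ x g) : x ∈ Msp u θ (Set.Iic (th θ g)) := by
  obtain ⟨a, ha, ha0, h1⟩ := h
  have h2 := Submodule.add_mem _ (Msp_mono (Set.Iio_subset_Iic_self) h1)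
    (smul_mem_Msp ha (u_mem_Msp (u := u) (θ := θ) (T := Set.Iic (th θ g)) (g := g) le_rfl))
  rwa [sub_add_cancel] at h2

theorem LT.le (hu : Linnell u) {x : D} {g : Γ} (h : LT u θ x g) {m : Λ}
    (hx : x ∈ Msp u θ (Set.Iic m)) : th θ g ≤ m := by
  by_contra hc
  rw [not_le] at hc
  obtain ⟨a, ha, ha0, h1⟩ := h
  apply au_notMem hu (T := Set.Iio (th θ g)) (g := g) (by simp) ha ha0
  have h2 := Submodule.sub_mem _ (Msp_mono (u := u) (θ := θ) (Set.Iic_subset_Iio.2 hc) hx) h1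
  rwa [sub_sub_cancel] at h2

theorem LT.unique (hu : Linnell u) {x : D} {g h : Γ} (h1 : LT u θ x g) (h2 : LT u θ x h) :
    th θ g = th θ h :=
  le_antisymm (h1.le hu h2.mem) (h2.le hu h1.mem)

theorem LT.ne_zero (hu : Linnell u) {x : D} {g : Γ} (h : LT u θ x g) : x ≠ 0 := by
  rintro rfl
  obtain ⟨a, ha, ha0, h1⟩ := h
  apply au_notMem hu (T := Set.Iio (th θ g)) (g := g) (by simp) ha ha0
  have h2 := Submodule.neg_mem _ h1
  rwa [neg_sub, sub_zero] at h2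

theorem LT.mul {x y : D} {g h : Γ} (h1 : LT u θ x g) (h2 : LT u θ y h) :
    LT u θ (x * y) (g * h) := by
  have h1m := h1.mem
  obtain ⟨a, ha, ha0, h1⟩ := h1
  obtain ⟨b, hb, hb0, h2⟩ := h2
  have h3 := conj_Dc u θ.ker inferInstance g b hb
  refine ⟨a * (((u g : Dˣ) : D) * b * ((u g⁻¹ : Dˣ) : D)), mul_mem ha h3, ?_, ?_⟩
  · exact mul_ne_zero ha0 (mul_ne_zero (mul_ne_zero (u g).ne_zero hb0) (u g⁻¹).ne_zero)
  · have e : x * y - a * (((u g : Dˣ) : D) * b * ((u g⁻¹ : Dˣ) : D)) * ((u (g * h) : Dˣ) : D) =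
        x * (y - b * ((u h : Dˣ) : D)) + (x - a * ((u g : Dˣ) : D)) * (b * ((u h : Dˣ) : D)) := by
      have h4 : ((u g⁻¹ : Dˣ) : D) * ((u g : Dˣ) : D) = 1 := by
        rw [← Units.val_mul, ← map_mul, inv_mul_cancel, map_one, Units.val_one]
      have h5 : a * (((u g : Dˣ) : D) * b * ((u g⁻¹ : Dˣ) : D)) * ((u (g * h) : Dˣ) : D) =
          a * ((u g : Dˣ) : D) * (b * ((u h : Dˣ) : D)) := by
        rw [map_mul, Units.val_mul]
        calc _ = a * ((u g : Dˣ) : D) * b * (((u g⁻¹ : Dˣ) : D) * ((u g : Dˣ) : D)) *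
              ((u h : Dˣ) : D) := by simp only [mul_assoc]
          _ = _ := by rw [h4]; simp only [mul_assoc, mul_one]
      rw [h5, mul_sub, sub_mul]
      abel
    rw [e, th_mul]
    refine Submodule.add_mem _ ?_ ?_
    · refine Msp_mul (A := Set.Iic (th θ g)) (B := Set.Iio (th θ h)) ?_ h1m h2
      intro p hp q hq
      exact add_lt_add_of_le_of_lt hp hq
    · refine Msp_mul (A := Set.Iio (th θ g)) (B := Set.Iic (th θ h)) ?_ h1
        (smul_mem_Msp hb (u_mem_Msp le_rfl))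
      intro p hp q hq
      exact add_lt_add_of_lt_of_le hp hq

theorem RN_eq : RN u θ.ker ⊤ = Msp u θ Set.univ := by
  unfold RN Msp
  congr 1

theorem exists_LT {x : D} (hx : x ∈ RN u θ.ker ⊤) (hx0 : x ≠ 0) : ∃ g, LT u θ x g := by
  classical
  rw [RN_eq] at hx
  have h1 := Msp_le _ hx
  have h2 : (fun i : {l : Λ // ∃ g, th θ g = l} => ((u (rp θ i) : Dˣ) : D)) ''
      {i | i.1 ∈ Set.univ} = Set.range
      (fun i : {l : Λ // ∃ g, th θ g = l} => ((u (rp θ i) : Dˣ) : D)) := by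
    ext y
    simp
  rw [h2, Finsupp.mem_span_range_iff_exists_finsupp] at h1
  obtain ⟨c, hc⟩ := h1
  have hne : c.support.Nonempty := by
    rw [Finsupp.support_nonempty_iff]
    rintro rfl
    rw [Finsupp.sum_zero_index] at hc
    exact hx0 hc.symm
  obtain ⟨i, hi, hmax⟩ := c.support.exists_max_image (fun i => i.1) hne
  refine ⟨rp θ i, (c i : D), (c i).2, ?_, ?_⟩
  · intro h
    exact (Finsupp.mem_support_iff.1 hi) (Subtype.ext h)
  · rw [← hc, Finsupp.sum, ← Finset.add_sum_erase _ _ hi]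
    have h3 : (c i • ((u (rp θ i) : Dˣ) : D)) = (c i : D) * ((u (rp θ i) : Dˣ) : D) := rfl
    rw [h3, add_sub_cancel_left]
    refine Submodule.sum_mem _ fun j hj => ?_
    refine Submodule.smul_mem _ _ (u_mem_Msp ?_)
    rw [Finset.mem_erase] at hj
    rw [th_rp, th_rp]
    exact lt_of_le_of_ne (hmax j hj.2) fun h => hj.1 (Subtype.ext h)


theorem comm_mem (x y : Γ) : x * y * x⁻¹ * y⁻¹ ∈ θ.ker := by
  rw [mem_ker, th_mul, th_mul, th_mul, th_inv, th_inv]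
  abel

theorem LT.mem_RN {x : D} {g : Γ} (h : LT u θ x g) : x ∈ RN u θ.ker ⊤ := by
  rw [RN_eq]
  exact Msp_mono (Set.subset_univ _) h.mem

theorem LT.one : LT u θ (1 : D) 1 := by
  refine ⟨1, one_mem _, one_ne_zero, ?_⟩
  rw [map_one, Units.val_one, mul_one, sub_self]
  exact Submodule.zero_mem _

theorem LT.au {a : D} (ha : a ∈ Dc u θ.ker) (ha0 : a ≠ 0) (g : Γ) :
    LT u θ (a * ((u g : Dˣ) : D)) g := by
  refine ⟨a, ha, ha0, ?_⟩
  rw [sub_self]
  exact Submodule.zero_mem _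

/-- `x` is a fraction of degree `l`. -/
def HasV (u : Γ →* Dˣ) (θ : Γ →* Multiplicative Λ) (x : D) (l : Λ) : Prop :=
  ∃ (a b : D) (g h : Γ), LT u θ a g ∧ LT u θ b h ∧ a * x = b ∧ th θ h = th θ g + l

theorem LT.hasV {x : D} {g : Γ} (h : LT u θ x g) : HasV u θ x (th θ g) :=
  ⟨1, x, 1, g, LT.one, h, one_mul x, by rw [th_one, zero_add]⟩

theorem ore_LT (hu : Linnell u) {a c : D} {g h : Γ} (ha : LT u θ a g) (hc : LT u θ c h) :
    ∃ (p q : D) (k m : Γ), LT u θ p k ∧ LT u θ q m ∧ p * c = q * a := by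
  obtain ⟨p, hp, q, hq, hp0, he⟩ := ore u hu θ.ker ⊤ inferInstance le_top
    (fun x _ y _ => comm_mem x y) a c ha.mem_RN hc.mem_RN (ha.ne_zero hu)
  have hq0 : q ≠ 0 := by
    rintro rfl
    rw [zero_mul] at he
    exact mul_ne_zero hp0 (hc.ne_zero hu) he
  obtain ⟨k, hk⟩ := exists_LT hp hp0
  obtain ⟨m, hm⟩ := exists_LT hq hq0
  exact ⟨p, q, k, m, hk, hm, he⟩

theorem LT.unique' (hu : Linnell u) {x y : D} {g h : Γ} (h1 : LT u θ x g) (h2 : LT u θ y h)
    (he : x = y) : th θ g = th θ h := by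
  subst he
  exact h1.unique hu h2

theorem HasV.unique (hu : Linnell u) {x : D} {l l' : Λ} (h : HasV u θ x l) (h' : HasV u θ x l') :
    l = l' := by
  obtain ⟨a, b, g, k, ha, hb, hab, hl⟩ := h
  obtain ⟨a', b', g', k', ha', hb', hab', hl'⟩ := h'
  obtain ⟨p, q, m, n, hp, hq, he⟩ := ore_LT hu ha ha'
  have h1 := (hp.mul ha').unique' hu (hq.mul ha) he
  have h2 := (hp.mul hb').unique' hu (hq.mul hb) (by rw [← hab, ← hab', ← mul_assoc, he, mul_assoc])
  rw [th_mul, th_mul] at h1 h2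
  rw [hl, hl'] at h2
  have h3 : th θ m + th θ g' + l' = th θ n + th θ g + l := by
    rw [add_assoc, add_assoc]; exact h2
  rw [h1] at h3
  exact (add_left_cancel h3).symm

theorem HasV.ne_zero (hu : Linnell u) {x : D} {l : Λ} (h : HasV u θ x l) : x ≠ 0 := by
  obtain ⟨a, b, g, k, ha, hb, hab, hl⟩ := h
  rintro rfl
  rw [mul_zero] at hab
  exact hb.ne_zero hu hab.symm

theorem exists_hasV (hu : Linnell u) (hgen : ∀ x : D, x ∈ Dc u ⊤) {x : D} (hx : x ≠ 0) :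
    ∃ l, HasV u θ x l := by
  obtain ⟨a, ha, ha0, hax⟩ := frac_Dc u hu θ.ker ⊤ inferInstance le_top
    (fun x _ y _ => comm_mem x y) x (hgen x)
  obtain ⟨g, hg⟩ := exists_LT ha ha0
  obtain ⟨h, hh⟩ := exists_LT hax (mul_ne_zero ha0 hx)
  exact ⟨th θ h - th θ g, a, _, g, h, hg, hh, rfl, by abel⟩

theorem HasV.mul (hu : Linnell u) {x y : D} {l m : Λ} (h : HasV u θ x l) (h' : HasV u θ y m) :
    HasV u θ (x * y) (l + m) := by
  obtain ⟨a, b, g, k, ha, hb, hab, hl⟩ := h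
  obtain ⟨a', b', g', k', ha', hb', hab', hl'⟩ := h'
  obtain ⟨p, q, s, t, hp, hq, he⟩ := ore_LT hu ha' hb
  refine ⟨p * a, q * b', s * g, t * k', hp.mul ha, hq.mul hb', ?_, ?_⟩
  · rw [← hab']
    calc p * a * (x * y) = p * (a * x) * y := by simp only [mul_assoc]
      _ = q * (a' * y) := by rw [hab, he, mul_assoc]
  · have h1 := (hp.mul hb).unique' hu (hq.mul ha') he
    rw [th_mul, th_mul, hl] at h1
    rw [th_mul, th_mul, hl']
    have h2 : th θ t + th θ g' = th θ s + (th θ g + l) := h1.symm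
    rw [← add_assoc, h2]
    abel

theorem HasV.add (hu : Linnell u) {x y : D} {l m n : Λ} (h : HasV u θ x l) (h' : HasV u θ y m)
    (hs : HasV u θ (x + y) n) : n ≤ max l m := by
  obtain ⟨a, b, g, k, ha, hb, hab, hl⟩ := h
  obtain ⟨a', b', g', k', ha', hb', hab', hl'⟩ := h'
  obtain ⟨p, q, s, t, hp, hq, he⟩ := ore_LT hu ha ha'
  -- p a' = q a
  have h1 := (hp.mul ha').unique' hu (hq.mul ha) he
  have hne : q * a * (x + y) ≠ 0 := mul_ne_zero (hq.mul ha |>.ne_zero hu) (hs.ne_zero hu)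
  have e1 : q * a * (x + y) = q * b + p * b' := by
    rw [mul_add, ← hab, ← hab', ← mul_assoc q, ← mul_assoc p, he]
  rw [th_mul, th_mul] at h1
  have hm : q * a * (x + y) ∈ Msp u θ (Set.Iic (th θ t + th θ g + max l m)) := by
    rw [e1]
    refine Submodule.add_mem _ ?_ ?_
    · refine Msp_mono (Set.Iic_subset_Iic.2 ?_) (hq.mul hb).mem
      rw [th_mul, hl, ← add_assoc]
      exact add_le_add_right (le_max_left _ _) _
    · refine Msp_mono (Set.Iic_subset_Iic.2 ?_) (hp.mul hb').mem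
      rw [th_mul, hl', ← add_assoc, h1]
      exact add_le_add_right (le_max_right _ _) _
  have hRN : q * a * (x + y) ∈ RN u θ.ker ⊤ := by
    rw [RN_eq]
    exact Msp_mono (Set.subset_univ _) hm
  obtain ⟨r, hr⟩ := exists_LT hRN hne
  have h2 := hr.le hu hm
  have h3 := (hq.mul ha).hasV.mul hu hs
  have h4 := h3.unique hu hr.hasV
  rw [← h4, th_mul] at h2
  exact le_of_add_le_add_left h2

open scoped Classical in
/-- the valuation of `D` given by `θ` -/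
noncomputable def vl (u : Γ →* Dˣ) (θ : Γ →* Multiplicative Λ) (x : D) : WithBot Λ :=
  if h : ∃ l, HasV u θ x l then ((h.choose : Λ) : WithBot Λ) else ⊥

theorem vl_eq (hu : Linnell u) {x : D} {l : Λ} (h : HasV u θ x l) : vl u θ x = l := by
  classical
  have hex : ∃ l, HasV u θ x l := ⟨l, h⟩
  unfold vl
  rw [dif_pos hex, hex.choose_spec.unique hu h]

theorem vl_zero (hu : Linnell u) : vl u θ (0 : D) = ⊥ := by
  unfold vl
  rw [dif_neg]
  rintro ⟨l, hl⟩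
  exact hl.ne_zero hu rfl

theorem vl_LT (hu : Linnell u) {x : D} {g : Γ} (h : LT u θ x g) : vl u θ x = th θ g :=
  vl_eq hu h.hasV

theorem vl_au (hu : Linnell u) {a : D} (ha : a ∈ Dc u θ.ker) (ha0 : a ≠ 0) (g : Γ) :
    vl u θ (a * ((u g : Dˣ) : D)) = th θ g := vl_LT hu (LT.au ha ha0 g)

theorem vl_u (hu : Linnell u) (g : Γ) : vl u θ (((u g : Dˣ) : D)) = th θ g := by
  have h := vl_au (θ := θ) hu (one_mem _) one_ne_zero g
  rwa [one_mul] at h

theorem vl_Dc (hu : Linnell u) {a : D} (ha : a ∈ Dc u θ.ker) (ha0 : a ≠ 0) : vl u θ a = 0 := by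
  have h := vl_au (θ := θ) hu ha ha0 1
  rwa [map_one, Units.val_one, mul_one, th_one] at h

theorem vl_one (hu : Linnell u) : vl u θ (1 : D) = 0 := vl_Dc hu (one_mem _) one_ne_zero

theorem vl_ne_bot (hu : Linnell u) (hgen : ∀ x : D, x ∈ Dc u ⊤) {x : D} (hx : x ≠ 0) :
    vl u θ x ≠ ⊥ := by
  obtain ⟨l, hl⟩ := exists_hasV (θ := θ) hu hgen hx
  rw [vl_eq hu hl]
  exact WithBot.coe_ne_bot

theorem vl_eq_bot (hu : Linnell u) (hgen : ∀ x : D, x ∈ Dc u ⊤) {x : D} :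
    vl u θ x = ⊥ ↔ x = 0 := by
  constructor
  · intro h
    by_contra hx
    exact vl_ne_bot hu hgen hx h
  · rintro rfl
    exact vl_zero hu

theorem vl_mul (hu : Linnell u) (hgen : ∀ x : D, x ∈ Dc u ⊤) (x y : D) :
    vl u θ (x * y) = vl u θ x + vl u θ y := by
  by_cases hx : x = 0
  · rw [hx, zero_mul, vl_zero hu, WithBot.bot_add]
  by_cases hy : y = 0
  · rw [hy, mul_zero, vl_zero hu, WithBot.add_bot]
  obtain ⟨l, hl⟩ := exists_hasV (θ := θ) hu hgen hx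
  obtain ⟨m, hm⟩ := exists_hasV (θ := θ) hu hgen hy
  rw [vl_eq hu hl, vl_eq hu hm, vl_eq hu (hl.mul hu hm)]
  rfl

theorem vl_add (hu : Linnell u) (hgen : ∀ x : D, x ∈ Dc u ⊤) (x y : D) :
    vl u θ (x + y) ≤ max (vl u θ x) (vl u θ y) := by
  by_cases hx : x = 0
  · rw [hx, zero_add]; exact le_max_right _ _
  by_cases hy : y = 0
  · rw [hy, add_zero]; exact le_max_left _ _
  by_cases hs : x + y = 0
  · rw [hs, vl_zero hu]; exact bot_le
  obtain ⟨l, hl⟩ := exists_hasV (θ := θ) hu hgen hx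
  obtain ⟨m, hm⟩ := exists_hasV (θ := θ) hu hgen hy
  obtain ⟨n, hn⟩ := exists_hasV (θ := θ) hu hgen hs
  rw [vl_eq hu hl, vl_eq hu hm, vl_eq hu hn]
  have := hl.add hu hm hn
  exact_mod_cast this

theorem vl_neg (hu : Linnell u) (hgen : ∀ x : D, x ∈ Dc u ⊤) (x : D) :
    vl u θ (-x) = vl u θ x := by
  rw [← neg_one_mul, vl_mul hu hgen, vl_Dc hu (neg_mem (one_mem _)) (neg_ne_zero.2 one_ne_zero),
    zero_add]

theorem vl_sub (hu : Linnell u) (hgen : ∀ x : D, x ∈ Dc u ⊤) (x y : D) :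
    vl u θ (x - y) ≤ max (vl u θ x) (vl u θ y) := by
  rw [sub_eq_add_neg, ← vl_neg hu hgen y]
  exact vl_add hu hgen _ _

/-- If `y` is smaller than `x`, then `x + y` has the same valuation as `x`. -/
theorem vl_add_eq (hu : Linnell u) (hgen : ∀ x : D, x ∈ Dc u ⊤) {x y : D}
    (h : vl u θ y < vl u θ x) : vl u θ (x + y) = vl u θ x := by
  apply le_antisymm
  · exact (vl_add hu hgen x y).trans (max_le le_rfl h.le)
  · have h1 := vl_sub (θ := θ) hu hgen (x + y) y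
    rw [add_sub_cancel_right] at h1
    rcases le_max_iff.1 h1 with h2 | h2
    · exact h2
    · exact absurd h (not_lt.2 h2)

/-- every value is the value of a group element -/
theorem exists_val (hu : Linnell u) (hgen : ∀ x : D, x ∈ Dc u ⊤) {x : D} (hx : x ≠ 0) :
    ∃ g : Γ, vl u θ x = th θ g := by
  obtain ⟨l, hl⟩ := exists_hasV (θ := θ) hu hgen hx
  rw [vl_eq hu hl]
  obtain ⟨a, b, g, h, ha, hb, hab, hl⟩ := hl
  refine ⟨h * g⁻¹, ?_⟩
  rw [th_mul, th_inv, hl]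
  congr 1
  abel

theorem Msp_val_lt (hu : Linnell u) (hgen : ∀ x : D, x ∈ Dc u ⊤) {m : Λ} {x : D}
    (hx : x ∈ Msp u θ (Set.Iio m)) : vl u θ x < m := by
  by_cases hx0 : x = 0
  · rw [hx0, vl_zero hu]
    exact WithBot.bot_lt_coe _
  have hRN : x ∈ RN u θ.ker ⊤ := by
    rw [RN_eq]
    exact Msp_mono (Set.subset_univ _) hx
  obtain ⟨r, hr⟩ := exists_LT hRN hx0
  rw [vl_LT hu hr]
  have h1 : th θ r < m := by
    by_contra hc
    obtain ⟨a, ha, ha0, h1⟩ := hr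
    have hd : Set.Iio m ⊆ Set.Iio (th θ r) := Set.Iio_subset_Iio (not_lt.1 hc)
    apply au_notMem hu (T := Set.Iio (th θ r)) (g := r) (by simp) ha ha0
    have h2 := Submodule.sub_mem _ (Msp_mono hd hx) h1
    rwa [sub_sub_cancel] at h2
  exact_mod_cast h1

/-- Leading coefficients. -/
theorem residue (hu : Linnell u) (hgen : ∀ x : D, x ∈ Dc u ⊤) {x : D} {g : Γ}
    (hx : vl u θ x = th θ g) : ∃ c ∈ Dc u θ.ker, c ≠ 0 ∧
      vl u θ (x - c * ((u g : Dˣ) : D)) < th θ g := by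
  have hx0 : x ≠ 0 := by
    rintro rfl
    rw [vl_zero hu] at hx
    exact absurd hx.symm WithBot.coe_ne_bot
  obtain ⟨l, hl⟩ := exists_hasV (θ := θ) hu hgen hx0
  rw [vl_eq hu hl, WithBot.coe_inj] at hx
  subst hx
  obtain ⟨a, b, p, q, ha, hb, hab, hl⟩ := hl
  have ha' := ha
  obtain ⟨a₀, ha₀, ha₀0, h1⟩ := ha
  obtain ⟨b₀, hb₀, hb₀0, h2⟩ := hb
  have hup : ((u p⁻¹ : Dˣ) : D) = ((u p : Dˣ) : D)⁻¹ := by
    rw [map_inv, Units.val_inv_eq_inv_val]
  have hug : ((u g⁻¹ : Dˣ) : D) = ((u g : Dˣ) : D)⁻¹ := by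
    rw [map_inv, Units.val_inv_eq_inv_val]
  have hp0 : ((u p : Dˣ) : D) ≠ 0 := (u p).ne_zero
  have hg0 : ((u g : Dˣ) : D) ≠ 0 := (u g).ne_zero
  let c : D := ((u p⁻¹ : Dˣ) : D) * (a₀⁻¹ * b₀) * ((u p⁻¹⁻¹ : Dˣ) : D) *
    ((u (p⁻¹ * q * g⁻¹) : Dˣ) : D)
  have hc : c ∈ Dc u θ.ker := by
    refine mul_mem (conj_Dc u θ.ker inferInstance p⁻¹ _ (mul_mem (inv_mem ha₀) hb₀)) ?_
    apply Subfield.subset_closure
    refine ⟨_, ?_, rfl⟩
    rw [mem_ker, th_mul, th_mul, th_inv, th_inv, hl]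
    abel
  have hcg : c * ((u g : Dˣ) : D) = ((u p : Dˣ) : D)⁻¹ * (a₀⁻¹ * b₀) * ((u q : Dˣ) : D) := by
    show ((u p⁻¹ : Dˣ) : D) * (a₀⁻¹ * b₀) * ((u p⁻¹⁻¹ : Dˣ) : D) *
      ((u (p⁻¹ * q * g⁻¹) : Dˣ) : D) * ((u g : Dˣ) : D) = _
    rw [inv_inv, map_mul, map_mul, Units.val_mul, Units.val_mul, hup, hug]
    calc _ = ((u p : Dˣ) : D)⁻¹ * (a₀⁻¹ * b₀) * (((u p : Dˣ) : D) * ((u p : Dˣ) : D)⁻¹) *
          ((u q : Dˣ) : D) * (((u g : Dˣ) : D)⁻¹ * ((u g : Dˣ) : D)) := by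
            simp only [mul_assoc]
      _ = _ := by rw [mul_inv_cancel₀ hp0, inv_mul_cancel₀ hg0, mul_one, mul_one]
  refine ⟨c, hc, ?_, ?_⟩
  · refine mul_ne_zero (mul_ne_zero (mul_ne_zero (u p⁻¹).ne_zero
      (mul_ne_zero (inv_ne_zero ha₀0) hb₀0)) (u p⁻¹⁻¹).ne_zero) (u _).ne_zero
  · have e1 : a * (x - c * ((u g : Dˣ) : D)) = (b - b₀ * ((u q : Dˣ) : D)) -
        (a - a₀ * ((u p : Dˣ) : D)) * (c * ((u g : Dˣ) : D)) := by
      have e2 : a₀ * ((u p : Dˣ) : D) * (c * ((u g : Dˣ) : D)) = b₀ * ((u q : Dˣ) : D) := by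
        rw [hcg]
        calc _ = a₀ * (((u p : Dˣ) : D) * ((u p : Dˣ) : D)⁻¹) * a₀⁻¹ * b₀ * ((u q : Dˣ) : D) := by
              simp only [mul_assoc]
          _ = _ := by rw [mul_inv_cancel₀ hp0, mul_one, mul_inv_cancel₀ ha₀0, one_mul]
      rw [mul_sub, hab, sub_mul, e2]
      abel
    have h3 : vl u θ (a * (x - c * ((u g : Dˣ) : D))) < th θ q := by
      rw [e1]
      refine lt_of_le_of_lt (vl_sub hu hgen _ _) (max_lt (Msp_val_lt hu hgen h2) ?_)
      rw [vl_mul hu hgen]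
      have h4 := Msp_val_lt hu hgen h1
      have h5 : vl u θ (c * ((u g : Dˣ) : D)) = th θ g := by
        refine vl_au hu hc ?_ g
        intro h0
        rw [h0, zero_mul] at hcg
        exact mul_ne_zero (mul_ne_zero (inv_ne_zero hp0) (mul_ne_zero (inv_ne_zero ha₀0) hb₀0))
          (u q).ne_zero hcg.symm
      rw [h5, hl, WithBot.coe_add]
      exact WithBot.add_lt_add_right WithBot.coe_ne_bot h4
    rw [vl_mul hu hgen, vl_LT hu ha', hl, WithBot.coe_add] at h3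
    exact lt_of_add_lt_add_left h3

end Pool.Agent.TH19.Val
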